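import Mathlib
import Pool.Agent.H499R2.Dens4

set_option autoImplicit false

namespace Pool.Agent.TH880.MK

open Pool.Agent.H499R2

noncomputable section

/-- the error on a cone -/
def eR (H : ℕ) (Λ : ℝ) (J : Nd) : ℝ := 2 * H * (dl J / Λ)

lemma eR_nonneg {J : Nd} (h : Valid J) (H : ℕ) {Λ : ℝ} (hΛ : 0 < Λ) : 0 ≤ eR H Λ J := by
  have := dl_pos h
  unfold eR; positivity

lemma dl_lf_leL {J : Nd} (h : Valid J) {Λ : ℝ} (hΛ : 0 < Λ) (hp : Λ ≤ 4 * (J.a : ℝ) ^ 2) :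
    dl (lf J) ≤ dl J / Λ := by
  have ha := h.mt.ha; have hb := h.mt.hb
  have hc := h.mt.c_ge
  have hc0 : (0 : ℝ) < J.c := by have := h.mt.c_one; linarith
  unfold dl H499R2.lf
  simp only
  rw [div_div, div_le_div_iff₀ (by positivity) (by positivity), one_mul, one_mul]
  have h4 : (2 * (J.a : ℝ) * J.b) ^ 2 ≤ (J.c : ℝ) ^ 2 := pow_le_pow_left₀ (by positivity) hc 2
  have h5 : 0 < (J.a : ℝ) ^ 2 := by positivity
  have h6 : 0 < (J.b : ℝ) ^ 2 := by positivity
  calc (J.a : ℝ) ^ 2 * (J.b : ℝ) ^ 2 * Λ ≤ (J.a : ℝ) ^ 2 * (J.b : ℝ) ^ 2 * (4 * (J.a : ℝ) ^ 2) :=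
        mul_le_mul_of_nonneg_left hp (by positivity)
    _ = (J.a : ℝ) ^ 2 * (2 * (J.a : ℝ) * J.b) ^ 2 := by ring
    _ ≤ (J.a : ℝ) ^ 2 * (J.c : ℝ) ^ 2 := mul_le_mul_of_nonneg_left h4 h5.le

lemma dl_rt_leL {J : Nd} (h : Valid J) {Λ : ℝ} (hΛ : 0 < Λ) (hq : Λ ≤ 4 * (J.b : ℝ) ^ 2) :
    dl (rt J) ≤ dl J / Λ := by
  have ha := h.mt.ha; have hb := h.mt.hb
  have hc := h.mt.c_ge
  have hc0 : (0 : ℝ) < J.c := by have := h.mt.c_one; linarith
  unfold dl H499R2.rt
  simp only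
  rw [div_div, div_le_div_iff₀ (by positivity) (by positivity), one_mul, one_mul]
  have h4 : (2 * (J.a : ℝ) * J.b) ^ 2 ≤ (J.c : ℝ) ^ 2 := pow_le_pow_left₀ (by positivity) hc 2
  have h5 : 0 < (J.a : ℝ) ^ 2 := by positivity
  have h6 : 0 < (J.b : ℝ) ^ 2 := by positivity
  calc (J.a : ℝ) ^ 2 * (J.b : ℝ) ^ 2 * Λ ≤ (J.a : ℝ) ^ 2 * (J.b : ℝ) ^ 2 * (4 * (J.b : ℝ) ^ 2) :=
        mul_le_mul_of_nonneg_left hq (by positivity)
    _ = (2 * (J.a : ℝ) * J.b) ^ 2 * (J.b : ℝ) ^ 2 := by ring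
    _ ≤ (J.c : ℝ) ^ 2 * (J.b : ℝ) ^ 2 := mul_le_mul_of_nonneg_right h4 h6.le

lemma F_PLL (H : ℕ) {Λ : ℝ} (hΛ : 0 < Λ) (j l : List Bool) (h : inC (desc root j) (zz l)) (hp : Λ ≤ 4 * ((desc root j).a : ℝ) ^ 2)
    (hq : Λ ≤ 4 * ((desc root j).b : ℝ) ^ 2) (hl : sz l ≤ H) :
    |FF l - GG (desc root j) (zz l)| ≤ eR H Λ (desc root j) := by
  set J := desc root j with hJ
  have hv : Valid J := valid_root.desc j
  have hdl := dl_pos hv
  have hl' : (sz l : ℝ) ≤ H := by exact_mod_cast hl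
  have hsz : (0 : ℝ) ≤ sz l := by positivity
  have hdt : dt (zz l) (vec J) = cu J (zz l) - cv J (zz l) := dt_vec _ _
  by_cases hc : 0 ≤ dt (zz l) (vec J)
  · have h1 : inC (desc root (j ++ [true])) (zz l) := by
      rw [desc_snoc]; show inC (lf J) (zz l)
      unfold inC; rw [cu_lf, cv_lf]; exact ⟨by omega, h.2⟩
    have h2 := F_closed (j ++ [true]) l h1
    rw [desc_snoc] at h2
    have h2' : ell (lf J) (zz l) - 2 * dl (lf J) * sz l ≤ FF l ∧ FF l ≤ ell (lf J) (zz l) := h2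
    have h3 : GG J (zz l) = ell (lf J) (zz l) := by
      unfold GG
      rw [max_eq_right (by exact_mod_cast hc), hdt, ell_rt, ell_lf]; push_cast; ring
    have h4 := dl_lf_leL hv hΛ hp
    have h5 : 2 * dl (lf J) * sz l ≤ eR H Λ J := by
      unfold eR
      have : dl (lf J) * sz l ≤ (dl J / Λ) * H := mul_le_mul h4 hl' hsz (by positivity)
      linarith
    rw [h3, abs_le]; constructor <;> linarith [h2'.1, h2'.2, eR_nonneg hv H hΛ]
  · have h1 : inC (desc root (j ++ [false])) (zz l) := by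
      rw [desc_snoc]; show inC (rt J) (zz l)
      unfold inC; rw [cu_rt, cv_rt]; exact ⟨h.1, by omega⟩
    have h2 := F_closed (j ++ [false]) l h1
    rw [desc_snoc] at h2
    have h2' : ell (rt J) (zz l) - 2 * dl (rt J) * sz l ≤ FF l ∧ FF l ≤ ell (rt J) (zz l) := h2
    have h3 : GG J (zz l) = ell (rt J) (zz l) := by
      unfold GG
      push Not at hc
      rw [max_eq_left (by exact_mod_cast hc.le)]; ring
    have h4 := dl_rt_leL hv hΛ hq
    have h5 : 2 * dl (rt J) * sz l ≤ eR H Λ J := by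
      unfold eR
      have : dl (rt J) * sz l ≤ (dl J / Λ) * H := mul_le_mul h4 hl' hsz (by positivity)
      linarith
    rw [h3, abs_le]; constructor <;> linarith [h2'.1, h2'.2, eR_nonneg hv H hΛ]

/-- comparison of `xi` with the model -/
lemma xi_modelL (H : ℕ) {Λ : ℝ} (hΛ : 0 < Λ) (j a b : List Bool) (ha : inC (desc root j) (zz a)) (hb : inC (desc root j) (zz b))
    (hp : Λ ≤ 4 * ((desc root j).a : ℝ) ^ 2) (hq : Λ ≤ 4 * ((desc root j).b : ℝ) ^ 2) (sa : sz a ≤ H) (sb : sz b ≤ H)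
    (hab : dt (zz a) (zz b) ≠ 0) (t : ℤ × ℤ) :
    |xi a b t - (ell (rt (desc root j)) t + df (desc root j) *
      (((dt t (zz b) : ℝ) * max 0 ((dt (zz a) (zz j) : ℤ) : ℝ) + (dt (zz a) t : ℝ) * max 0 ((dt (zz b) (zz j) : ℤ) : ℝ)) /
        (dt (zz a) (zz b) : ℝ)))| ≤ 2 * H * eR H Λ (desc root j) * nm t := by
  have h1 := lin_diff a b (FF a) (FF b) (GG (desc root j) (zz a)) (GG (desc root j) (zz b)) (eR H Λ (desc root j)) H sa sb hab
    (F_PLL H hΛ j a ha hp hq sa) (F_PLL H hΛ j b hb hp hq sb) t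
  rw [lin_GG _ _ _ _ hab] at h1
  exact h1

/-- The kink lemma. -/
theorem kinkL (H : ℕ) {Λ : ℝ} (hΛ : 0 < Λ) (j A1 A2 B1 B2 : List Bool)
    (hp : Λ ≤ 4 * ((desc root j).a : ℝ) ^ 2) (hq : Λ ≤ 4 * ((desc root j).b : ℝ) ^ 2)
    (sA1 : sz A1 ≤ H) (sA2 : sz A2 ≤ H) (sB1 : sz B1 ≤ H) (sB2 : sz B2 ≤ H)
    (iA1 : inC (desc root j) (zz A1)) (iA2 : inC (desc root j) (zz A2))
    (iB1 : inC (desc root j) (zz B1)) (iB2 : inC (desc root j) (zz B2))
    (dA : 0 < dt (zz A1) (zz A2)) (dB : 0 < dt (zz B1) (zz B2)) (dAB : 0 ≤ dt (zz A2) (zz B1))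
    (hL : 0 < dt (zz A1) (zz j)) (hR : 0 < dt (zz j) (zz B2)) :
    ∃ (y : List Bool) (θ : ℝ), 0 < θ ∧ 1 ≤ θ * H ^ 2 ∧ θ ≤ 2 * H ^ 2 ∧
      (∀ t, |xi A1 A2 t - xi B1 B2 t - df (desc root j) * (θ * dt t (zz y))| ≤ 4 * H * eR H Λ (desc root j) * nm t) ∧
      ((y = j ∧ θ = 1 ∧ |xi A1 A2 (zz j) - FF j| ≤ 2 * H * eR H Λ (desc root j) * nm (zz j) ∧
          |xi B1 B2 (zz j) - FF j| ≤ 2 * H * eR H Λ (desc root j) * nm (zz j)) ∨
        (y = A2 ∧ dt (zz A2) (zz j) < 0) ∨ (y = B1 ∧ 0 < dt (zz B1) (zz j))) := by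
  have hv := valid_root.desc j
  have mA := xi_modelL H hΛ j A1 A2 iA1 iA2 hp hq sA1 sA2 dA.ne'
  have mB := xi_modelL H hΛ j B1 B2 iB1 iB2 hp hq sB1 sB2 dB.ne'
  set J := desc root j with hJ
  set e := eR H Λ J with he
  have hA12 : (0 : ℝ) < dt (zz A1) (zz A2) := by exact_mod_cast dA
  have hB12 : (0 : ℝ) < dt (zz B1) (zz B2) := by exact_mod_cast dB
  have hA1z : (0 : ℝ) < dt (zz A1) (zz j) := by exact_mod_cast hL
  have hzB2 : (0 : ℝ) < dt (zz j) (zz B2) := by exact_mod_cast hR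
  have hB2z : dt (zz B2) (zz j) < 0 := by rw [dt_comm]; omega
  have maxA1 : max 0 ((dt (zz A1) (zz j) : ℤ) : ℝ) = dt (zz A1) (zz j) := max_eq_right hA1z.le
  have maxB2 : max 0 ((dt (zz B2) (zz j) : ℤ) : ℝ) = 0 := max_eq_left (by exact_mod_cast hB2z.le)
  have hH1 : (1 : ℝ) ≤ H := by
    have : 1 ≤ sz A1 := by have := pt_pos A1; unfold sz; omega
    exact_mod_cast this.trans sA1
  have ellz : ell (rt J) (zz j) = FF j := by
    have hzv : zz j = vec J := rfl
    have e3 : cu J (vec J) = 1 := by simpa [pt, desc] using (cu_vec hv []).1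
    have e4 : cv J (vec J) = 1 := by simpa [pt, desc] using (cu_vec hv []).2
    have h1 : cu (rt J) (zz j) = 1 := by
      rw [cu_rt, hzv]; exact e3
    have h2 : cv (rt J) (zz j) = 0 := by
      rw [cv_rt, hzv]; omega
    unfold ell; rw [h1, h2, al_rt]; push_cast
    show (1 : ℝ) * ga J + 0 * be (rt J) = FF j
    unfold FF; rw [hJ]; ring
  -- common triangle inequality
  have tri : ∀ t (X Y : ℝ), |xi A1 A2 t - (ell (rt J) t + df J * X)| ≤ 2 * H * e * nm t →
      |xi B1 B2 t - (ell (rt J) t + df J * Y)| ≤ 2 * H * e * nm t →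
      |xi A1 A2 t - xi B1 B2 t - df J * (X - Y)| ≤ 4 * H * e * nm t := by
    intro t X Y h1 h2
    have : xi A1 A2 t - xi B1 B2 t - df J * (X - Y) =
        (xi A1 A2 t - (ell (rt J) t + df J * X)) - (xi B1 B2 t - (ell (rt J) t + df J * Y)) := by ring
    rw [this]
    refine (abs_sub _ _).trans ?_
    linarith
  -- size bounds
  have bA12 : (dt (zz A1) (zz A2) : ℝ) ≤ H ^ 2 := by
    have h1 := dt_bound (zz A1) A2
    rw [nm_zz, abs_of_pos hA12] at h1
    have s1 : (sz A1 : ℝ) ≤ H := by exact_mod_cast sA1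
    have s2 : (sz A2 : ℝ) ≤ H := by exact_mod_cast sA2
    have := mul_le_mul s1 s2 (by positivity) (by positivity)
    nlinarith
  have bB12 : (dt (zz B1) (zz B2) : ℝ) ≤ H ^ 2 := by
    have h1 := dt_bound (zz B1) B2
    rw [nm_zz, abs_of_pos hB12] at h1
    have s1 : (sz B1 : ℝ) ≤ H := by exact_mod_cast sB1
    have s2 : (sz B2 : ℝ) ≤ H := by exact_mod_cast sB2
    have := mul_le_mul s1 s2 (by positivity) (by positivity)
    nlinarith
  have szj : (sz j : ℝ) ≤ 2 * H := by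
    have h1 : 0 < dt (zz A1) (zz B2) := by
      -- A1 left of z, B2 right of z
      have hcA := dt_vec J (zz A1)
      have hcB := dt_vec J (zz B2)
      have e1 : dt (zz A1) (zz j) = dt (zz A1) (vec J) := rfl
      have e2 : dt (zz B2) (zz j) = dt (zz B2) (vec J) := rfl
      rw [dt_coord hv (zz A1) (zz B2)]
      have f1 : cv J (zz A1) < cu J (zz A1) := by omega
      have f2 : cu J (zz B2) < cv J (zz B2) := by omega
      have g1 := iA1.2
      have g2 := iB2.1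
      nlinarith
    have h2 := sum_size hv A1 B2 iA1 iB2 h1
    have h3 : J.p + J.q = sz j := sz_pq j
    have : sz j ≤ 2 * H := by omega
    exact_mod_cast this
  have bA1z : (dt (zz A1) (zz j) : ℝ) ≤ 2 * H ^ 2 := by
    have h1 := dt_bound (zz A1) j
    rw [nm_zz, abs_of_pos hA1z] at h1
    have s1 : (sz A1 : ℝ) ≤ H := by exact_mod_cast sA1
    have := mul_le_mul s1 szj (by positivity) (by positivity)
    nlinarith
  have bzB2 : (dt (zz j) (zz B2) : ℝ) ≤ 2 * H ^ 2 := by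
    have h1 := dt_bound (zz j) B2
    rw [nm_zz, abs_of_pos hzB2] at h1
    have s1 : (sz B2 : ℝ) ≤ H := by exact_mod_cast sB2
    have := mul_le_mul szj s1 (by positivity) (by positivity)
    nlinarith
  have hH2 : (1 : ℝ) ≤ H ^ 2 := one_le_pow₀ hH1
  by_cases cA : 0 ≤ dt (zz A2) (zz j)
  · -- both A on the left
    have maxA2 : max 0 ((dt (zz A2) (zz j) : ℤ) : ℝ) = dt (zz A2) (zz j) := max_eq_right (by exact_mod_cast cA)
    have brA : ∀ t, ((dt t (zz A2) : ℝ) * max 0 ((dt (zz A1) (zz j) : ℤ) : ℝ) +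
        (dt (zz A1) t : ℝ) * max 0 ((dt (zz A2) (zz j) : ℤ) : ℝ)) / (dt (zz A1) (zz A2) : ℝ) = dt t (zz j) := by
      intro t
      rw [maxA1, maxA2, div_eq_iff hA12.ne']
      have := pluck (zz A1) (zz A2) t (zz j)
      have h2 : (dt (zz A1) (zz A2) : ℝ) * dt t (zz j) - dt (zz A1) t * dt (zz A2) (zz j) +
        dt (zz A1) (zz j) * dt (zz A2) t = 0 := by exact_mod_cast this
      rw [dt_comm (zz A2) t] at h2
      push_cast at h2
      linear_combination -h2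
    by_cases cB : dt (zz B1) (zz j) ≤ 0
    · -- main case
      have maxB1 : max 0 ((dt (zz B1) (zz j) : ℤ) : ℝ) = 0 := max_eq_left (by exact_mod_cast cB)
      have brB : ∀ t, ((dt t (zz B2) : ℝ) * max 0 ((dt (zz B1) (zz j) : ℤ) : ℝ) +
          (dt (zz B1) t : ℝ) * max 0 ((dt (zz B2) (zz j) : ℤ) : ℝ)) / (dt (zz B1) (zz B2) : ℝ) = 0 := by
        intro t; rw [maxB1, maxB2]; simp
      refine ⟨j, 1, one_pos, by linarith, by linarith, ?_, Or.inl ⟨rfl, rfl, ?_, ?_⟩⟩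
      · intro t
        have h1 := mA t
        have h2 := mB t
        rw [brA] at h1
        rw [brB] at h2
        have := tri t _ _ h1 h2
        rwa [sub_zero, ← one_mul ((dt t (zz j) : ℤ) : ℝ)] at this
      · have h1 := mA (zz j)
        rw [brA, dt_self, ellz] at h1
        simpa using h1
      · have h1 := mB (zz j)
        rw [brB, ellz] at h1
        simpa using h1
    · push Not at cB
      have hB1z : (0 : ℝ) < dt (zz B1) (zz j) := by exact_mod_cast cB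
      have maxB1 : max 0 ((dt (zz B1) (zz j) : ℤ) : ℝ) = dt (zz B1) (zz j) := max_eq_right hB1z.le
      refine ⟨B1, dt (zz j) (zz B2) / dt (zz B1) (zz B2), by positivity, ?_, ?_, ?_, Or.inr (Or.inr ⟨rfl, cB⟩)⟩
      · rw [div_mul_eq_mul_div, one_le_div hB12]
        have : (1 : ℝ) ≤ dt (zz j) (zz B2) := by exact_mod_cast hR
        nlinarith
      · rw [div_le_iff₀ hB12]
        have : (1 : ℝ) ≤ dt (zz B1) (zz B2) := by exact_mod_cast dB
        nlinarith
      · intro t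
        have h1 := mA t
        have h2 := mB t
        rw [brA] at h1
        have h3 := tri t _ _ h1 h2
        have h4 : (dt t (zz j) : ℝ) - ((dt t (zz B2) : ℝ) * max 0 ((dt (zz B1) (zz j) : ℤ) : ℝ) +
          (dt (zz B1) t : ℝ) * max 0 ((dt (zz B2) (zz j) : ℤ) : ℝ)) / (dt (zz B1) (zz B2) : ℝ) =
          (dt (zz j) (zz B2) : ℝ) / dt (zz B1) (zz B2) * dt t (zz B1) := by
          rw [maxB1, maxB2]
          field_simp
          have := pluck (zz B1) (zz B2) t (zz j)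
          have h5 : (dt (zz B1) (zz B2) : ℝ) * dt t (zz j) - dt (zz B1) t * dt (zz B2) (zz j) +
            dt (zz B1) (zz j) * dt (zz B2) t = 0 := by exact_mod_cast this
          rw [dt_comm (zz B2) t, dt_comm (zz B1) t, dt_comm (zz B2) (zz j)] at h5
          push_cast at h5
          linear_combination h5
        rw [h4] at h3
        exact h3
  · -- A2 strictly on the right
    push Not at cA
    have maxA2 : max 0 ((dt (zz A2) (zz j) : ℤ) : ℝ) = 0 := max_eq_left (by exact_mod_cast cA.le)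
    -- then B1 on the right
    have cB : dt (zz B1) (zz j) ≤ 0 := by
      have hcA := dt_vec J (zz A2)
      have hcB := dt_vec J (zz B1)
      have e1 : dt (zz A2) (zz j) = dt (zz A2) (vec J) := rfl
      have e2 : dt (zz B1) (zz j) = dt (zz B1) (vec J) := rfl
      rw [dt_coord hv (zz A2) (zz B1)] at dAB
      by_contra hcon
      push Not at hcon
      have f1 : cu J (zz A2) < cv J (zz A2) := by omega
      have f2 : cv J (zz B1) < cu J (zz B1) := by omega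
      have g1 := iA2.1
      have g2 := iB1.2
      have : cu J (zz A2) * cv J (zz B1) < cv J (zz A2) * cu J (zz B1) := by nlinarith
      omega
    have maxB1 : max 0 ((dt (zz B1) (zz j) : ℤ) : ℝ) = 0 := max_eq_left (by exact_mod_cast cB)
    have brB : ∀ t, ((dt t (zz B2) : ℝ) * max 0 ((dt (zz B1) (zz j) : ℤ) : ℝ) +
        (dt (zz B1) t : ℝ) * max 0 ((dt (zz B2) (zz j) : ℤ) : ℝ)) / (dt (zz B1) (zz B2) : ℝ) = 0 := by
      intro t; rw [maxB1, maxB2]; simp
    refine ⟨A2, dt (zz A1) (zz j) / dt (zz A1) (zz A2), by positivity, ?_, ?_, ?_, Or.inr (Or.inl ⟨rfl, cA⟩)⟩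
    · rw [div_mul_eq_mul_div, one_le_div hA12]
      have : (1 : ℝ) ≤ dt (zz A1) (zz j) := by exact_mod_cast hL
      nlinarith
    · rw [div_le_iff₀ hA12]
      have : (1 : ℝ) ≤ dt (zz A1) (zz A2) := by exact_mod_cast dA
      nlinarith
    · intro t
      have h1 := mA t
      have h2 := mB t
      rw [brB] at h2
      have h3 := tri t _ _ h1 h2
      have h4 : ((dt t (zz A2) : ℝ) * max 0 ((dt (zz A1) (zz j) : ℤ) : ℝ) +
        (dt (zz A1) t : ℝ) * max 0 ((dt (zz A2) (zz j) : ℤ) : ℝ)) / (dt (zz A1) (zz A2) : ℝ) - 0 =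
        (dt (zz A1) (zz j) : ℝ) / dt (zz A1) (zz A2) * dt t (zz A2) := by
        rw [maxA1, maxA2]
        field_simp
        ring
      rw [h4] at h3
      exact h3

end

end Pool.Agent.TH880.MK
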