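import Mathlib
import Pool.Agent.TH880.MK.M2
import Pool.Agent.H499R2.Dens6

set_option autoImplicit false

namespace Pool.Agent.TH880.MK

open Pool.Agent.H499R2

noncomputable section

lemma ab_step (X : Nd) (hv : Valid X) (b : Bool) : X.a ≤ (step X b).a ∧ X.b ≤ (step X b).b := by
  have h1 := hv.mt.c_ge
  have ha := hv.mt.ha
  have hb := hv.mt.hb
  have hac : (X.a : ℝ) ≤ X.c := by nlinarith
  have hbc : (X.b : ℝ) ≤ X.c := by nlinarith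
  cases b
  · exact ⟨by show X.a ≤ X.c; exact_mod_cast hac, le_rfl⟩
  · exact ⟨le_rfl, by show X.b ≤ X.c; exact_mod_cast hbc⟩

lemma ab_prefix {k i : List Bool} (h : k <+: i) :
    (desc root k).a ≤ (desc root i).a ∧ (desc root k).b ≤ (desc root i).b := by
  obtain ⟨t, rfl⟩ := h
  induction t using List.reverseRecOn with
  | nil => rw [List.append_nil]; exact ⟨le_rfl, le_rfl⟩
  | append_singleton t b ih =>
    rw [← List.append_assoc, desc_snoc]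
    have h2 := ab_step (desc root (k ++ t)) (valid_root.desc _) b
    exact ⟨ih.1.trans h2.1, ih.2.trans h2.2⟩

lemma sq4_mono {Λ : ℝ} {x y : ℤ} (hx : 1 ≤ x) (hxy : x ≤ y) (h : Λ ≤ 4 * (x : ℝ) ^ 2) : Λ ≤ 4 * (y : ℝ) ^ 2 := by
  have h1 : (1 : ℝ) ≤ x := by exact_mod_cast hx
  have h2 : (x : ℝ) ≤ y := by exact_mod_cast hxy
  have h3 : (x : ℝ) ^ 2 ≤ (y : ℝ) ^ 2 := pow_le_pow_left₀ (by linarith) h2 2
  linarith

lemma smul_zz_inj {κ κ' : ℤ} {j : List Bool} (h : κ • zz j = κ' • zz j) : κ = κ' := by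
  have h1 := congrArg Prod.fst h
  simp only [Prod.smul_fst, smul_eq_mul] at h1
  have := (zz_pos j).1
  exact mul_right_cancel₀ (by omega) h1

/-- the node `j` (below `k'`) is matched with the node `i` -/
structure NM (H : ℕ) (n n' : ℤ) (M : (ℤ × ℤ) →+ (ℤ × ℤ)) (k' i j : List Bool) (κ : ℤ) : Prop where
  pre : k' <+: j
  img : M (zz i) = κ • zz j
  sg : 0 < n * κ
  dv : κ ∣ n * n'
  acc : ∀ Λ : ℝ, (10 : ℝ) ^ 20 * H ^ 20 ≤ Λ → Λ ≤ 4 * ((desc root i).a : ℝ) ^ 2 →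
    Λ ≤ 4 * ((desc root i).b : ℝ) ^ 2 → Λ ≤ 4 * ((desc root j).a : ℝ) ^ 2 → Λ ≤ 4 * ((desc root j).b : ℝ) ^ 2 →
      (|Real.log (((|n'| : ℤ) : ℝ) / ((|κ| : ℤ) : ℝ)) - 2 * (1 - ((|κ| : ℤ) : ℝ) / ((|n| : ℤ) : ℝ)) * ga (desc root j)| ≤
        10600 * H ^ 11 / Λ) ∧
      (|ga (desc root i) - |(κ : ℝ)| / |(n : ℝ)| * ga (desc root j)| ≤ 32 * H ^ 6 / Λ)
  lt : |κ| < |n| → |n| < |n'|
  gt : |n| < |κ| → |n'| < |n|
  eq : κ = n → |n'| = |n| ∧ (desc root i).c = (desc root j).c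

theorem match_auxL (H : ℕ) (Λ0 : ℝ) (n n' : ℤ) (M : (ℤ × ℤ) →+ (ℤ × ℤ)) (hM : Mat H n n' M)
    (hs : (10 : ℝ) ^ 20 * H ^ 20 ≤ Λ0)
    (i a1 a2 b1 b2 A1 A2 B1 B2 k' : List Bool) (s : ℤ) (hs1 : s = 1 ∨ s = -1) (hsn : 0 < s * (n * n'))
    (hp : Λ0 ≤ 4 * ((desc root i).a : ℝ) ^ 2) (hq : Λ0 ≤ 4 * ((desc root i).b : ℝ) ^ 2)
    (hp' : Λ0 ≤ 4 * ((desc root k').a : ℝ) ^ 2) (hq' : Λ0 ≤ 4 * ((desc root k').b : ℝ) ^ 2)
    (sa1 : sz a1 ≤ H) (sa2 : sz a2 ≤ H) (sb1 : sz b1 ≤ H) (sb2 : sz b2 ≤ H)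
    (sA1 : sz A1 ≤ H) (sA2 : sz A2 ≤ H) (sB1 : sz B1 ≤ H) (sB2 : sz B2 ≤ H)
    (ia1 : i ++ [true] <+: a1) (ia2 : i ++ [true] <+: a2) (ib1 : i ++ [false] <+: b1) (ib2 : i ++ [false] <+: b2)
    (kA1 : k' <+: A1) (kB2 : k' <+: B2)
    (da : 0 < dt (zz a1) (zz a2)) (db : 0 < dt (zz b1) (zz b2))
    (dA : 0 < dt (zz A1) (zz A2)) (dB : 0 < dt (zz B1) (zz B2)) (dAB : 0 < dt (zz A2) (zz B1))
    (hdiff : ∀ t, (n : ℝ) * (xi a1 a2 t - xi b1 b2 t) = s * (xi A1 A2 (M t) - xi B1 B2 (M t)))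
    (hval : (n : ℝ) * xi a1 a2 (zz i) = xi A1 A2 (M (zz i)) ∨ (n : ℝ) * xi a1 a2 (zz i) = xi B1 B2 (M (zz i)))
    (nA : dt (M (zz i)) (zz A2) ≠ 0) (nB : dt (M (zz i)) (zz B1) ≠ 0) :
    ∃ (j : List Bool) (κ : ℤ), NM H n n' M k' i j κ ∧ inC (desc root j) (zz A1) ∧ inC (desc root j) (zz A2) ∧
      inC (desc root j) (zz B1) ∧ inC (desc root j) (zz B2) := by
  obtain ⟨t0, iA1, iB2, dA1j, djB2⟩ := descent A1 B2 (dt_trans (dt_trans dA dAB) dB)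
    (sz A1 + sz B2) k' (inC_of_prefix kA1) (inC_of_prefix kB2) (by omega)
  obtain ⟨j, hj⟩ : ∃ j, j = k' ++ t0 := ⟨_, rfl⟩
  rw [← hj] at iA1 iB2 dA1j djB2
  have hkj : k' <+: j := by rw [hj]; exact List.prefix_append k' t0
  have iA2 : inC (desc root j) (zz A2) := inC_mid iA1 iB2 dA (dt_trans dAB dB)
  have iB1 : inC (desc root j) (zz B1) := inC_mid iA1 iB2 (dt_trans dA dAB) dB
  have hab := ab_prefix hkj
  have zk := zvd k'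
  have pa : Λ0 ≤ 4 * ((desc root j).a : ℝ) ^ 2 := sq4_mono zk.a1 hab.1 hp'
  have pb : Λ0 ≤ 4 * ((desc root j).b : ℝ) ^ 2 := sq4_mono zk.b1 hab.2 hq'
  have key := fun (Λ : ℝ) h h1 h2 h3 h4 => match_nodeL H Λ n n' M hM h i a1 a2 b1 b2 A1 A2 B1 B2 j s hs1 hsn
    h1 h2 h3 h4 sa1 sa2 sb1 sb2 sA1 sA2 sB1 sB2 ia1 ia2 ib1 ib2 iA1 iB2 dA1j djB2 da db dA dB dAB hdiff hval nA nB
  obtain ⟨κ, k1, k2, k3, k4, k5, k6, k7, k8⟩ := key Λ0 hs hp hq pa pb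
  refine ⟨j, κ, ⟨hkj, k1, k2, k3, ?_, k6, k7, k8⟩, iA1, iA2, iB1, iB2⟩
  intro Λ h h1 h2 h3 h4
  obtain ⟨κ', m1, m2, m3, m4, m5, -⟩ := key Λ h h1 h2 h3 h4
  have : κ' = κ := smul_zz_inj (m1.symm.trans k1)
  subst this
  exact ⟨m4, m5⟩

theorem match_coreL (H : ℕ) (Λ : ℝ) (n n' : ℤ) (M : (ℤ × ℤ) →+ (ℤ × ℤ)) (hM : Mat H n n' M)
    (hs : (10 : ℝ) ^ 20 * H ^ 20 ≤ Λ)
    (i a1 a2 b1 b2 a1' a2' b1' b2' k' : List Bool)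
    (hp : Λ ≤ 4 * ((desc root i).a : ℝ) ^ 2) (hq : Λ ≤ 4 * ((desc root i).b : ℝ) ^ 2)
    (hp' : Λ ≤ 4 * ((desc root k').a : ℝ) ^ 2) (hq' : Λ ≤ 4 * ((desc root k').b : ℝ) ^ 2)
    (sa1 : sz a1 ≤ H) (sa2 : sz a2 ≤ H) (sb1 : sz b1 ≤ H) (sb2 : sz b2 ≤ H)
    (sa1' : sz a1' ≤ H) (sa2' : sz a2' ≤ H) (sb1' : sz b1' ≤ H) (sb2' : sz b2' ≤ H)
    (ia1 : i ++ [true] <+: a1) (ia2 : i ++ [true] <+: a2) (ib1 : i ++ [false] <+: b1) (ib2 : i ++ [false] <+: b2)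
    (ka1 : k' <+: a1') (ka2 : k' <+: a2') (kb1 : k' <+: b1') (kb2 : k' <+: b2')
    (fa1 : FF a1' = FF a1) (fa2 : FF a2' = FF a2) (fb1 : FF b1' = FF b1) (fb2 : FF b2' = FF b2)
    (ra1 : M (zz a1) = n • zz a1') (ra2 : M (zz a2) = n • zz a2')
    (rb1 : M (zz b1) = n • zz b1') (rb2 : M (zz b2) = n • zz b2')
    (da : 0 < dt (zz a1) (zz a2)) (db : 0 < dt (zz b1) (zz b2)) :
    ∃ (j : List Bool) (κ : ℤ), NM H n n' M k' i j κ ∧ inC (desc root j) (zz a1') ∧ inC (desc root j) (zz a2') ∧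
      inC (desc root j) (zz b1') ∧ inC (desc root j) (zz b2') := by
  have dab : 0 < dt (zz a2) (zz b1) := dt_trans (side_lf ia2) (side_rt ib1)
  have dab' : 0 < dt (zz a2) (zz b1) := dab
  have xa := fun t => (xi_trans hM a1 a2 a1' a2' ra1 ra2 fa1 fa2 da.ne' t).1
  have xb := fun t => (xi_trans hM b1 b2 b1' b2' rb1 rb2 fb1 fb2 db.ne' t).1
  have nzi : ∀ x : List Bool, (i ++ [true] <+: x ∨ i ++ [false] <+: x) → dt (zz i) (zz x) ≠ 0 := by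
    intro x hx
    rcases hx with h | h
    · have := side_lf h; rw [dt_comm]; omega
    · exact (side_rt h).ne'
  rcases lt_or_gt_of_ne (mul_ne_zero hM.hn hM.hn') with h0 | h0
  · -- orientation reversing
    have hs1 : (0 : ℤ) < -1 * (n * n') := by omega
    have neg : ∀ {x y : List Bool}, 0 < dt (zz x) (zz y) → 0 < -1 * dt (zz y) (zz x) := by
      intro x y h; rw [dt_comm] at h; omega
    have key := match_auxL H Λ n n' M hM hs i a1 a2 b1 b2 b2' b1' a2' a1' k' (-1) (Or.inr rfl) hs1 hp hq hp' hq'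
      sa1 sa2 sb1 sb2 sb2' sb1' sa2' sa1' ia1 ia2 ib1 ib2 kb2 ka1 da db ?_ ?_ ?_ ?_ ?_ ?_ ?_
    · obtain ⟨j, κ, h, c1, c2, c3, c4⟩ := key
      exact ⟨j, κ, h, c4, c3, c2, c1⟩
    · exact rel_pos hM rb2 rb1 (-1) hs1 (neg db) (Or.inr rfl)
    · exact rel_pos hM ra2 ra1 (-1) hs1 (neg da) (Or.inr rfl)
    · exact rel_pos hM rb1 ra2 (-1) hs1 (neg dab) (Or.inr rfl)
    · intro t
      have h1 := xa t
      have h2 := xb t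
      rw [xi_swap a1' a2'] at h1
      rw [xi_swap b1' b2'] at h2
      push_cast
      linear_combination h1 - h2
    · right
      rw [xa, xi_swap]
    · exact rel_nz hM _ rb1 (nzi _ (Or.inr ib1))
    · exact rel_nz hM _ ra2 (nzi _ (Or.inl ia2))
  · have hs1 : (0 : ℤ) < 1 * (n * n') := by omega
    have pos : ∀ {x y : List Bool}, 0 < dt (zz x) (zz y) → 0 < 1 * dt (zz x) (zz y) := by
      intro x y h; omega
    refine match_auxL H Λ n n' M hM hs i a1 a2 b1 b2 a1' a2' b1' b2' k' 1 (Or.inl rfl) hs1 hp hq hp' hq'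
      sa1 sa2 sb1 sb2 sa1' sa2' sb1' sb2' ia1 ia2 ib1 ib2 ka1 kb2 da db ?_ ?_ ?_ ?_ ?_ ?_ ?_
    · exact rel_pos hM ra1 ra2 1 hs1 (pos da) (Or.inl rfl)
    · exact rel_pos hM rb1 rb2 1 hs1 (pos db) (Or.inl rfl)
    · exact rel_pos hM ra2 rb1 1 hs1 (pos dab) (Or.inl rfl)
    · intro t
      have h1 := xa t
      have h2 := xb t
      push_cast
      linear_combination h1 - h2
    · left
      exact xa _
    · exact rel_nz hM _ ra2 (nzi _ (Or.inl ia2))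
    · exact rel_nz hM _ rb1 (nzi _ (Or.inr ib1))


structure SysL (H : ℕ) (Λ : ℝ) (n n' : ℤ) (M : (ℤ × ℤ) →+ (ℤ × ℤ)) (k k' : List Bool)
    (R : List Bool → List Bool → Prop) : Prop where
  mat : Mat H n n' M
  hs : (10 : ℝ) ^ 20 * H ^ 20 ≤ Λ
  ha : Λ ≤ 4 * ((desc root k).a : ℝ) ^ 2
  hb : Λ ≤ 4 * ((desc root k).b : ℝ) ^ 2
  ha' : Λ ≤ 4 * ((desc root k').a : ℝ) ^ 2
  hb' : Λ ≤ 4 * ((desc root k').b : ℝ) ^ 2
  rel : ∀ l l', R l l' → k <+: l ∧ k' <+: l' ∧ sz l ≤ H ∧ sz l' ≤ H ∧ FF l' = FF l ∧ M (zz l) = n • zz l'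

theorem node_matchL {H : ℕ} {Λ : ℝ} {n n' : ℤ} {M : (ℤ × ℤ) →+ (ℤ × ℤ)} {k k' : List Bool}
    {R : List Bool → List Bool → Prop} (S : SysL H Λ n n' M k k' R) {i : List Bool} (hki : k <+: i)
    {a1 a1' a2 a2' b1 b1' b2 b2' : List Bool} (hane : a1 ≠ a2) (hbne : b1 ≠ b2)
    (ra1 : R a1 a1') (ra2 : R a2 a2') (rb1 : R b1 b1') (rb2 : R b2 b2')
    (ia1 : i ++ [true] <+: a1) (ia2 : i ++ [true] <+: a2) (ib1 : i ++ [false] <+: b1) (ib2 : i ++ [false] <+: b2) :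
    ∃ (j : List Bool) (κ : ℤ), NM H n n' M k' i j κ ∧ inC (desc root j) (zz a1') ∧ inC (desc root j) (zz a2') ∧
      inC (desc root j) (zz b1') ∧ inC (desc root j) (zz b2') := by
  have hab := ab_prefix hki
  have zk := zvd k
  have hp : Λ ≤ 4 * ((desc root i).a : ℝ) ^ 2 := sq4_mono zk.a1 hab.1 S.ha
  have hq : Λ ≤ 4 * ((desc root i).b : ℝ) ^ 2 := sq4_mono zk.b1 hab.2 S.hb
  obtain ⟨p1, p2, p3, p4, p5, p6⟩ := S.rel _ _ ra1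
  obtain ⟨q1, q2, q3, q4, q5, q6⟩ := S.rel _ _ ra2
  obtain ⟨r1, r2, r3, r4, r5, r6⟩ := S.rel _ _ rb1
  obtain ⟨s1, s2, s3, s4, s5, s6⟩ := S.rel _ _ rb2
  rcases ne_dt hane with da | da <;> rcases ne_dt hbne with db | db
  · exact match_coreL H Λ n n' M S.mat S.hs i a1 a2 b1 b2 a1' a2' b1' b2' k' hp hq S.ha' S.hb'
      p3 q3 r3 s3 p4 q4 r4 s4 ia1 ia2 ib1 ib2 p2 q2 r2 s2 p5 q5 r5 s5 p6 q6 r6 s6 da db
  · obtain ⟨j, κ, h, c1, c2, c3, c4⟩ := match_coreL H Λ n n' M S.mat S.hs i a1 a2 b2 b1 a1' a2' b2' b1' k' hp hq S.ha' S.hb'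
      p3 q3 s3 r3 p4 q4 s4 r4 ia1 ia2 ib2 ib1 p2 q2 s2 r2 p5 q5 s5 r5 p6 q6 s6 r6 da db
    exact ⟨j, κ, h, c1, c2, c4, c3⟩
  · obtain ⟨j, κ, h, c1, c2, c3, c4⟩ := match_coreL H Λ n n' M S.mat S.hs i a2 a1 b1 b2 a2' a1' b1' b2' k' hp hq S.ha' S.hb'
      q3 p3 r3 s3 q4 p4 r4 s4 ia2 ia1 ib1 ib2 q2 p2 r2 s2 q5 p5 r5 s5 q6 p6 r6 s6 da db
    exact ⟨j, κ, h, c2, c1, c3, c4⟩
  · obtain ⟨j, κ, h, c1, c2, c3, c4⟩ := match_coreL H Λ n n' M S.mat S.hs i a2 a1 b2 b1 a2' a1' b2' b1' k' hp hq S.ha' S.hb'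
      q3 p3 s3 r3 q4 p4 s4 r4 ia2 ia1 ib2 ib1 q2 p2 s2 r2 q5 p5 s5 r5 q6 p6 s6 r6 da db
    exact ⟨j, κ, h, c2, c1, c4, c3⟩

end

end Pool.Agent.TH880.MK
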