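import Mathlib
import Pool.Agent.TH880.MK.M3
import Pool.Agent.H499R2.Dens7

set_option autoImplicit false

namespace Pool.Agent.TH880.MK

open Pool.Agent.H499R2

noncomputable section

lemma F_linL {H : ℕ} {k l : List Bool} (h : k <+: l) (hl : sz l ≤ H) :
    |FF l - ell (desc root k) (zz l)| ≤ 2 * dl (desc root k) * H := by
  have hv := valid_root.desc k
  obtain ⟨h1, h2⟩ := F_closed k l (inC_of_prefix h)
  have h7 := dl_pos hv
  have hl' : (sz l : ℝ) ≤ H := by exact_mod_cast hl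
  have h6 : 2 * dl (desc root k) * sz l ≤ 2 * dl (desc root k) * H := mul_le_mul_of_nonneg_left hl' (by linarith)
  have h8 : 0 ≤ 2 * dl (desc root k) * H := by positivity
  rw [abs_le]; constructor <;> linarith

/-- irrationality of a cone, adapted to its size -/
def IR (H : ℕ) (k : List Bool) : Prop := Irr (3 * (H : ℝ) ^ 3) (20 * H ^ 3 * dl (desc root k)) k

lemma sys_aux {H : ℕ} {k k' : List Bool} (irr' : IR H k')
    (hdl : dl (desc root k) ≤ dl (desc root k'))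
    {a b l a' b' l' : List Bool} (p1 : k <+: a) (q1 : k <+: b) (r1 : k <+: l) (p2 : k' <+: a') (q2 : k' <+: b')
    (r2 : k' <+: l') (p3 : sz a ≤ H) (q3 : sz b ≤ H) (r3 : sz l ≤ H) (p4 : sz a' ≤ H) (q4 : sz b' ≤ H)
    (r4 : sz l' ≤ H) (p5 : FF a' = FF a) (q5 : FF b' = FF b) (r5 : FF l' = FF l) :
    MM (zz a) (zz b) (zz a') (zz b') (zz l) = (dt (zz a) (zz b)) • zz l' := by
  have hH : 1 ≤ H := by have := pt_pos a; unfold sz at p3; omega
  have hH1 : (1 : ℝ) ≤ H := by exact_mod_cast hH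
  obtain ⟨n, hn⟩ : ∃ n, n = dt (zz a) (zz b) := ⟨_, rfl⟩
  obtain ⟨M, hM⟩ : ∃ M, M = MM (zz a) (zz b) (zz a') (zz b') := ⟨_, rfl⟩
  rw [← hn, ← hM]
  by_contra hne
  have hd : n • zz l' - M (zz l) ≠ 0 := fun h0 => hne (sub_eq_zero.mp h0).symm
  have hnb : |(n : ℝ)| ≤ (H : ℝ) ^ 2 := by rw [hn]; exact dt_bd_zz p3 q3
  have nl : nm (zz l) ≤ H := by rw [nm_zz]; exact_mod_cast r3
  have nl' : nm (zz l') ≤ H := by rw [nm_zz]; exact_mod_cast r4
  have hnm : nm (n • zz l' - M (zz l)) ≤ 3 * H ^ 3 := by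
    have e1 := nm_sub (n • zz l') (M (zz l))
    rw [nm_smul] at e1
    have e2 := MM_bd a b a' b' H p3 q3 p4 q4 (zz l)
    rw [← hM] at e2
    have e3 : |(n : ℝ)| * nm (zz l') ≤ H ^ 2 * H := mul_le_mul hnb nl' (nm_nonneg _) (by positivity)
    have e4 : 2 * (H : ℝ) ^ 2 * nm (zz l) ≤ 2 * H ^ 2 * H := mul_le_mul_of_nonneg_left nl (by positivity)
    calc nm (n • zz l' - M (zz l)) ≤ H ^ 2 * H + 2 * H ^ 2 * H := by linarith
      _ = 3 * H ^ 3 := by ring
  have h3 := irr' _ hd hnm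
  have c1 : |(dt (zz l) (zz b) : ℝ)| ≤ (H : ℝ) ^ 2 := dt_bd_zz r3 q3
  have c2 : |(dt (zz a) (zz l) : ℝ)| ≤ (H : ℝ) ^ 2 := dt_bd_zz p3 r3
  -- values
  have fl := F_linL r1 r3
  have fa := F_linL p1 p3
  have fb := F_linL q1 q3
  have fl' := F_linL r2 r4
  have fa' := F_linL p2 p4
  have fb' := F_linL q2 q4
  have pl := ell_pluck (desc root k) (zz a) (zz b) (zz l)
  have eM : ell (desc root k') (M (zz l)) = (dt (zz l) (zz b) : ℝ) * ell (desc root k') (zz a') +
      (dt (zz a) (zz l) : ℝ) * ell (desc root k') (zz b') := by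
    rw [hM, MM_apply]; unfold ell cu cv; push_cast; ring
  have eS : ell (desc root k') (n • zz l' - M (zz l)) = n * ell (desc root k') (zz l') -
      ell (desc root k') (M (zz l)) := by rw [ell_sub, ell_smul]
  rw [← hn] at pl
  set f := ell (desc root k) with hf
  set f' := ell (desc root k') with hf'
  set D := dl (desc root k) with hD
  set D' := dl (desc root k') with hD'
  have hD0 : 0 < D := dl_pos (valid_root.desc k)
  have hε : 2 * D * (H : ℝ) ≤ 2 * D' * H := by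
    apply mul_le_mul_of_nonneg_right _ (by positivity)
    linarith
  obtain ⟨ε, hεe⟩ : ∃ ε : ℝ, ε = 2 * D' * H := ⟨_, rfl⟩
  rw [← hεe] at fl' fa' fb' hε
  have hε0 : 0 ≤ ε := by have : 0 < D' := by linarith
                         rw [hεe]; positivity
  rw [r5] at fl'
  rw [p5] at fa'
  rw [q5] at fb'
  have dl' : |f' (zz l') - f (zz l)| ≤ 2 * ε := by
    have : f' (zz l') - f (zz l) = (FF l - f (zz l)) - (FF l - f' (zz l')) := by ring
    rw [this]; exact (abs_sub _ _).trans (by linarith)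
  have da' : |f' (zz a') - f (zz a)| ≤ 2 * ε := by
    have : f' (zz a') - f (zz a) = (FF a - f (zz a)) - (FF a - f' (zz a')) := by ring
    rw [this]; exact (abs_sub _ _).trans (by linarith)
  have db' : |f' (zz b') - f (zz b)| ≤ 2 * ε := by
    have : f' (zz b') - f (zz b) = (FF b - f (zz b)) - (FF b - f' (zz b')) := by ring
    rw [this]; exact (abs_sub _ _).trans (by linarith)
  have e1 : f' (n • zz l' - M (zz l)) = n * (f' (zz l') - f (zz l)) -
      (dt (zz l) (zz b) : ℝ) * (f' (zz a') - f (zz a)) - (dt (zz a) (zz l) : ℝ) * (f' (zz b') - f (zz b)) := by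
    rw [eS, eM]
    linear_combination -pl
  have e2 : |f' (n • zz l' - M (zz l))| ≤ 3 * (H ^ 2 * (2 * ε)) := by
    rw [e1]
    refine (abs_sub _ _).trans ?_
    have g1 := abs_sub ((n : ℝ) * (f' (zz l') - f (zz l))) ((dt (zz l) (zz b) : ℝ) * (f' (zz a') - f (zz a)))
    have g2 : |(n : ℝ) * (f' (zz l') - f (zz l))| ≤ H ^ 2 * (2 * ε) := by
      rw [abs_mul]; exact mul_le_mul hnb dl' (abs_nonneg _) (by positivity)
    have g3 : |(dt (zz l) (zz b) : ℝ) * (f' (zz a') - f (zz a))| ≤ H ^ 2 * (2 * ε) := by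
      rw [abs_mul]; exact mul_le_mul c1 da' (abs_nonneg _) (by positivity)
    have g4 : |(dt (zz a) (zz l) : ℝ) * (f' (zz b') - f (zz b))| ≤ H ^ 2 * (2 * ε) := by
      rw [abs_mul]; exact mul_le_mul c2 db' (abs_nonneg _) (by positivity)
    linarith
  have e3 : 3 * ((H : ℝ) ^ 2 * (2 * ε)) = 12 * H ^ 3 * D' := by rw [hεe]; ring
  have e4 : (0 : ℝ) ≤ H ^ 3 * D' := by have : 0 < D' := by linarith
                                       positivity
  linarith

lemma MM_comp (u1 u2 u1' u2' t : ℤ × ℤ) :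
    MM u1 u2 u1' u2' (MM u1' u2' u1 u2 t) = (dt u1 u2 * dt u1' u2') • t := by
  rw [MM_apply, MM_apply]
  unfold dt
  apply Prod.ext
  · simp only [Prod.smul_fst, smul_eq_mul]; ring
  · simp only [Prod.smul_snd, smul_eq_mul]; ring

/-- basic hypotheses on a relation between two cones -/
structure HypL (H : ℕ) (Λ : ℝ) (k k' : List Bool) (R : List Bool → List Bool → Prop) : Prop where
  hs : (10 : ℝ) ^ 20 * H ^ 20 ≤ Λ
  ha : Λ ≤ 4 * ((desc root k).a : ℝ) ^ 2
  hb : Λ ≤ 4 * ((desc root k).b : ℝ) ^ 2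
  ha' : Λ ≤ 4 * ((desc root k').a : ℝ) ^ 2
  hb' : Λ ≤ 4 * ((desc root k').b : ℝ) ^ 2
  irr : IR H k
  irr' : IR H k'
  rel : ∀ l l', R l l' → k <+: l ∧ k' <+: l' ∧ sz l ≤ H ∧ sz l' ≤ H ∧ FF l' = FF l

lemma HypL.symm {H : ℕ} {Λ : ℝ} {k k' : List Bool} {R : List Bool → List Bool → Prop} (h : HypL H Λ k k' R) :
    HypL H Λ k' k (fun a b => R b a) :=
  ⟨h.hs, h.ha', h.hb', h.ha, h.hb, h.irr', h.irr, fun l l' hr => by
    obtain ⟨h1, h2, h3, h4, h5⟩ := h.rel _ _ hr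
    exact ⟨h2, h1, h4, h3, h5.symm⟩⟩

lemma HypL.inj {H : ℕ} {Λ : ℝ} {k k' : List Bool} {R : List Bool → List Bool → Prop} (h : HypL H Λ k k' R)
    {a b c : List Bool} (h1 : R a c) (h2 : R b c) : a = b := by
  by_contra hne
  obtain ⟨p1, p2, p3, p4, p5⟩ := h.rel _ _ h1
  obtain ⟨q1, q2, q3, q4, q5⟩ := h.rel _ _ h2
  have l1 := F_linL p1 p3
  have l2 := F_linL q1 q3
  have hd : zz a - zz b ≠ 0 := by
    intro h0; exact hne (zz_inj (sub_eq_zero.mp h0))
  have hH : 1 ≤ H := by have := pt_pos a; unfold sz at p3; omega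
  have hH1 : (1 : ℝ) ≤ H := by exact_mod_cast hH
  have hH3 : (H : ℝ) ≤ H ^ 3 := by
    calc (H : ℝ) = H ^ 1 := (pow_one _).symm
      _ ≤ H ^ 3 := pow_le_pow_right₀ hH1 (by norm_num)
  have hn : nm (zz a - zz b) ≤ 3 * H ^ 3 := by
    have e1 := nm_sub (zz a) (zz b)
    rw [nm_zz, nm_zz] at e1
    have ra : (sz a : ℝ) ≤ H := by exact_mod_cast p3
    have rb : (sz b : ℝ) ≤ H := by exact_mod_cast q3
    linarith
  have h3 := h.irr _ hd hn
  rw [ell_sub] at h3
  have hD0 : 0 < dl (desc root k) := dl_pos (valid_root.desc k)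
  have h4 : |ell (desc root k) (zz a) - ell (desc root k) (zz b)| ≤ 2 * dl (desc root k) * H + 2 * dl (desc root k) * H := by
    have e : ell (desc root k) (zz a) - ell (desc root k) (zz b) =
      (FF b - ell (desc root k) (zz b)) - (FF a - ell (desc root k) (zz a)) := by
      rw [← p5, ← q5]; ring
    rw [e]
    exact (abs_sub _ _).trans (by linarith)
  have h5 : (H : ℝ) * dl (desc root k) ≤ H ^ 3 * dl (desc root k) := mul_le_mul_of_nonneg_right hH3 hD0.le
  have h6 : 0 ≤ (H : ℝ) ^ 3 * dl (desc root k) := by positivity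
  linarith

theorem HypL.sys {H : ℕ} {Λ : ℝ} {k k' : List Bool} {R : List Bool → List Bool → Prop} (h : HypL H Λ k k' R)
    {a b a' b' : List Bool} (ha : R a a') (hb : R b b') (hab : a ≠ b) :
    SysL H Λ (dt (zz a) (zz b)) (dt (zz a') (zz b')) (MM (zz a) (zz b) (zz a') (zz b')) k k' R := by
  obtain ⟨p1, p2, p3, p4, p5⟩ := h.rel _ _ ha
  obtain ⟨q1, q2, q3, q4, q5⟩ := h.rel _ _ hb
  have hab' : a' ≠ b' := by
    intro h0
    rw [← h0] at hb
    exact hab (h.inj ha hb)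
  have hn0 : dt (zz a) (zz b) ≠ 0 := fun h0 => hab (dt_zero h0)
  have hn0' : dt (zz a') (zz b') ≠ 0 := fun h0 => hab' (dt_zero h0)
  refine ⟨⟨hn0, hn0', dt_bd_zz p3 q3, dt_bd_zz p4 q4,
    MM_dd _ _ _ _, MM_bd a b a' b' H p3 q3 p4 q4⟩, h.hs, h.ha, h.hb, h.ha', h.hb', ?_⟩
  intro l l' hl
  obtain ⟨r1, r2, r3, r4, r5⟩ := h.rel _ _ hl
  refine ⟨r1, r2, r3, r4, r5, ?_⟩
  rcases le_total (dl (desc root k)) (dl (desc root k')) with hd | hd
  · exact sys_aux h.irr' hd p1 q1 r1 p2 q2 r2 p3 q3 r3 p4 q4 r4 p5 q5 r5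
  · have h1 := sys_aux h.irr hd p2 q2 r2 p1 q1 r1 p4 q4 r4 p3 q3 r3 p5.symm q5.symm r5.symm
    have h2 := MM_comp (zz a) (zz b) (zz a') (zz b') (zz l')
    rw [h1, map_zsmul] at h2
    have h3 : dt (zz a') (zz b') • MM (zz a) (zz b) (zz a') (zz b') (zz l) =
        dt (zz a') (zz b') • (dt (zz a) (zz b) • zz l') := by
      rw [h2, smul_smul, mul_comm]
    exact smul_right_injective _ hn0' h3

end

end Pool.Agent.TH880.MK
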