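import Mathlib
import Pool.Agent.TH880.MK.M4

set_option autoImplicit false

namespace Pool.Agent.TH880.MK

open Pool.Agent.H499R2

noncomputable section

/-! ### geometry of fans -/

/-- generator opposite to the side `b` -/
def gv : Bool → Nd → ℤ × ℤ
  | true, X => vv X
  | false, X => uu X

/-- its value -/
def gf : Bool → Nd → ℝ
  | true, X => be X
  | false, X => al X

/-- its Markov number -/
def gm : Bool → Nd → ℤ
  | true, X => X.b
  | false, X => X.a

lemma fan_gen (i : List Bool) (c : Bool) (m : ℕ) :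
    gv c (desc root (i ++ c :: List.replicate m (!c))) = zz i ∧
    gf c (desc root (i ++ c :: List.replicate m (!c))) = FF i ∧
    gm c (desc root (i ++ c :: List.replicate m (!c))) = (desc root i).c := by
  induction m with
  | zero =>
    have : i ++ c :: List.replicate 0 (!c) = i ++ [c] := rfl
    rw [this, desc_snoc]
    cases c <;> exact ⟨rfl, rfl, rfl⟩
  | succ m ih =>
    have : i ++ c :: List.replicate (m + 1) (!c) = (i ++ c :: List.replicate m (!c)) ++ [!c] := by
      rw [List.replicate_succ', List.append_assoc]; rfl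
    rw [this, desc_snoc]
    obtain ⟨h1, h2, h3⟩ := ih
    cases c
    · exact ⟨h1, h2, h3⟩
    · exact ⟨h1, h2, h3⟩

lemma ell_gen {Y : Nd} (h : Valid Y) (c : Bool) : ell (step Y c) (gv c Y) = gf c Y - df Y := by
  cases c
  · show ell (rt Y) (uu Y) = al Y - df Y
    rw [ell_rt]
    unfold ell
    have c1 : cu Y (uu Y) = 1 := by rw [cu_dt]; exact dt_uv h
    have c2 : cv Y (uu Y) = 0 := by rw [cv_dt]; exact dt_self _
    rw [c1, c2]; push_cast; ring
  · show ell (lf Y) (vv Y) = be Y - df Y
    rw [ell_lf]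
    unfold ell
    have c1 : cu Y (vv Y) = 0 := by rw [cu_dt]; exact dt_self _
    have c2 : cv Y (vv Y) = 1 := by rw [cv_dt]; exact dt_uv h
    rw [c1, c2]; push_cast; ring

lemma ell_mid {Y : Nd} (h : Valid Y) (c : Bool) : ell (step Y c) (vec Y) = ga Y := by
  have e3 : cu Y (vec Y) = 1 := by simpa [pt, desc] using (cu_vec h []).1
  have e4 : cv Y (vec Y) = 1 := by simpa [pt, desc] using (cu_vec h []).2
  cases c
  · show ell (rt Y) (vec Y) = ga Y
    unfold ell
    rw [cu_rt, cv_rt, e3, e4, al_rt]; push_cast; ring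
  · show ell (lf Y) (vec Y) = ga Y
    unfold ell
    rw [cu_lf, cv_lf, e3, e4, be_lf]; push_cast; ring

lemma dt_gv {Y : Nd} (h : Valid Y) (c : Bool) : dt (vec Y) (gv c Y) = (if c then 1 else -1) := by
  have hd := h.det
  cases c
  · show dt (vec Y) (uu Y) = -1
    unfold dt vec uu; simp only; linear_combination -hd
  · show dt (vec Y) (vv Y) = 1
    unfold dt vec vv; simp only; linear_combination hd

/-- value of the functional through two words of a side cone -/
lemma xi_side {B : ℕ} {f : List Bool} {c : Bool} {Λ : ℝ} (hΛ : 0 < Λ)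
    (ha : Λ ≤ 4 * ((desc root f).a : ℝ) ^ 2) (hb : Λ ≤ 4 * ((desc root f).b : ℝ) ^ 2)
    {A1 A2 : List Bool} (i1 : inC (desc root (f ++ [c])) (zz A1)) (i2 : inC (desc root (f ++ [c])) (zz A2))
    (s1 : sz A1 ≤ B) (s2 : sz A2 ≤ B) (hd : dt (zz A1) (zz A2) ≠ 0) (t : ℤ × ℤ) :
    |xi A1 A2 t - ell (step (desc root f) c) t| ≤ 4 * B ^ 2 * (dl (desc root f) / Λ) * nm t := by
  have hv := valid_root.desc f
  have hst : desc root (f ++ [c]) = step (desc root f) c := desc_snoc _ _ _
  have hdl : dl (step (desc root f) c) ≤ dl (desc root f) / Λ := by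
    cases c
    · exact dl_rt_leL hv hΛ hb
    · exact dl_lf_leL hv hΛ ha
  have hdl0 : 0 < dl (desc root f) := dl_pos hv
  have aux : ∀ A : List Bool, inC (desc root (f ++ [c])) (zz A) → sz A ≤ B →
      |FF A - ell (step (desc root f) c) (zz A)| ≤ 2 * (dl (desc root f) / Λ) * B := by
    intro A hA sA
    obtain ⟨h1, h2⟩ := F_closed (f ++ [c]) A hA
    rw [hst] at h1 h2
    have sA' : (sz A : ℝ) ≤ B := by exact_mod_cast sA
    have h3 : 2 * dl (step (desc root f) c) * sz A ≤ 2 * (dl (desc root f) / Λ) * B :=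
      mul_le_mul (by linarith) sA' (by positivity) (by positivity)
    have h4 : 0 ≤ 2 * (dl (desc root f) / Λ) * B := by positivity
    rw [abs_le]; constructor <;> linarith
  have h1 := lin_diff A1 A2 (FF A1) (FF A2) (ell (step (desc root f) c) (zz A1)) (ell (step (desc root f) c) (zz A2))
    (2 * (dl (desc root f) / Λ) * B) B s1 s2 hd (aux A1 i1 s1) (aux A2 i2 s2) t
  have h2 : lin (zz A1) (ell (step (desc root f) c) (zz A1)) (zz A2) (ell (step (desc root f) c) (zz A2)) t =
      ell (step (desc root f) c) t := by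
    unfold lin
    rw [ell_pluck, mul_div_assoc, mul_comm, div_mul_cancel₀]
    exact_mod_cast hd
  rw [h2] at h1
  have h3 : 2 * (B : ℝ) * (2 * (dl (desc root f) / Λ) * B) * nm t = 4 * B ^ 2 * (dl (desc root f) / Λ) * nm t := by ring
  rw [h3] at h1
  exact h1

lemma inC_anti {k i : List Bool} (h : k <+: i) {z : ℤ × ℤ} (hz : inC (desc root i) z) : inC (desc root k) z := by
  obtain ⟨t, rfl⟩ := h
  induction t using List.reverseRecOn with
  | nil => rwa [List.append_nil] at hz
  | append_singleton t b ih =>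
    apply ih
    rw [← List.append_assoc, desc_snoc] at hz
    obtain ⟨h1, h2⟩ := hz
    cases b
    · have h1' : 0 ≤ cu (rt (desc root (k ++ t))) z := h1
      have h2' : 0 ≤ cv (rt (desc root (k ++ t))) z := h2
      rw [cu_rt] at h1'
      rw [cv_rt] at h2'
      exact ⟨h1', by omega⟩
    · have h1' : 0 ≤ cu (lf (desc root (k ++ t))) z := h1
      have h2' : 0 ≤ cv (lf (desc root (k ++ t))) z := h2
      rw [cu_lf] at h1'
      rw [cv_lf] at h2'
      exact ⟨by omega, h2'⟩

lemma lin_sub (A : ℤ × ℤ) (fA : ℝ) (B : ℤ × ℤ) (fB : ℝ) (s t : ℤ × ℤ) :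
    lin A fA B fB (s - t) = lin A fA B fB s - lin A fA B fB t := by
  unfold lin
  rw [← sub_div]
  congr 1
  unfold dt
  simp only [Prod.fst_sub, Prod.snd_sub]
  push_cast
  ring

/-- decomposition of a word along a fan -/
lemma fan_dec (c : Bool) (t : List Bool) :
    (∃ m, t = List.replicate m (!c)) ∨ ∃ m t1, t = List.replicate m (!c) ++ c :: t1 := by
  induction t with
  | nil => left; exact ⟨0, rfl⟩
  | cons b t ih =>
    by_cases hb : b = c
    · right; exact ⟨0, t, by rw [hb]; rfl⟩
    · have hb' : b = !c := by cases b <;> cases c <;> simp_all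
      rcases ih with ⟨m, hm⟩ | ⟨m, t1, hm⟩
      · left; exact ⟨m + 1, by rw [hm, hb', List.replicate_succ]⟩
      · right; exact ⟨m + 1, t1, by rw [hm, hb', List.replicate_succ]; rfl⟩

/-- two words are determined by the values and by being neighbours -/
lemma identify2 {i f j f' : List Bool} (h1 : |dt (zz i) (zz f)| = 1) (h2 : |dt (zz j) (zz f')| = 1)
    (hlt : (desc root i).c < (desc root f).c) (hc : (desc root i).c = (desc root j).c)
    (hc1 : (desc root f).c = (desc root f').c) : f' = f ∧ j = i := by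
  have hi := neighbour h1 hlt
  have hj := neighbour h2 (by rw [← hc, ← hc1]; exact hlt)
  have e1 : (desc root i).c = (desc root f).a ∨ (desc root i).c = (desc root f).b := by
    rcases hi with h | h
    · left; exact h.2
    · right; exact h.2
  have e2 : (desc root i).c = (desc root f').a ∨ (desc root i).c = (desc root f').b := by
    rw [hc]
    rcases hj with h | h
    · left; exact h.2
    · right; exact h.2
  have hPh := Ph_eq (zvd f) (zvd f') hc1 e1 e2
  have hf : f = f' := Ph_inj' hPh
  refine ⟨hf.symm, ?_⟩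
  rw [← hf] at hj
  have hne := (zvd f).ne
  rcases hi with h | h <;> rcases hj with h' | h'
  · exact zz_inj (by rw [h.1, h'.1])
  · exfalso; apply hne; rw [← h.2, ← h'.2, hc]
  · exfalso; apply hne; rw [← h.2, ← h'.2, hc]
  · exact zz_inj (by rw [h.1, h'.1])

/-- the map cannot be scalar -/
lemma scalar_contra {H : ℕ} {Λ : ℝ} {n n' : ℤ} {M : (ℤ × ℤ) →+ (ℤ × ℤ)} {k k' : List Bool}
    {R : List Bool → List Bool → Prop} (S : SysL H Λ n n' M k k' R) (hne : ∀ l l', R l l' → l ≠ l')
    {a a' : List Bool} (hR : R a a') {i f : List Bool} (hd : dt (zz i) (zz f) ≠ 0)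
    (h1 : M (zz i) = n • zz i) (h2 : M (zz f) = n • zz f) : False := by
  have hn0 := S.mat.hn
  have hdd := S.mat.dd (zz i) (zz f)
  rw [h1, h2, dt_smul_left, dt_smul_right] at hdd
  have hnn' : n = n' := by
    have : n * (dt (zz i) (zz f) * n) = n * (dt (zz i) (zz f) * n') := by linear_combination hdd
    exact mul_left_cancel₀ hd (mul_left_cancel₀ hn0 this)
  obtain ⟨-, -, -, -, -, hr⟩ := S.rel _ _ hR
  apply hne _ _ hR
  have f1 := S.mat.dd (zz a) (zz i)
  have f2 := S.mat.dd (zz a) (zz f)
  rw [hr, h1, dt_smul_left, dt_smul_right, ← hnn'] at f1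
  rw [hr, h2, dt_smul_left, dt_smul_right, ← hnn'] at f2
  have f1' : dt (zz a') (zz i) = dt (zz a) (zz i) := by
    have : n * (n * dt (zz a') (zz i)) = n * (n * dt (zz a) (zz i)) := by rw [f1]; ring
    exact mul_left_cancel₀ hn0 (mul_left_cancel₀ hn0 this)
  have f2' : dt (zz a') (zz f) = dt (zz a) (zz f) := by
    have : n * (n * dt (zz a') (zz f)) = n * (n * dt (zz a) (zz f)) := by rw [f2]; ring
    exact mul_left_cancel₀ hn0 (mul_left_cancel₀ hn0 this)
  apply zz_inj
  have id1 : ∀ A B : ℤ × ℤ, dt (zz i) (zz f) * (A.1 - B.1) =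
      (zz i).1 * (dt A (zz f) - dt B (zz f)) - (zz f).1 * (dt A (zz i) - dt B (zz i)) := by
    intro A B; unfold dt; ring
  have id2 : ∀ A B : ℤ × ℤ, dt (zz i) (zz f) * (A.2 - B.2) =
      (zz i).2 * (dt A (zz f) - dt B (zz f)) - (zz f).2 * (dt A (zz i) - dt B (zz i)) := by
    intro A B; unfold dt; ring
  apply Prod.ext
  · have := id1 (zz a) (zz a')
    rw [f1', f2', sub_self, sub_self, mul_zero, mul_zero, sub_zero] at this
    rcases mul_eq_zero.mp this with h | h
    · exact absurd h hd
    · omega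
  · have := id2 (zz a) (zz a')
    rw [f1', f2', sub_self, sub_self, mul_zero, mul_zero, sub_zero] at this
    rcases mul_eq_zero.mp this with h | h
    · exact absurd h hd
    · omega

end

end Pool.Agent.TH880.MK
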