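import Mathlib
import Pool.Agent.TH880.MK.M5
import Pool.Agent.H499R2.Dens14

set_option autoImplicit false

namespace Pool.Agent.TH880.MK

open Pool.Agent.H499R2

noncomputable section

lemma sz_le_of_c {i j : List Bool} (h : (desc root i).c = (desc root j).c) : sz j ≤ 4 * sz i := by
  have h1 := (FF_size j).1
  have h2 := (FF_size i).2
  have h3 : FF i = FF j := by unfold FF ga; rw [h]
  have h4 : (sz j : ℝ) ≤ 4 * sz i := by linarith
  exact_mod_cast h4

lemma kappa_eq {n n' κ : ℤ} (hs : 0 < n * κ) (habs : |n| = |n'|) (h1 : |κ| < |n| → |n| < |n'|)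
    (h3 : |n| < |κ| → |n'| < |n|) : κ = n := by
  rcases lt_trichotomy |κ| |n| with h | h | h
  · have := h1 h; omega
  · rcases abs_eq_abs.mp h with h4 | h4
    · exact h4
    · exfalso
      rw [h4] at hs
      have : 0 ≤ n * n := mul_self_nonneg n
      have h5 : n * -n = - (n * n) := by ring
      omega
  · have := h3 h; omega

lemma par_gv {Y : Nd} (h : Valid Y) (c : Bool) {v : ℤ × ℤ} (hv : dt v (gv c Y) = 0) : ∃ x : ℤ, v = x • gv c Y := by
  obtain ⟨c1, c2⟩ := coord h v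
  cases c
  · have h1 : dt v (uu Y) = 0 := hv
    have h2 : cv Y v = 0 := by rw [cv_dt, dt_comm, h1]; rfl
    refine ⟨cu Y v, ?_⟩
    show v = cu Y v • uu Y
    rw [h2] at c1 c2
    apply Prod.ext
    · rw [Prod.smul_fst, smul_eq_mul]; show v.1 = cu Y v * Y.ux; linarith
    · rw [Prod.smul_snd, smul_eq_mul]; show v.2 = cu Y v * Y.uy; linarith
  · have h1 : dt v (vv Y) = 0 := hv
    have h2 : cu Y v = 0 := by rw [cu_dt]; exact h1
    refine ⟨cv Y v, ?_⟩
    show v = cv Y v • vv Y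
    rw [h2] at c1 c2
    apply Prod.ext
    · rw [Prod.smul_fst, smul_eq_mul]; show v.1 = cv Y v * Y.vx; linarith
    · rw [Prod.smul_snd, smul_eq_mul]; show v.2 = cv Y v * Y.vy; linarith

theorem fan_core {H : ℕ} {Λ : ℝ} {n n' : ℤ} {M : (ℤ × ℤ) →+ (ℤ × ℤ)} {k k' : List Bool}
    {R : List Bool → List Bool → Prop} (S : SysL H Λ n n' M k k' R) (hH : 1 ≤ H)
    {i1 j1 f f' : List Bool} {c c' : Bool} {m m' : ℕ} (hf : f = i1 ++ c :: List.replicate m (!c))
    (hf' : f' = j1 ++ c' :: List.replicate m' (!c')) (kf : k <+: f) (kf' : k' <+: f')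
    (M1 : M (zz i1) = n • zz j1) (C1 : (desc root i1).c = (desc root j1).c)
    {A1 A2 A1' A2' : List Bool} (I1 : inC (desc root (f ++ [c])) (zz A1)) (I2 : inC (desc root (f ++ [c])) (zz A2))
    (I1' : inC (desc root (f' ++ [c'])) (zz A1')) (I2' : inC (desc root (f' ++ [c'])) (zz A2'))
    (s1 : sz A1 ≤ 4 * H) (s2 : sz A2 ≤ 4 * H) (s3 : sz A1' ≤ 4 * H) (s4 : sz A2' ≤ 4 * H)
    (t1 : sz f ≤ 4 * H) (t2 : sz f' ≤ 4 * H) (t3 : sz i1 ≤ 4 * H) (t4 : sz j1 ≤ 4 * H)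
    (R1 : M (zz A1) = n • zz A1') (R2 : M (zz A2) = n • zz A2') (F1 : FF A1' = FF A1) (F2 : FF A2' = FF A2)
    (hd : dt (zz A1) (zz A2) ≠ 0) (hd' : dt (zz A1') (zz A2') ≠ 0)
    (hsg : n * dt (zz f') (zz j1) = n' * dt (zz f) (zz i1)) :
    M (zz f) = n • zz f' ∧ (desc root f).c = (desc root f').c := by
  have hΛ0 : 0 < Λ := lt_of_lt_of_le (by positivity) S.hs
  have hvY := valid_root.desc f
  have hvY' := valid_root.desc f'
  have zk := zvd k
  have zk' := zvd k'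
  have abf := ab_prefix kf
  have abf' := ab_prefix kf'
  have ya : Λ ≤ 4 * ((desc root f).a : ℝ) ^ 2 := sq4_mono zk.a1 abf.1 S.ha
  have yb : Λ ≤ 4 * ((desc root f).b : ℝ) ^ 2 := sq4_mono zk.b1 abf.2 S.hb
  have ya' : Λ ≤ 4 * ((desc root f').a : ℝ) ^ 2 := sq4_mono zk'.a1 abf'.1 S.ha'
  have yb' : Λ ≤ 4 * ((desc root f').b : ℝ) ^ 2 := sq4_mono zk'.b1 abf'.2 S.hb'
  obtain ⟨g1, g2, -⟩ := fan_gen i1 c m
  obtain ⟨g1', g2', -⟩ := fan_gen j1 c' m'
  rw [← hf] at g1 g2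
  rw [← hf'] at g1' g2'
  have hH1 : (1 : ℝ) ≤ H := by exact_mod_cast hH
  have X1 := fun t => xi_side (B := 4 * H) hΛ0 ya yb I1 I2 s1 s2 hd t
  have X2 := fun t => xi_side (B := 4 * H) hΛ0 ya' yb' I1' I2' s3 s4 hd' t
  have tr := fun t => (xi_trans S.mat A1 A2 A1' A2' R1 R2 F1 F2 hd t).1
  have hn0 : n ≠ 0 := S.mat.hn
  have hnr : (n : ℝ) ≠ 0 := by exact_mod_cast hn0
  -- the generator
  have w1 := X1 (zz i1)
  have w2 := X2 (zz j1)
  rw [← g1, ell_gen hvY, g2, g1] at w1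
  rw [← g1', ell_gen hvY', g2', g1'] at w2
  have hFF : FF i1 = FF j1 := by unfold FF ga; rw [C1]
  have hxw : xi A1 A2 (zz i1) = xi A1' A2' (zz j1) := by
    have h1 := tr (zz i1)
    rw [M1] at h1
    have h2 : xi A1' A2' (n • zz j1) = n * xi A1' A2' (zz j1) := lin_smul _ _ _ _ _ _
    rw [h2] at h1
    exact mul_left_cancel₀ hnr h1
  rw [hxw, hFF] at w1
  -- the middle vectors
  have r1 := X1 (zz f)
  have r2 := X2 (zz f')
  have e1 : ell (step (desc root f) c) (zz f) = ga (desc root f) := ell_mid hvY c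
  have e2 : ell (step (desc root f') c') (zz f') = ga (desc root f') := ell_mid hvY' c'
  rw [e1] at r1
  rw [e2] at r2
  rw [nm_zz] at w1 w2 r1 r2
  set D := dl (desc root f) with hD
  set D' := dl (desc root f') with hD'
  have hD0 : 0 < D := dl_pos hvY
  have hD0' : 0 < D' := dl_pos hvY'
  have bnd : ∀ (x : ℕ) (d : ℝ), 0 < d → x ≤ 4 * H → 4 * ((4 * H : ℕ) : ℝ) ^ 2 * (d / Λ) * x ≤ 256 * H ^ 3 / Λ * d := by
    intro x d hd0 hx
    have hx' : (x : ℝ) ≤ 4 * H := by exact_mod_cast hx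
    calc 4 * ((4 * H : ℕ) : ℝ) ^ 2 * (d / Λ) * x ≤ 4 * ((4 * H : ℕ) : ℝ) ^ 2 * (d / Λ) * (4 * H) :=
          mul_le_mul_of_nonneg_left hx' (by positivity)
      _ = 256 * H ^ 3 / Λ * d := by push_cast; ring
  obtain ⟨E, hE⟩ : ∃ E : ℝ, E = 256 * (H : ℝ) ^ 3 / Λ := ⟨_, rfl⟩
  have hE0 : 0 < E := by rw [hE]; positivity
  have w1' := w1.trans (bnd _ _ hD0 t3)
  have w2' := w2.trans (bnd _ _ hD0' t4)
  have r1' := r1.trans (bnd _ _ hD0 t1)
  have r2' := r2.trans (bnd _ _ hD0' t2)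
  rw [← hE] at w1' w2' r1' r2'
  set x := df (desc root f) with hx
  set y := df (desc root f') with hy
  have hx0 : 0 < x := df_pos hvY
  have hy0 : 0 < y := df_pos hvY'
  have hDx : D ≤ 25 * x := by have := df_lower hvY; linarith
  have hDy : D' ≤ 25 * y := by have := df_lower hvY'; linarith
  have hxy : |x - y| ≤ E * D + E * D' := by
    have : x - y = (xi A1' A2' (zz j1) - (FF j1 - x)) - (xi A1' A2' (zz j1) - (FF j1 - y)) := by ring
    rw [this]
    exact (abs_sub _ _).trans (by linarith)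
  -- smallness
  have hsm : E * H ^ 2 ≤ 1 / 10 ^ 10 := by
    have h1 : E * H ^ 2 = 256 * H ^ 5 / Λ := by rw [hE]; ring
    rw [h1, div_le_div_iff₀ hΛ0 (by norm_num), one_mul]
    have h2 : (H : ℝ) ^ 5 ≤ H ^ 20 := pow_le_pow_right₀ hH1 (by norm_num)
    have h3 := S.hs
    have h4 : (0 : ℝ) < H ^ 5 := by positivity
    nlinarith
  have hH2 : (1 : ℝ) ≤ H ^ 2 := one_le_pow₀ hH1
  have hEs : E ≤ 1 / 10 ^ 10 := by
    have : E ≤ E * H ^ 2 := le_mul_of_one_le_right hE0.le hH2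
    linarith
  have hxy2 : |x - y| ≤ 75 * E * y := by
    have h1 : |x - y| ≤ 25 * E * (x + y) := by
      have a1 := mul_le_mul_of_nonneg_left hDx hE0.le
      have a2 := mul_le_mul_of_nonneg_left hDy hE0.le
      linarith
    have h2 : x ≤ 2 * y := by
      have h3 := (abs_le.mp h1).2
      have h4 : 25 * E * (x + y) ≤ 1 / 10 * (x + y) := mul_le_mul_of_nonneg_right (by linarith) (by linarith)
      linarith
    have h5 : 25 * E * (x + y) ≤ 25 * E * (3 * y) := mul_le_mul_of_nonneg_left (by linarith) (by positivity)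
    linarith
  have hlog := log_close hx0 hy0 (by linarith) hxy2
  have h16 : (16 : ℝ) ≤ Λ := le_trans (by nlinarith [one_le_pow₀ hH1 (n := 20)]) S.hs
  have sY := df_sharpL hvY h16 ya yb
  have sY' := df_sharpL hvY' h16 ya' yb'
  have hΛE : 8 / Λ ≤ E := by
    rw [hE]
    apply div_le_div_of_nonneg_right _ hΛ0.le
    have : (1 : ℝ) ≤ H ^ 3 := one_le_pow₀ hH1
    linarith
  have hga : |ga (desc root f) - ga (desc root f')| ≤ 76 * E := by
    rw [abs_le] at hlog sY sY' ⊢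
    constructor <;> linarith [hlog.1, hlog.2, sY.1, sY.2, sY'.1, sY'.2]
  -- the vector `v`
  have hM1 := S.mat.dd (zz f) (zz i1)
  rw [M1, dt_smul_right] at hM1
  have hv1 : dt (M (zz f)) (zz j1) = n' * dt (zz f) (zz i1) := mul_left_cancel₀ hn0 (by linarith)
  have hv2 : dt (M (zz f) - n • zz f') (zz j1) = 0 := by
    have : dt (M (zz f) - n • zz f') (zz j1) = dt (M (zz f)) (zz j1) - n * dt (zz f') (zz j1) := by
      unfold dt; simp only [Prod.fst_sub, Prod.snd_sub, Prod.smul_fst, Prod.smul_snd, smul_eq_mul]; ring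
    rw [this, hv1, hsg]; ring
  rw [← g1'] at hv2
  obtain ⟨z, hz⟩ := par_gv hvY' c' hv2
  rw [g1'] at hz
  have hxv : xi A1' A2' (M (zz f) - n • zz f') = n * xi A1 A2 (zz f) - n * xi A1' A2' (zz f') := by
    have h1 : xi A1' A2' (M (zz f) - n • zz f') = xi A1' A2' (M (zz f)) - xi A1' A2' (n • zz f') := lin_sub _ _ _ _ _ _
    have h2 : xi A1' A2' (n • zz f') = n * xi A1' A2' (zz f') := lin_smul _ _ _ _ _ _
    rw [h1, h2, ← tr]
  rw [hz] at hxv
  have hxz : xi A1' A2' (z • zz j1) = z * xi A1' A2' (zz j1) := lin_smul _ _ _ _ _ _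
  rw [hxz] at hxv
  have hD1 : D ≤ 1 := dl_le_one hvY
  have hD1' : D' ≤ 1 := dl_le_one hvY'
  have hyD : y ≤ D' := df_le_dl hvY'
  have hDs : D' ≤ 4 / Λ := by
    have hb1 := hvY'.mt.hb
    have ha1 := hvY'.mt.ha
    have : D' = 1 / (((desc root f').a : ℝ) ^ 2 * ((desc root f').b : ℝ) ^ 2) := rfl
    rw [this, div_le_div_iff₀ (by positivity) hΛ0, one_mul]
    have h1 : (1 : ℝ) ≤ ((desc root f').b : ℝ) ^ 2 := one_le_pow₀ hb1
    have h2 : ((desc root f').a : ℝ) ^ 2 ≤ ((desc root f').a : ℝ) ^ 2 * ((desc root f').b : ℝ) ^ 2 :=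
      le_mul_of_one_le_right (by positivity) h1
    linarith
  have hys : y ≤ 1 / 10 := by
    have h1 : 4 / Λ ≤ 8 / Λ := div_le_div_of_nonneg_right (by norm_num) hΛ0.le
    linarith
  have hFj : 3 / 4 ≤ FF j1 := ga_lower (valid_root.desc j1)
  have hED : E * D ≤ E := by
    calc E * D ≤ E * 1 := mul_le_mul_of_nonneg_left hD1 hE0.le
      _ = E := mul_one E
  have hED' : E * D' ≤ E := by
    calc E * D' ≤ E * 1 := mul_le_mul_of_nonneg_left hD1' hE0.le
      _ = E := mul_one E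
  have hlow : 1 / 2 ≤ xi A1' A2' (zz j1) := by
    have := (abs_le.mp w2').1
    linarith
  have hup : |(n : ℝ) * xi A1 A2 (zz f) - n * xi A1' A2' (zz f')| ≤ H ^ 2 * (78 * E) := by
    rw [← mul_sub, abs_mul]
    apply mul_le_mul S.mat.bn _ (abs_nonneg _) (by positivity)
    rw [abs_le] at r1' r2' hga ⊢
    constructor <;> linarith [r1'.1, r1'.2, r2'.1, r2'.2, hga.1, hga.2]
  have hz0 : z = 0 := by
    by_contra hne
    have h1 : (1 : ℝ) ≤ |(z : ℝ)| := by
      have := Int.one_le_abs hne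
      exact_mod_cast this
    rw [← hxv, abs_mul, abs_of_pos (by linarith : 0 < xi A1' A2' (zz j1))] at hup
    have h2 : 1 * (1 / 2) ≤ |(z : ℝ)| * xi A1' A2' (zz j1) := mul_le_mul h1 hlow (by norm_num) (abs_nonneg _)
    have h3 : (H : ℝ) ^ 2 * (78 * E) = 78 * (E * H ^ 2) := by ring
    rw [h3] at hup
    linarith
  rw [hz0, zero_smul] at hz
  have hMf : M (zz f) = n • zz f' := sub_eq_zero.mp hz
  refine ⟨hMf, ?_⟩
  have hxr : xi A1 A2 (zz f) = xi A1' A2' (zz f') := by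
    have h1 := tr (zz f)
    rw [hMf] at h1
    have h2 : xi A1' A2' (n • zz f') = n * xi A1' A2' (zz f') := lin_smul _ _ _ _ _ _
    rw [h2] at h1
    exact mul_left_cancel₀ hnr h1
  apply c_eq hvY hvY' E hE0.le (by linarith)
  rw [hxr] at r1'
  have : ga (desc root f) - ga (desc root f') = (xi A1' A2' (zz f') - ga (desc root f')) -
      (xi A1' A2' (zz f') - ga (desc root f)) := by ring
  rw [this]
  refine (abs_sub _ _).trans ?_
  rw [mul_add]
  linarith

end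

end Pool.Agent.TH880.MK
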