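import Mathlib
import Pool.Agent.TH880.MK.M6

set_option autoImplicit false

namespace Pool.Agent.TH880.MK

open Pool.Agent.H499R2

noncomputable section

lemma interior_mid {X : Nd} (hv : Valid X) {x y z : List Bool} (hx : inC X (zz x)) (hz : inC X (zz z))
    (h1 : 0 < dt (zz x) (zz y)) (h2 : 0 < dt (zz y) (zz z)) : 0 < cu X (zz y) ∧ 0 < cv X (zz y) := by
  have h3 := dt_trans h1 h2
  have e1 : dt (zz x) (zz z) * cu X (zz y) = dt (zz y) (zz z) * cu X (zz x) + dt (zz x) (zz y) * cu X (zz z) := by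
    unfold dt cu; ring
  have e2 : dt (zz x) (zz z) * cv X (zz y) = dt (zz y) (zz z) * cv X (zz x) + dt (zz x) (zz y) * cv X (zz z) := by
    unfold dt cv; ring
  have e3 := dt_coord hv (zz x) (zz z)
  have f1 := mul_nonneg hx.2 hz.1
  have f2 : 0 < cu X (zz x) * cv X (zz z) := by omega
  have g1 : 0 < cu X (zz x) := by
    rcases lt_or_eq_of_le hx.1 with h | h
    · exact h
    · rw [← h] at f2; simp at f2
  have g2 : 0 < cv X (zz z) := by
    rcases lt_or_eq_of_le hz.2 with h | h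
    · exact h
    · rw [← h] at f2; simp at f2
  have k1 := mul_pos h2 g1
  have k2 := mul_nonneg h1.le hz.1
  have k3 := mul_nonneg h2.le hx.2
  have k4 := mul_pos h1 g2
  constructor
  · have : 0 < dt (zz x) (zz z) * cu X (zz y) := by omega
    exact (mul_pos_iff_of_pos_left h3).mp this
  · have : 0 < dt (zz x) (zz z) * cv X (zz y) := by omega
    exact (mul_pos_iff_of_pos_left h3).mp this

/-- sign of a side -/
def sg (c : Bool) : ℤ := if c then 1 else -1

lemma sg_sq (c : Bool) : sg c * sg c = 1 := by cases c <;> simp [sg]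

lemma side_sg {i l : List Bool} {c : Bool} (h : i ++ [c] <+: l) : 0 < sg c * dt (zz l) (zz i) := by
  cases c
  · have := side_rt h
    rw [dt_comm] at this
    simp only [sg]
    simp only [Bool.false_eq_true, if_false]
    omega
  · have := side_lf h
    simp only [sg, if_true]
    omega

lemma fan_sg (i : List Bool) (c : Bool) (m : ℕ) :
    dt (zz (i ++ c :: List.replicate m (!c))) (zz i) = sg c := by
  obtain ⟨g1, -, -⟩ := fan_gen i c m
  have h := dt_gv (valid_root.desc (i ++ c :: List.replicate m (!c))) c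
  rw [g1] at h
  have e : zz (i ++ c :: List.replicate m (!c)) = vec (desc root (i ++ c :: List.replicate m (!c))) := rfl
  rw [e, h]
  unfold sg
  cases c <;> simp

lemma cons_prefix (i : List Bool) (c : Bool) (t : List Bool) : i ++ [c] <+: i ++ c :: t :=
  ⟨t, by simp⟩

theorem caseI {H : ℕ} {Λ : ℝ} {n n' : ℤ} {M : (ℤ × ℤ) →+ (ℤ × ℤ)} {k k' : List Bool}
    {R : List Bool → List Bool → Prop} (S : SysL H Λ n n' M k k' R) (hne : ∀ l l', R l l' → l ≠ l')
    (habs : |n| = |n'|) {i1 : List Bool} {c : Bool} {t : List Bool} (hk : k <+: i1)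
    (hB1 : Br R i1) (hB2 : Br R (i1 ++ c :: t)) : False := by
  obtain ⟨⟨α1, α1', α2, α2', hα, rα1, rα2, pα1, pα2⟩, ⟨β1, β1', β2, β2', hβ, rβ1, rβ2, pβ1, pβ2⟩⟩ := hB2
  obtain ⟨i2, hi2⟩ : ∃ i2, i2 = i1 ++ c :: t := ⟨_, rfl⟩
  rw [← hi2] at pα1 pα2 pβ1 pβ2
  have hp12 : i1 ++ [c] <+: i2 := by rw [hi2]; exact cons_prefix _ _ _
  have h12 : i1 <+: i2 := (List.prefix_append _ _).trans hp12
  obtain ⟨j2, κ2, N2, -, -, c3, -⟩ := node_matchL S (hk.trans h12) hα hβ rα1 rα2 rβ1 rβ2 pα1 pα2 pβ1 pβ2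
  have qα : i2 <+: α1 := (List.prefix_append _ _).trans pα1
  have qβ : i2 <+: β1 := (List.prefix_append _ _).trans pβ1
  have pα : i1 ++ [c] <+: α1 := hp12.trans qα
  have pβ : i1 ++ [c] <+: β1 := hp12.trans qβ
  have sα := side_lf pα1
  have sβ := side_rt pβ1
  have hαβ : α1 ≠ β1 := by
    intro h
    rw [h] at sα
    rw [dt_comm] at sα
    omega
  have hm1 : ∃ j1 κ1, NM H n n' M k' i1 j1 κ1 ∧ inC (desc root j1) (zz α1') ∧ inC (desc root j1) (zz β1') := by
    cases c
    · obtain ⟨⟨g1, g1', g2, g2', hg, rg1, rg2, pg1, pg2⟩, -⟩ := hB1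
      obtain ⟨j, κ, N, -, -, x, y⟩ := node_matchL S hk hg hαβ rg1 rg2 rα1 rβ1 pg1 pg2 pα pβ
      exact ⟨j, κ, N, x, y⟩
    · obtain ⟨-, ⟨g1, g1', g2, g2', hg, rg1, rg2, pg1, pg2⟩⟩ := hB1
      obtain ⟨j, κ, N, x, y, -, -⟩ := node_matchL S hk hαβ hg rα1 rβ1 rg1 rg2 pα pβ pg1 pg2
      exact ⟨j, κ, N, x, y⟩
  obtain ⟨j1, κ1, N1, d1, d2⟩ := hm1
  have hn0 := S.mat.hn
  have k1 := kappa_eq N1.sg habs N1.lt N1.gt
  have k2 := kappa_eq N2.sg habs N2.lt N2.gt
  have C1 := (N1.eq k1).2
  have C2 := (N2.eq k2).2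
  have M1 := N1.img
  have M2 := N2.img
  rw [k1] at M1
  rw [k2] at M2
  obtain ⟨qα1, qα2, qα3, qα4, qα5, qα6⟩ := S.rel _ _ rα1
  obtain ⟨qβ1, qβ2, qβ3, qβ4, qβ5, qβ6⟩ := S.rel _ _ rβ1
  have dα := rel_dt S.mat qα6 M2
  have dβ := rel_dt S.mat M2 qβ6
  have dij := rel_dt S.mat M2 M1
  have hH : 1 ≤ H := by have := pt_pos α1; unfold sz at qα3; omega
  -- interior
  have hpos : ∀ x y : ℤ, n * x = n' * y → 0 < y → 0 < n * n' → 0 < x := by
    intro x y h1 h2 h3
    have h4 : n ^ 2 * x = (n * n') * y := by linear_combination n * h1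
    have h5 : 0 < n ^ 2 * x := by rw [h4]; exact mul_pos h3 h2
    exact (mul_pos_iff_of_pos_left (by positivity)).mp h5
  have hneg : ∀ x y : ℤ, n * x = n' * y → 0 < y → n * n' < 0 → x < 0 := by
    intro x y h1 h2 h3
    have h4 : n ^ 2 * (-x) = (-(n * n')) * y := by linear_combination -n * h1
    have h5 : 0 < n ^ 2 * (-x) := by rw [h4]; exact mul_pos (by omega) h2
    have h6 : 0 < -x := (mul_pos_iff_of_pos_left (by positivity)).mp h5
    omega
  have hint : 0 < cu (desc root j1) (zz j2) ∧ 0 < cv (desc root j1) (zz j2) := by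
    rcases lt_or_gt_of_ne (mul_ne_zero S.mat.hn S.mat.hn') with h0 | h0
    · have a1 := hneg _ _ dα sα h0
      have a2 := hneg _ _ dβ sβ h0
      exact interior_mid (valid_root.desc j1) d2 d1 (by rw [dt_comm]; omega) (by rw [dt_comm]; omega)
    · exact interior_mid (valid_root.desc j1) d1 d2 (hpos _ _ dα sα h0) (hpos _ _ dβ sβ h0)
  obtain ⟨u, hu⟩ := interior_prefix hint.1 hint.2
  have sg1 := side_sg hp12
  have hj0 : dt (zz j2) (zz j1) ≠ 0 := by
    intro h
    rw [h, mul_zero] at dij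
    have h2 : dt (zz i2) (zz i1) ≠ 0 := by
      intro h3; rw [h3, mul_zero] at sg1; exact lt_irrefl _ sg1
    exact (mul_ne_zero S.mat.hn' h2) dij.symm
  cases u with
  | nil =>
    rw [List.append_nil] at hu
    rw [← hu, dt_self] at hj0
    exact hj0 rfl
  | cons c' t' =>
    have hp12' : j1 ++ [c'] <+: j2 := by rw [← hu]; exact cons_prefix _ _ _
    have sg2 := side_sg hp12'
    have hnn : n' = n ∨ n' = -n := by
      rcases abs_eq_abs.mp habs with h | h
      · left; exact h.symm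
      · right; omega
    have hsgn : n * sg c' = n' * sg c := by
      rcases hnn with h | h
      · rw [h] at dij ⊢
        have e : dt (zz j2) (zz j1) = dt (zz i2) (zz i1) := mul_left_cancel₀ hn0 dij
        rw [e] at sg2
        have : sg c' = sg c := by
          cases c <;> cases c' <;> simp only [sg, if_true, Bool.false_eq_true, if_false] at * <;> omega
        rw [this]
      · rw [h] at dij ⊢
        have e : dt (zz j2) (zz j1) = - dt (zz i2) (zz i1) := mul_left_cancel₀ hn0 (by rw [dij]; ring)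
        rw [e] at sg2
        have : sg c' = - sg c := by
          cases c <;> cases c' <;> simp only [sg, if_true, Bool.false_eq_true, if_false] at * <;> omega
        rw [this]; ring
    have habsd : |dt (zz j2) (zz j1)| = |dt (zz i2) (zz i1)| := by
      have h5 := congrArg abs dij
      rw [abs_mul, abs_mul, ← habs] at h5
      exact mul_left_cancel₀ (abs_ne_zero.mpr hn0) h5
    have hclt : (desc root i1).c < (desc root i2).c :=
      lt_of_lt_of_le (c_step i1 c) (c_mono hp12)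
    have adj : |dt (zz i2) (zz i1)| = 1 → False := by
      intro h1
      have h2 : |dt (zz j2) (zz j1)| = 1 := by rw [habsd, h1]
      rw [dt_comm, abs_neg] at h1 h2
      obtain ⟨e1, e2⟩ := identify2 h1 h2 hclt C1 C2
      rw [e1] at M2
      rw [e2] at M1
      refine scalar_contra S hne rα1 (i := i1) (f := i2) ?_ M1 M2
      intro h3; rw [h3] at h1; simp at h1
    have sgabs : ∀ b : Bool, |sg b| = 1 := by intro b; cases b <;> simp [sg]
    rcases fan_dec c t with ⟨m, hm⟩ | ⟨m, t1, hm⟩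
    · apply adj
      rw [hi2, hm, fan_sg]; exact sgabs c
    rcases fan_dec c' t' with ⟨m', hm'⟩ | ⟨m', t1', hm'⟩
    · apply adj
      rw [← habsd, ← hu, hm', fan_sg]; exact sgabs c'
    obtain ⟨f, hf⟩ : ∃ f, f = i1 ++ c :: List.replicate m (!c) := ⟨_, rfl⟩
    obtain ⟨f', hf'⟩ : ∃ f', f' = j1 ++ c' :: List.replicate m' (!c') := ⟨_, rfl⟩
    have hfi : f ++ [c] <+: i2 := ⟨t1, by rw [hi2, hm, hf]; simp⟩
    have hfj : f' ++ [c'] <+: j2 := ⟨t1', by rw [← hu, hm', hf']; simp⟩
    have hif : i1 ++ [c] <+: f := by rw [hf]; exact cons_prefix _ _ _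
    have hjf : j1 ++ [c'] <+: f' := by rw [hf']; exact cons_prefix _ _ _
    have szi2 : sz i2 ≤ H := (sz_prefix qβ).trans qβ3
    have szj2 : sz j2 ≤ 4 * H := (sz_le_of_c C2).trans (by omega)
    have szf : sz f ≤ sz i2 := sz_prefix ((List.prefix_append _ _).trans hfi)
    have szf' : sz f' ≤ sz j2 := sz_prefix ((List.prefix_append _ _).trans hfj)
    have szi1 : sz i1 ≤ sz i2 := sz_prefix h12
    have szj1 : sz j1 ≤ sz j2 := sz_prefix ((List.prefix_append _ _).trans hp12')
    have e1 : dt (zz f) (zz i1) = sg c := by rw [hf, fan_sg]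
    have e2 : dt (zz f') (zz j1) = sg c' := by rw [hf', fan_sg]
    obtain ⟨Mf, Cf⟩ := fan_core S hH hf hf' (hk.trans ((List.prefix_append _ _).trans hif))
      (N1.pre.trans ((List.prefix_append _ _).trans hjf)) M1 C1
      (A1 := i2) (A2 := β1) (A1' := j2) (A2' := β1')
      (inC_of_prefix hfi) (inC_of_prefix (hfi.trans qβ)) (inC_of_prefix hfj) (inC_anti hfj c3)
      (by omega) (by omega) szj2 (by omega) (by omega) (by omega) (by omega) (by omega)
      M2 qβ6 (by unfold FF ga; rw [C2]) qβ5 sβ.ne'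
      (by
        intro h
        rw [h, mul_zero] at dβ
        exact (mul_ne_zero S.mat.hn' sβ.ne') dβ.symm)
      (by rw [e1, e2]; exact hsgn)
    have h1 : |dt (zz i1) (zz f)| = 1 := by rw [dt_comm, abs_neg, e1]; exact sgabs c
    have h2 : |dt (zz j1) (zz f')| = 1 := by rw [dt_comm, abs_neg, e2]; exact sgabs c'
    have hlt : (desc root i1).c < (desc root f).c := lt_of_lt_of_le (c_step i1 c) (c_mono hif)
    obtain ⟨e3, e4⟩ := identify2 h1 h2 hlt C1 Cf
    rw [e3] at Mf
    rw [e4] at M1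
    refine scalar_contra S hne rα1 (i := i1) (f := f) ?_ M1 Mf
    intro h3; rw [h3] at h1; simp at h1

end

end Pool.Agent.TH880.MK
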