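import Mathlib
import Pool.Agent.TH880.MK.M7

set_option autoImplicit false

namespace Pool.Agent.TH880.MK

open Pool.Agent.H499R2

noncomputable section

/-! ### gaps -/

lemma ga_gap {X Y : Nd} (hX : 1 ≤ X.c) (h : 2 * X.c ≤ Y.c) : ga X + 1 / 4 ≤ ga Y := by
  have hx : (1 : ℝ) ≤ X.c := by exact_mod_cast hX
  have hy : 2 * (X.c : ℝ) ≤ Y.c := by exact_mod_cast h
  have h1 := lam_upper _ hx
  have h2 := lam_lower (Y.c : ℝ) (by linarith)
  have h3 := lam_pos _ hx
  have h4 : 5.2 / 3 * lam (X.c : ℝ) ≤ lam (Y.c : ℝ) := by linarith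
  have h5 : Real.log (5.2 / 3 * lam (X.c : ℝ)) ≤ Real.log (lam (Y.c : ℝ)) := Real.log_le_log (by positivity) h4
  rw [Real.log_mul (by norm_num) h3.ne'] at h5
  have h6 := Real.one_sub_inv_le_log_of_pos (show (0 : ℝ) < 5.2 / 3 by norm_num)
  have h7 : (1 / 4 : ℝ) ≤ 1 - (5.2 / 3)⁻¹ := by norm_num
  unfold ga g
  linarith

lemma c_double (l : List Bool) (b : Bool) : 2 * (desc root l).c ≤ (desc root (l ++ [b])).c := by
  have z := zvd l
  rw [desc_snoc]
  have h1 := z.a1
  have h2 := z.b1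
  have h3 := z.ac
  have h4 := z.bc
  have h5 := z.c5
  cases b
  · show 2 * (desc root l).c ≤ 3 * (desc root l).b * (desc root l).c - (desc root l).a
    nlinarith
  · show 2 * (desc root l).c ≤ 3 * (desc root l).a * (desc root l).c - (desc root l).b
    nlinarith

lemma prefix_gap {i l : List Bool} (h : i <+: l) (hne : i ≠ l) : FF i + 1 / 4 ≤ FF l := by
  obtain ⟨t, rfl⟩ := h
  cases t with
  | nil => exact absurd (by simp) hne
  | cons b t =>
    have h1 := c_double i b
    have h2 := c_mono (cons_prefix i b t)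
    have h3 := (zvd i).c5
    exact ga_gap (by omega) (by omega)

lemma same_uu {i l : List Bool} (h : uu (desc root i) = uu (desc root l)) : i = l ∨ 1 / 4 ≤ |FF i - FF l| := by
  have hi := valid_root.desc i
  have hl := valid_root.desc l
  have di := hi.det
  have dl' := hl.det
  have e1 : (desc root i).ux = (desc root l).ux := congrArg Prod.fst h
  have e2 : (desc root i).uy = (desc root l).uy := congrArg Prod.snd h
  -- coordinates of `zz l` in the cone `i`
  have c1 : cv (desc root i) (zz l) = 1 := by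
    show (desc root i).ux * ((desc root l).uy + (desc root l).vy) - (desc root i).uy * ((desc root l).ux + (desc root l).vx) = 1
    rw [e1, e2]; linear_combination dl'
  have c2 : cv (desc root l) (zz i) = 1 := by
    show (desc root l).ux * ((desc root i).uy + (desc root i).vy) - (desc root l).uy * ((desc root i).ux + (desc root i).vx) = 1
    rw [← e1, ← e2]; linear_combination di
  have c3 : cu (desc root i) (zz l) + cu (desc root l) (zz i) = 2 := by
    show ((desc root l).ux + (desc root l).vx) * (desc root i).vy - ((desc root l).uy + (desc root l).vy) * (desc root i).vx +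
      (((desc root i).ux + (desc root i).vx) * (desc root l).vy - ((desc root i).uy + (desc root i).vy) * (desc root l).vx) = 2
    have dl2 := dl'
    rw [← e1, ← e2] at dl2 ⊢
    linear_combination di + dl2
  by_cases hil : i = l
  · exact Or.inl hil
  right
  rcases lt_or_ge 0 (cu (desc root i) (zz l)) with h1 | h1
  · have hp := interior_prefix h1 (by omega)
    have := prefix_gap hp hil
    rw [abs_sub_comm]
    exact le_trans (by linarith) (le_abs_self _)
  · have hp : l <+: i := interior_prefix (by omega) (by omega)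
    have := prefix_gap hp (Ne.symm hil)
    exact le_trans (by linarith) (le_abs_self _)

lemma same_vv {i l : List Bool} (h : vv (desc root i) = vv (desc root l)) : i = l ∨ 1 / 4 ≤ |FF i - FF l| := by
  have hi := valid_root.desc i
  have hl := valid_root.desc l
  have di := hi.det
  have dl' := hl.det
  have e1 : (desc root i).vx = (desc root l).vx := congrArg Prod.fst h
  have e2 : (desc root i).vy = (desc root l).vy := congrArg Prod.snd h
  have c1 : cu (desc root i) (zz l) = 1 := by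
    show ((desc root l).ux + (desc root l).vx) * (desc root i).vy - ((desc root l).uy + (desc root l).vy) * (desc root i).vx = 1
    rw [e1, e2]; linear_combination dl'
  have c2 : cu (desc root l) (zz i) = 1 := by
    show ((desc root i).ux + (desc root i).vx) * (desc root l).vy - ((desc root i).uy + (desc root i).vy) * (desc root l).vx = 1
    rw [← e1, ← e2]; linear_combination di
  have c3 : cv (desc root i) (zz l) + cv (desc root l) (zz i) = 2 := by
    show (desc root i).ux * ((desc root l).uy + (desc root l).vy) - (desc root i).uy * ((desc root l).ux + (desc root l).vx) +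
      ((desc root l).ux * ((desc root i).uy + (desc root i).vy) - (desc root l).uy * ((desc root i).ux + (desc root i).vx)) = 2
    have dl2 := dl'
    rw [← e1, ← e2] at dl2 ⊢
    linear_combination di + dl2
  by_cases hil : i = l
  · exact Or.inl hil
  right
  rcases lt_or_ge 0 (cv (desc root i) (zz l)) with h1 | h1
  · have hp := interior_prefix (by omega) h1
    have := prefix_gap hp hil
    rw [abs_sub_comm]
    exact le_trans (by linarith) (le_abs_self _)
  · have hp : l <+: i := interior_prefix (by omega) (by omega)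
    have := prefix_gap hp (Ne.symm hil)
    exact le_trans (by linarith) (le_abs_self _)

/-! ### deep nodes -/

/-- a Markov number is large with respect to the cone `k` -/
def BigN (Λ : ℝ) (k : List Bool) (x : ℤ) : Prop := Λ / dl (desc root k) ≤ 4 * (x : ℝ) ^ 2

lemma mid_big {Λ : ℝ} {k i : List Bool} (ha : Λ ≤ 4 * ((desc root k).a : ℝ) ^ 2)
    (hb : Λ ≤ 4 * ((desc root k).b : ℝ) ^ 2) (h : k <+: i) (hne : i ≠ k) : BigN Λ k (desc root i).c := by
  obtain ⟨t, rfl⟩ := h
  cases t with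
  | nil => exact absurd (by simp) hne
  | cons b t =>
    have hp := cons_prefix k b t
    have h1 := ab_prefix hp
    have h2 := ab_prefix (List.prefix_append k (b :: t))
    rw [desc_snoc] at h1
    have hvi := valid_root.desc (k ++ b :: t)
    have hvk := valid_root.desc k
    have hcg := hvi.mt.c_ge
    have hkc := hvk.mt.c_ge
    have ka := hvk.mt.ha
    have kb := hvk.mt.hb
    have kc := hvk.mt.c_one
    set A := desc root (k ++ b :: t) with hA
    set K := desc root k with hK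
    have r1 : (K.a : ℝ) ≤ A.a := by exact_mod_cast h2.1
    have r2 : (K.b : ℝ) ≤ A.b := by exact_mod_cast h2.2
    have key : ∃ m : ℝ, Λ ≤ 4 * m ^ 2 ∧ 0 < m ∧ 2 * m * K.c ≤ A.c := by
      cases b
      · have h3 : K.c ≤ A.a := h1.1
        have r3 : (K.c : ℝ) ≤ A.a := by exact_mod_cast h3
        refine ⟨K.b, hb, by linarith, ?_⟩
        have : (K.c : ℝ) * K.b ≤ A.a * A.b := mul_le_mul r3 r2 (by linarith) (by linarith)
        nlinarith
      · have h3 : K.c ≤ A.b := h1.2
        have r3 : (K.c : ℝ) ≤ A.b := by exact_mod_cast h3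
        refine ⟨K.a, ha, by linarith, ?_⟩
        have : (K.a : ℝ) * K.c ≤ A.a * A.b := mul_le_mul r1 r3 (by linarith) (by linarith)
        nlinarith
    obtain ⟨m, hm1, hm0, hm2⟩ := key
    unfold BigN
    have hdl : dl K = 1 / ((K.a : ℝ) ^ 2 * (K.b : ℝ) ^ 2) := rfl
    rw [← hK, hdl, div_div_eq_mul_div, div_one]
    have e1 : (K.a : ℝ) ^ 2 * (K.b : ℝ) ^ 2 ≤ (K.c : ℝ) ^ 2 := by
      calc (K.a : ℝ) ^ 2 * (K.b : ℝ) ^ 2 ≤ (2 * K.a * K.b) ^ 2 := by
            have : 0 ≤ (K.a : ℝ) ^ 2 * (K.b : ℝ) ^ 2 := by positivity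
            nlinarith
        _ ≤ (K.c : ℝ) ^ 2 := pow_le_pow_left₀ (by positivity) hkc 2
    have e2 : (2 * m * K.c) ^ 2 ≤ (A.c : ℝ) ^ 2 := pow_le_pow_left₀ (by positivity) hm2 2
    calc Λ * ((K.a : ℝ) ^ 2 * (K.b : ℝ) ^ 2) ≤ (4 * m ^ 2) * (K.c : ℝ) ^ 2 :=
          mul_le_mul hm1 e1 (by positivity) (by positivity)
      _ = (2 * m * K.c) ^ 2 := by ring
      _ ≤ (A.c : ℝ) ^ 2 := e2
      _ ≤ 4 * (A.c : ℝ) ^ 2 := by have : 0 ≤ (A.c : ℝ) ^ 2 := by positivity
                                  linarith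

lemma deep {Λ : ℝ} {k i : List Bool} (ha : Λ ≤ 4 * ((desc root k).a : ℝ) ^ 2)
    (hb : Λ ≤ 4 * ((desc root k).b : ℝ) ^ 2) (h : k <+: i) :
    (uu (desc root i) = uu (desc root k) ∨ uu (desc root i) = zz k ∨ BigN Λ k (desc root i).a) ∧
    (vv (desc root i) = vv (desc root k) ∨ vv (desc root i) = zz k ∨ BigN Λ k (desc root i).b) := by
  obtain ⟨t, rfl⟩ := h
  induction t using List.reverseRecOn with
  | nil => rw [List.append_nil]; exact ⟨Or.inl rfl, Or.inl rfl⟩
  | append_singleton t b ih =>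
    rw [← List.append_assoc, desc_snoc]
    have hz : vec (desc root (k ++ t)) = zz k ∨ BigN Λ k (desc root (k ++ t)).c := by
      by_cases ht : k ++ t = k
      · left; rw [ht]; rfl
      · right; exact mid_big ha hb (List.prefix_append _ _) ht
    cases b
    · refine ⟨?_, ih.2⟩
      rcases hz with hz | hz
      · right; left; exact hz
      · right; right; exact hz
    · refine ⟨ih.1, ?_⟩
      rcases hz with hz | hz
      · right; left; exact hz
      · right; right; exact hz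

/-! ### branching nodes -/

lemma br_node {H : ℕ} {Λ : ℝ} {n n' : ℤ} {M : (ℤ × ℤ) →+ (ℤ × ℤ)} {k k' : List Bool}
    {R : List Bool → List Bool → Prop} (S : SysL H Λ n n' M k k' R) {i : List Bool} (hki : k <+: i) (hB : Br R i) :
    ∃ (j : List Bool) (κ : ℤ), NM H n n' M k' i j κ ∧ sz i ≤ H ∧ sz j ≤ 2 * H := by
  obtain ⟨⟨a1, a1', a2, a2', hane, ra1, ra2, ia1, ia2⟩, ⟨b1, b1', b2, b2', hbne, rb1, rb2, ib1, ib2⟩⟩ := hB
  obtain ⟨j, κ, N, c1, c2, c3, c4⟩ := node_matchL S hki hane hbne ra1 ra2 rb1 rb2 ia1 ia2 ib1 ib2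
  obtain ⟨p1, p2, p3, p4, p5, p6⟩ := S.rel _ _ ra1
  obtain ⟨r1, r2, r3, r4, r5, r6⟩ := S.rel _ _ rb1
  refine ⟨j, κ, N, (sz_prefix ((List.prefix_append _ _).trans ia1)).trans p3, ?_⟩
  have hab : a1 ≠ b1 := by
    intro h
    have h1 := side_lf ia1
    have h2 := side_rt ib1
    rw [h] at h1
    rw [dt_comm] at h1
    omega
  have hab' : a1' ≠ b1' := by
    intro h
    have hd := rel_dt S.mat p6 r6
    rw [h, dt_self, mul_zero] at hd
    exact (mul_ne_zero S.mat.hn' (fun h0 => hab (dt_zero h0))) hd.symm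
  have hsz := sz_pq j
  rcases ne_dt hab' with h | h
  · have := sum_size (valid_root.desc j) a1' b1' c1 c3 h
    omega
  · have := sum_size (valid_root.desc j) b1' a1' c3 c1 h
    omega

/-- accuracy for two nodes with the same factor -/
lemma acc_two {H : ℕ} (hH : 1 ≤ H) {n n' : ℤ} {M : (ℤ × ℤ) →+ (ℤ × ℤ)} (hM : Mat H n n' M) {k' : List Bool}
    {i j i' j' : List Bool} {κ : ℤ} (N : NM H n n' M k' i j κ) (N' : NM H n n' M k' i' j' κ) (hκ : |κ| ≠ |n|)
    {Λ : ℝ} (hs : (10 : ℝ) ^ 20 * H ^ 20 ≤ Λ)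
    (h1 : Λ ≤ 4 * ((desc root i).a : ℝ) ^ 2) (h2 : Λ ≤ 4 * ((desc root i).b : ℝ) ^ 2)
    (h3 : Λ ≤ 4 * ((desc root j).a : ℝ) ^ 2) (h4 : Λ ≤ 4 * ((desc root j).b : ℝ) ^ 2)
    (h1' : Λ ≤ 4 * ((desc root i').a : ℝ) ^ 2) (h2' : Λ ≤ 4 * ((desc root i').b : ℝ) ^ 2)
    (h3' : Λ ≤ 4 * ((desc root j').a : ℝ) ^ 2) (h4' : Λ ≤ 4 * ((desc root j').b : ℝ) ^ 2) :
    |ga (desc root j) - ga (desc root j')| ≤ 20000 * H ^ 17 / Λ ∧
    |ga (desc root i) - ga (desc root i')| ≤ 20000 * H ^ 17 / Λ := by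
  have hΛ0 : 0 < Λ := lt_of_lt_of_le (by positivity) hs
  have hH1 : (1 : ℝ) ≤ H := by exact_mod_cast hH
  obtain ⟨A1, B1⟩ := N.acc Λ hs h1 h2 h3 h4
  obtain ⟨A2, B2⟩ := N'.acc Λ hs h1' h2' h3' h4'
  set G := ga (desc root j)
  set G' := ga (desc root j')
  set L := Real.log (((|n'| : ℤ) : ℝ) / ((|κ| : ℤ) : ℝ))
  set τ := 10600 * (H : ℝ) ^ 11 / Λ with hτ
  have hτ0 : 0 < τ := by positivity
  have hn1 : (1 : ℝ) ≤ |(n : ℝ)| := by
    have := Int.one_le_abs hM.hn
    exact_mod_cast this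
  have hn2 : |(n : ℝ)| ≤ (H : ℝ) ^ 2 := hM.bn
  have hκr : |(κ : ℝ)| ≤ (H : ℝ) ^ 4 := by
    have hk1 : |κ| ≤ |n * n'| := by
      have hd : |κ| ∣ |n * n'| := (abs_dvd_abs κ (n * n')).mpr N.dv
      exact Int.le_of_dvd (abs_pos.mpr (mul_ne_zero hM.hn hM.hn')) hd
    have hk2 : |(κ : ℝ)| ≤ |(n : ℝ)| * |(n' : ℝ)| := by
      rw [← abs_mul]; exact_mod_cast hk1
    have hk3 : |(n : ℝ)| * |(n' : ℝ)| ≤ (H : ℝ) ^ 2 * H ^ 2 := mul_le_mul hM.bn hM.bn' (abs_nonneg _) (by positivity)
    calc |(κ : ℝ)| ≤ (H : ℝ) ^ 2 * H ^ 2 := hk2.trans hk3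
      _ = H ^ 4 := by ring
  have hcastκ : ((|κ| : ℤ) : ℝ) = |(κ : ℝ)| := by push_cast; rfl
  have hcastn : ((|n| : ℤ) : ℝ) = |(n : ℝ)| := by push_cast; rfl
  rw [hcastκ, hcastn] at A1 A2
  set r := |(κ : ℝ)| / |(n : ℝ)| with hr
  have hr1 : 1 ≤ |1 - r| * |(n : ℝ)| := by
    have h5 : |1 - r| * |(n : ℝ)| = |(|(n : ℝ)| - |(κ : ℝ)|)| := by
      rw [← abs_of_nonneg (abs_nonneg (n : ℝ)), ← abs_mul, hr, abs_of_nonneg (abs_nonneg (n : ℝ))]
      congr 1; field_simp
    rw [h5]
    have h6 : (1 : ℤ) ≤ |(|n| - |κ|)| := Int.one_le_abs (sub_ne_zero.mpr (Ne.symm hκ))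
    have h7 : ((1 : ℤ) : ℝ) ≤ ((|(|n| - |κ|)| : ℤ) : ℝ) := by exact_mod_cast h6
    push_cast at h7
    exact h7
  have hd1 : |2 * (1 - r) * (G - G')| ≤ 2 * τ := by
    have : 2 * (1 - r) * (G - G') = (L - 2 * (1 - r) * G') - (L - 2 * (1 - r) * G) := by ring
    rw [this]
    exact (abs_sub _ _).trans (by linarith)
  have hd2 : |G - G'| ≤ τ * H ^ 2 := by
    rw [abs_mul, abs_mul, abs_two] at hd1
    have h5 : |1 - r| * |G - G'| ≤ τ := by linarith
    calc |G - G'| ≤ (|1 - r| * |(n : ℝ)|) * |G - G'| := le_mul_of_one_le_left (abs_nonneg _) hr1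
      _ = (|1 - r| * |G - G'|) * |(n : ℝ)| := by ring
      _ ≤ τ * H ^ 2 := mul_le_mul h5 hn2 (abs_nonneg _) hτ0.le
  have hr0 : 0 ≤ r := by positivity
  have hrH : r ≤ (H : ℝ) ^ 4 := (div_le_self (abs_nonneg _) hn1).trans hκr
  have e1 : τ * (H : ℝ) ^ 2 = 10600 * H ^ 13 / Λ := by rw [hτ]; ring
  have hpow : ∀ a : ℕ, a ≤ 17 → (H : ℝ) ^ a ≤ H ^ 17 := fun a ha => pow_le_pow_right₀ hH1 ha
  constructor
  · refine hd2.trans ?_
    rw [e1]
    apply div_le_div_of_nonneg_right _ hΛ0.le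
    have := hpow 13 (by norm_num)
    have : (0 : ℝ) ≤ H ^ 13 := by positivity
    linarith
  · have h5 : ga (desc root i) - ga (desc root i') = (ga (desc root i) - r * G) - (ga (desc root i') - r * G') + r * (G - G') := by ring
    rw [h5]
    refine (abs_add_le _ _).trans ?_
    have h6 := abs_sub (ga (desc root i) - r * G) (ga (desc root i') - r * G')
    have h7 : |r * (G - G')| ≤ H ^ 4 * (τ * H ^ 2) := by
      rw [abs_mul, abs_of_nonneg hr0]
      exact mul_le_mul hrH hd2 (abs_nonneg _) (by positivity)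
    have h8 : 32 * (H : ℝ) ^ 6 / Λ + 32 * H ^ 6 / Λ + H ^ 4 * (τ * H ^ 2) = (64 * H ^ 6 + 10600 * H ^ 17) / Λ := by
      rw [hτ]; ring
    have h9 : (64 * (H : ℝ) ^ 6 + 10600 * H ^ 17) / Λ ≤ 20000 * H ^ 17 / Λ := by
      apply div_le_div_of_nonneg_right _ hΛ0.le
      have := hpow 6 (by norm_num)
      have : (0 : ℝ) ≤ H ^ 17 := by positivity
      linarith
    linarith

lemma M_inj {H : ℕ} {n n' : ℤ} {M : (ℤ × ℤ) →+ (ℤ × ℤ)} (hM : Mat H n n' M) {s t : ℤ × ℤ} (h : M s = M t) : s = t := by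
  have h0 : M (s - t) = 0 := by rw [map_sub, h, sub_self]
  have key : ∀ w, dt (s - t) w = 0 := by
    intro w
    have h1 := hM.dd (s - t) w
    rw [h0] at h1
    have h2 : dt (0 : ℤ × ℤ) (M w) = 0 := by unfold dt; simp
    rw [h2] at h1
    rcases mul_eq_zero.mp h1.symm with h3 | h3
    · exact absurd h3 (mul_ne_zero hM.hn hM.hn')
    · exact h3
  have k1 := key (0, 1)
  have k2 := key (1, 0)
  unfold dt at k1 k2
  simp only [Prod.fst_sub, Prod.snd_sub] at k1 k2
  apply Prod.ext <;> omega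

end

end Pool.Agent.TH880.MK
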