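import Mathlib
import Pool.Agent.TH880.MK.M8

set_option autoImplicit false

namespace Pool.Agent.TH880.MK

open Pool.Agent.H499R2

noncomputable section

lemma meet (s : List Bool) : ∀ (k t : List Bool), ¬ k ++ s <+: k ++ t → ¬ k ++ t <+: k ++ s →
    ∃ m b, k <+: m ∧ m ++ [b] <+: k ++ s ∧ m ++ [!b] <+: k ++ t := by
  induction s with
  | nil => intro k t h1 _; exact absurd (by simp) h1
  | cons b s ih =>
    intro k t h1 h2
    cases t with
    | nil => exact absurd (by simp) h2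
    | cons c t =>
      by_cases hbc : b = c
      · subst hbc
        have e1 : k ++ b :: s = (k ++ [b]) ++ s := by simp
        have e2 : k ++ b :: t = (k ++ [b]) ++ t := by simp
        rw [e1, e2] at h1 h2 ⊢
        obtain ⟨m, d, h3, h4, h5⟩ := ih (k ++ [b]) t h1 h2
        exact ⟨m, d, (List.prefix_append k [b]).trans h3, h4, h5⟩
      · have hc : c = !b := by cases b <;> cases c <;> simp_all
        exact ⟨k, b, List.prefix_refl k, cons_prefix _ _ _, by rw [hc]; exact cons_prefix _ _ _⟩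

lemma br_meet {R : List Bool → List Bool → Prop} {m i l : List Bool} {b : Bool} (hi : m ++ [b] <+: i)
    (hl : m ++ [!b] <+: l) (Bi : Br R i) (Bl : Br R l) : Br R m := by
  obtain ⟨⟨a1, a1', a2, a2', hane, ra1, ra2, ia1, ia2⟩, -⟩ := Bi
  obtain ⟨⟨b1, b1', b2, b2', hbne, rb1, rb2, ib1, ib2⟩, -⟩ := Bl
  have p1 := hi.trans ((List.prefix_append i [true]).trans ia1)
  have p2 := hi.trans ((List.prefix_append i [true]).trans ia2)
  have q1 := hl.trans ((List.prefix_append l [true]).trans ib1)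
  have q2 := hl.trans ((List.prefix_append l [true]).trans ib2)
  cases b
  · exact ⟨⟨b1, b1', b2, b2', hbne, rb1, rb2, q1, q2⟩, ⟨a1, a1', a2, a2', hane, ra1, ra2, p1, p2⟩⟩
  · exact ⟨⟨a1, a1', a2, a2', hane, ra1, ra2, p1, p2⟩, ⟨b1, b1', b2, b2', hbne, rb1, rb2, q1, q2⟩⟩

lemma caseI_card {H : ℕ} {Λ : ℝ} {n n' : ℤ} {M : (ℤ × ℤ) →+ (ℤ × ℤ)} {k k' : List Bool}
    {R : List Bool → List Bool → Prop} (S : SysL H Λ n n' M k k' R) (hne : ∀ l l', R l l' → l ≠ l')
    (habs : |n| = |n'|) (T : Finset (List Bool)) (hT : ∀ i ∈ T, k <+: i ∧ Br R i) : T.card ≤ 1 := by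
  have comp : ∀ i l, k <+: i → i <+: l → i ≠ l → Br R i → Br R l → False := by
    intro i l hk h h3 Bi Bl
    obtain ⟨t, rfl⟩ := h
    cases t with
    | nil => exact h3 (by simp)
    | cons c t => exact caseI S hne habs hk Bi Bl
  apply Finset.card_le_one.mpr
  intro i hi l hl
  by_contra hil
  obtain ⟨ki, Bi⟩ := hT i hi
  obtain ⟨kl, Bl⟩ := hT l hl
  by_cases h1 : i <+: l
  · exact comp i l ki h1 hil Bi Bl
  by_cases h2 : l <+: i
  · exact comp l i kl h2 (Ne.symm hil) Bl Bi
  obtain ⟨s, rfl⟩ := ki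
  obtain ⟨t, rfl⟩ := kl
  obtain ⟨m, b, h3, h4, h5⟩ := meet s k t h1 h2
  refine comp m (k ++ s) h3 ((List.prefix_append _ _).trans h4) ?_ (br_meet h4 h5 Bi Bl) Bi
  rintro rfl
  have := h4.length_le
  simp at this

/-- type of a pair of matched nodes -/
def ty (k k' i j : List Bool) : ℕ :=
  if uu (desc root i) = uu (desc root k) then 0
  else if uu (desc root i) = zz k then 1
  else if vv (desc root i) = vv (desc root k) then 2
  else if vv (desc root i) = zz k then 3
  else if uu (desc root j) = uu (desc root k') then 4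
  else if uu (desc root j) = zz k' then 5
  else if vv (desc root j) = vv (desc root k') then 6
  else if vv (desc root j) = zz k' then 7
  else 8

lemma ty_lt (k k' i j : List Bool) : ty k k' i j < 9 := by
  unfold ty; split_ifs <;> omega

lemma ty_spec (k k' i j : List Bool) :
    (ty k k' i j = 0 → uu (desc root i) = uu (desc root k)) ∧
    (ty k k' i j = 1 → uu (desc root i) = zz k) ∧
    (ty k k' i j = 2 → vv (desc root i) = vv (desc root k)) ∧
    (ty k k' i j = 3 → vv (desc root i) = zz k) ∧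
    (ty k k' i j = 4 → uu (desc root j) = uu (desc root k')) ∧
    (ty k k' i j = 5 → uu (desc root j) = zz k') ∧
    (ty k k' i j = 6 → vv (desc root j) = vv (desc root k')) ∧
    (ty k k' i j = 7 → vv (desc root j) = zz k') ∧
    (ty k k' i j = 8 → (uu (desc root i) ≠ uu (desc root k) ∧ uu (desc root i) ≠ zz k ∧
      vv (desc root i) ≠ vv (desc root k) ∧ vv (desc root i) ≠ zz k) ∧
      (uu (desc root j) ≠ uu (desc root k') ∧ uu (desc root j) ≠ zz k' ∧
      vv (desc root j) ≠ vv (desc root k') ∧ vv (desc root j) ≠ zz k')) := by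
  unfold ty
  split_ifs <;> refine ⟨?_, ?_, ?_, ?_, ?_, ?_, ?_, ?_, ?_⟩ <;> intro h <;>
    first
    | assumption
    | (exfalso; omega)
    | exact ⟨⟨by assumption, by assumption, by assumption, by assumption⟩,
        ⟨by assumption, by assumption, by assumption, by assumption⟩⟩

theorem same_node {H : ℕ} (hH : 2 ≤ H) {Λ : ℝ} {n n' : ℤ} {M : (ℤ × ℤ) →+ (ℤ × ℤ)} {k k' : List Bool}
    {R : List Bool → List Bool → Prop} (S : SysL H Λ n n' M k k' R) (irr : IR H k) (irr' : IR H k')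
    {i j i' j' : List Bool} {κ : ℤ} (N : NM H n n' M k' i j κ) (N' : NM H n n' M k' i' j' κ)
    (ki : k <+: i) (ki' : k <+: i') (hκ : |κ| ≠ |n|) (si : sz i ≤ H) (si' : sz i' ≤ H) (sj : sz j ≤ 2 * H)
    (sj' : sz j' ≤ 2 * H) (ht : ty k k' i j = ty k k' i' j') : i = i' := by
  have hH1 : 1 ≤ H := by omega
  have hHr : (2 : ℝ) ≤ H := by exact_mod_cast hH
  have hΛ0 : 0 < Λ := lt_of_lt_of_le (by positivity) S.hs
  have zk := zvd k
  have zk' := zvd k'
  have abi := ab_prefix ki
  have abi' := ab_prefix ki'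
  have abj := ab_prefix N.pre
  have abj' := ab_prefix N'.pre
  obtain ⟨hJ, hI⟩ := acc_two hH1 S.mat N N' hκ S.hs (sq4_mono zk.a1 abi.1 S.ha) (sq4_mono zk.b1 abi.2 S.hb)
    (sq4_mono zk'.a1 abj.1 S.ha') (sq4_mono zk'.b1 abj.2 S.hb')
    (sq4_mono zk.a1 abi'.1 S.ha) (sq4_mono zk.b1 abi'.2 S.hb)
    (sq4_mono zk'.a1 abj'.1 S.ha') (sq4_mono zk'.b1 abj'.2 S.hb')
  have hsm : 20000 * (H : ℝ) ^ 17 / Λ ≤ 1 / 10 := by
    rw [div_le_div_iff₀ hΛ0 (by norm_num)]
    have h2 : (H : ℝ) ^ 17 ≤ H ^ 20 := pow_le_pow_right₀ (by linarith) (by norm_num)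
    have h3 := S.hs
    have h4 : (0 : ℝ) < H ^ 17 := by positivity
    nlinarith
  have hI' : |FF i - FF i'| < 1 / 4 := lt_of_le_of_lt (hI.trans hsm) (by norm_num)
  have hJ' : |FF j - FF j'| < 1 / 4 := lt_of_le_of_lt (hJ.trans hsm) (by norm_num)
  have fin : j = j' → i = i' := by
    intro h
    apply zz_inj
    apply M_inj S.mat
    rw [N.img, N'.img, h]
  have byu : uu (desc root i) = uu (desc root i') → i = i' := by
    intro h
    rcases same_uu h with h1 | h1
    · exact h1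
    · exfalso; linarith
  have byv : vv (desc root i) = vv (desc root i') → i = i' := by
    intro h
    rcases same_vv h with h1 | h1
    · exact h1
    · exfalso; linarith
  have byu' : uu (desc root j) = uu (desc root j') → i = i' := by
    intro h
    rcases same_uu h with h1 | h1
    · exact fin h1
    · exfalso; linarith
  have byv' : vv (desc root j) = vv (desc root j') → i = i' := by
    intro h
    rcases same_vv h with h1 | h1
    · exact fin h1
    · exfalso; linarith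
  obtain ⟨a0, a1, a2, a3, a4, a5, a6, a7, a8⟩ := ty_spec k k' i j
  obtain ⟨b0, b1, b2, b3, b4, b5, b6, b7, b8⟩ := ty_spec k k' i' j'
  have hlt := ty_lt k k' i j
  rw [← ht] at b0 b1 b2 b3 b4 b5 b6 b7 b8
  obtain ⟨τ, hτ⟩ : ∃ τ, τ = ty k k' i j := ⟨_, rfl⟩
  rw [← hτ] at a0 a1 a2 a3 a4 a5 a6 a7 a8 b0 b1 b2 b3 b4 b5 b6 b7 b8 hlt
  rcases (by omega : τ = 0 ∨ τ = 1 ∨ τ = 2 ∨ τ = 3 ∨ τ = 4 ∨ τ = 5 ∨ τ = 6 ∨ τ = 7 ∨ τ = 8) with
    h | h | h | h | h | h | h | h | h
  · exact byu ((a0 h).trans (b0 h).symm)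
  · exact byu ((a1 h).trans (b1 h).symm)
  · exact byv ((a2 h).trans (b2 h).symm)
  · exact byv ((a3 h).trans (b3 h).symm)
  · exact byu' ((a4 h).trans (b4 h).symm)
  · exact byu' ((a5 h).trans (b5 h).symm)
  · exact byv' ((a6 h).trans (b6 h).symm)
  · exact byv' ((a7 h).trans (b7 h).symm)
  · -- deep nodes
    obtain ⟨⟨p1, p2, p3, p4⟩, ⟨q1, q2, q3, q4⟩⟩ := a8 h
    obtain ⟨⟨r1, r2, r3, r4⟩, ⟨s1, s2, s3, s4⟩⟩ := b8 h
    have di := deep S.ha S.hb ki
    have di' := deep S.ha S.hb ki'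
    have dj := deep S.ha' S.hb' N.pre
    have dj' := deep S.ha' S.hb' N'.pre
    have ia := (di.1.resolve_left p1).resolve_left p2
    have ib := (di.2.resolve_left p3).resolve_left p4
    have ja := (dj.1.resolve_left q1).resolve_left q2
    have jb := (dj.2.resolve_left q3).resolve_left q4
    have ia' := (di'.1.resolve_left r1).resolve_left r2
    have ib' := (di'.2.resolve_left r3).resolve_left r4
    have ja' := (dj'.1.resolve_left s1).resolve_left s2
    have jb' := (dj'.2.resolve_left s3).resolve_left s4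
    unfold BigN at ia ib ja jb ia' ib' ja' jb'
    have hK0 : 0 < dl (desc root k) := dl_pos (valid_root.desc k)
    have hK0' : 0 < dl (desc root k') := dl_pos (valid_root.desc k')
    have hK1 : dl (desc root k) ≤ 1 := dl_le_one (valid_root.desc k)
    have hK1' : dl (desc root k') ≤ 1 := dl_le_one (valid_root.desc k')
    obtain ⟨D, hD⟩ : ∃ D, D = max (dl (desc root k)) (dl (desc root k')) := ⟨_, rfl⟩
    have hD1 : dl (desc root k) ≤ D := by rw [hD]; exact le_max_left _ _
    have hD2 : dl (desc root k') ≤ D := by rw [hD]; exact le_max_right _ _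
    have hD0 : 0 < D := lt_of_lt_of_le hK0 hD1
    have hDle : D ≤ 1 := by rw [hD]; exact max_le hK1 hK1'
    have l1 : Λ / D ≤ Λ / dl (desc root k) := div_le_div_of_nonneg_left hΛ0.le hK0 hD1
    have l2 : Λ / D ≤ Λ / dl (desc root k') := div_le_div_of_nonneg_left hΛ0.le hK0' hD2
    have hs' : (10 : ℝ) ^ 20 * H ^ 20 ≤ Λ / D := by
      rw [le_div_iff₀ hD0]
      calc (10 : ℝ) ^ 20 * H ^ 20 * D ≤ 10 ^ 20 * H ^ 20 * 1 := mul_le_mul_of_nonneg_left hDle (by positivity)
        _ ≤ Λ := by rw [mul_one]; exact S.hs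
    obtain ⟨gJ, gI⟩ := acc_two hH1 S.mat N N' hκ hs' (l1.trans ia) (l1.trans ib) (l2.trans ja) (l2.trans jb)
      (l1.trans ia') (l1.trans ib') (l2.trans ja') (l2.trans jb')
    have hDs : 20000 * (H : ℝ) ^ 17 / (Λ / D) ≤ 1 / 10 * D := by
      have : 20000 * (H : ℝ) ^ 17 / (Λ / D) = 20000 * (H : ℝ) ^ 17 / Λ * D := by field_simp
      rw [this]
      exact mul_le_mul_of_nonneg_right hsm hD0.le
    have gJ' : |FF j - FF j'| ≤ 1 / 10 * D := gJ.trans hDs
    have gI' : |FF i - FF i'| ≤ 1 / 10 * D := gI.trans hDs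
    have hH3 : 4 * (H : ℝ) ≤ H ^ 3 := by
      have : (4 : ℝ) ≤ H ^ 2 := by nlinarith
      calc 4 * (H : ℝ) ≤ H ^ 2 * H := mul_le_mul_of_nonneg_right this (by linarith)
        _ = H ^ 3 := by ring
    have hnmb : ∀ x y : List Bool, sz x ≤ 2 * H → sz y ≤ 2 * H → nm (zz x - zz y) ≤ 3 * (H : ℝ) ^ 3 := by
      intro x y hx hy
      have e1 := nm_sub (zz x) (zz y)
      rw [nm_zz, nm_zz] at e1
      have ra : (sz x : ℝ) ≤ 2 * H := by exact_mod_cast hx
      have rb : (sz y : ℝ) ≤ 2 * H := by exact_mod_cast hy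
      linarith
    have concl : ∀ (q x y : List Bool), IR H q → q <+: x → q <+: y → sz x ≤ 2 * H → sz y ≤ 2 * H →
        D = dl (desc root q) → |FF x - FF y| ≤ 1 / 10 * D → x = y := by
      intro q x y hq qx qy sx sy hDq hxy
      by_contra hne
      have hd : zz x - zz y ≠ 0 := by
        intro h0; exact hne (zz_inj (sub_eq_zero.mp h0))
      have h3 := hq _ hd (hnmb x y sx sy)
      rw [ell_sub, ← hDq] at h3
      have lx := F_linL (H := 2 * H) qx sx
      have ly := F_linL (H := 2 * H) qy sy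
      rw [← hDq] at lx ly
      push_cast at lx ly
      have h4 : |ell (desc root q) (zz x) - ell (desc root q) (zz y)| ≤ 1 / 10 * D + 8 * H * D := by
        have e : ell (desc root q) (zz x) - ell (desc root q) (zz y) =
          (FF x - FF y) - ((FF x - ell (desc root q) (zz x)) - (FF y - ell (desc root q) (zz y))) := by ring
        rw [e]
        refine (abs_sub _ _).trans ?_
        have := abs_sub (FF x - ell (desc root q) (zz x)) (FF y - ell (desc root q) (zz y))
        linarith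
      have h5 : 4 * (H : ℝ) * D ≤ H ^ 3 * D := mul_le_mul_of_nonneg_right hH3 hD0.le
      have h6 : 2 * D ≤ H * D := mul_le_mul_of_nonneg_right hHr hD0.le
      linarith
    rcases le_total (dl (desc root k)) (dl (desc root k')) with hle | hle
    · apply fin
      exact concl k' j j' irr' N.pre N'.pre sj sj' (by rw [hD, max_eq_right hle]) gJ'
    · exact concl k i i' irr ki ki' (by omega) (by omega) (by rw [hD, max_eq_left hle]) gI'

theorem br_card {H : ℕ} (hH : 2 ≤ H) {Λ : ℝ} {k k' : List Bool} {R : List Bool → List Bool → Prop}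
    (h : HypL H Λ k k' R) (hne : ∀ l l', R l l' → l ≠ l') (T : Finset (List Bool))
    (hT : ∀ i ∈ T, k <+: i ∧ Br R i) : ∃ N : ℕ, N ≠ 0 ∧ N ≤ H ^ 4 ∧ T.card ≤ 9 * N.divisors.card := by
  classical
  rcases T.eq_empty_or_nonempty with hemp | ⟨i0, hi0⟩
  · refine ⟨1, one_ne_zero, Nat.one_le_pow _ _ (by omega), ?_⟩
    rw [hemp]; simp
  obtain ⟨ki0, hB0⟩ := hT i0 hi0
  obtain ⟨⟨a1, a1', a2, a2', hane, ra1, ra2, -, -⟩, -⟩ := hB0
  have S := h.sys ra1 ra2 hane
  obtain ⟨n, hn⟩ : ∃ n, n = dt (zz a1) (zz a2) := ⟨_, rfl⟩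
  obtain ⟨n', hn'⟩ : ∃ n', n' = dt (zz a1') (zz a2') := ⟨_, rfl⟩
  obtain ⟨M, hM⟩ : ∃ M, M = MM (zz a1) (zz a2) (zz a1') (zz a2') := ⟨_, rfl⟩
  rw [← hn, ← hn', ← hM] at S
  have hnn : n * n' ≠ 0 := mul_ne_zero S.mat.hn S.mat.hn'
  have hN0 : (n * n').natAbs ≠ 0 := Int.natAbs_ne_zero.mpr hnn
  have hNle : (n * n').natAbs ≤ H ^ 4 := by
    have h1 : |(n : ℝ)| * |(n' : ℝ)| ≤ (H : ℝ) ^ 2 * H ^ 2 :=
      mul_le_mul S.mat.bn S.mat.bn' (abs_nonneg _) (by positivity)
    have h2 : (((n * n').natAbs : ℕ) : ℝ) = |(n : ℝ)| * |(n' : ℝ)| := by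
      rw [← abs_mul, Nat.cast_natAbs]; push_cast; rfl
    have h3 : (((n * n').natAbs : ℕ) : ℝ) ≤ ((H ^ 4 : ℕ) : ℝ) := by
      rw [h2]; push_cast; calc |(n : ℝ)| * |(n' : ℝ)| ≤ (H : ℝ) ^ 2 * H ^ 2 := h1
        _ = H ^ 4 := by ring
    exact_mod_cast h3
  have hdiv1 : 1 ≤ (n * n').natAbs.divisors.card := by
    rw [Nat.one_le_iff_ne_zero, ← Nat.pos_iff_ne_zero, Finset.card_pos]
    exact Nat.nonempty_divisors.mpr hN0
  refine ⟨(n * n').natAbs, hN0, hNle, ?_⟩
  by_cases habs : |n| = |n'|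
  · have := caseI_card S hne habs T hT
    omega
  have hch : ∀ i ∈ T, ∃ (j : List Bool) (κ : ℤ), NM H n n' M k' i j κ ∧ sz i ≤ H ∧ sz j ≤ 2 * H :=
    fun i hi => br_node S (hT i hi).1 (hT i hi).2
  choose! j κ hNM hsi hsj using hch
  have hκ : ∀ i ∈ T, |κ i| ≠ |n| := by
    intro i hi hc
    have N := hNM i hi
    apply habs
    have hkn : κ i = n := by
      rcases abs_eq_abs.mp hc with h4 | h4
      · exact h4
      · exfalso
        have hs := N.sg
        rw [h4] at hs
        have : 0 ≤ n * n := mul_self_nonneg n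
        have h5 : n * -n = - (n * n) := by ring
        omega
    exact (N.eq hkn).1.symm
  have hcard : T.card ≤ ((n * n').natAbs.divisors ×ˢ Finset.range 9).card := by
    apply Finset.card_le_card_of_injOn (fun i => ((κ i).natAbs, ty k k' i (j i)))
    · intro i hi
      have N := hNM i hi
      simp only [Finset.coe_product, Set.mem_prod, Finset.mem_coe, Nat.mem_divisors, Finset.mem_range]
      exact ⟨⟨Int.natAbs_dvd_natAbs.mpr N.dv, hN0⟩, ty_lt _ _ _ _⟩
    · intro i hi i' hi' heq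
      simp only [Prod.mk.injEq] at heq
      have N := hNM i hi
      have N' := hNM i' hi'
      have hkk : κ i' = κ i := by
        rcases Int.natAbs_eq_natAbs_iff.mp heq.1 with h4 | h4
        · exact h4.symm
        · exfalso
          have h5 := N.sg
          have h6 := N'.sg
          rw [h4] at h5
          have : n * -κ i' = - (n * κ i') := by ring
          omega
      rw [hkk] at N'
      exact same_node hH S h.irr h.irr' N N' (hT i hi).1 (hT i' hi').1 (hκ i hi) (hsi i hi) (hsi i' hi')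
        (hsj i hi) (hsj i' hi') heq.2
  rw [Finset.card_product, Finset.card_range] at hcard
  omega

end

end Pool.Agent.TH880.MK
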