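import Mathlib
import Pool.Agent.TH880.MK.M9
import Pool.Agent.H499R2.Dens11

set_option autoImplicit false

namespace Pool.Agent.TH880.MK

open Pool.Agent.H499R2

noncomputable section

lemma sz_child_ge {m : ℕ} {i : List Bool} (hp : m ≤ (desc root i).p) (hq : m ≤ (desc root i).q) (b : Bool) :
    sz i + m ≤ sz (i ++ [b]) := by
  rw [← sz_pq, ← sz_pq, desc_snoc]
  cases b
  · show (desc root i).p + (desc root i).q + m ≤ ((desc root i).p + (desc root i).q) + (desc root i).q
    omega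
  · show (desc root i).p + (desc root i).q + m ≤ (desc root i).p + ((desc root i).p + (desc root i).q)
    omega

open scoped Classical in
/-- the branching nodes of a finite set -/
def Bst (X : Finset (List Bool)) : Finset (List Bool) := (X.biUnion (fun l => l.inits.toFinset)).filter (BrF X)

lemma mem_Bst {X : Finset (List Bool)} {i : List Bool} (h : BrF X i) : i ∈ Bst X := by
  classical
  unfold Bst
  rw [Finset.mem_filter, Finset.mem_biUnion]
  refine ⟨?_, h⟩
  obtain ⟨a, b, hab, ha, hb, pa, pb⟩ := two_cnt h.1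
  exact ⟨a, ha, by rw [List.mem_toFinset, List.mem_inits]; exact (List.prefix_append _ _).trans pa⟩

lemma Bst_br {X : Finset (List Bool)} {i : List Bool} (h : i ∈ Bst X) : BrF X i := by
  classical
  unfold Bst at h
  rw [Finset.mem_filter] at h
  exact h.2

lemma cnt_zero_of_size {X : Finset (List Bool)} {H : ℕ} (hX : ∀ l ∈ X, sz l ≤ H) {i : List Bool} (h : H < sz i) :
    cnt X i = 0 := by
  unfold cnt
  rw [Finset.card_eq_zero, Finset.filter_eq_empty_iff]
  intro l hl hp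
  have := sz_prefix hp
  have := hX l hl
  omega

lemma chain_ind (X : Finset (List Bool)) (H m : ℕ) (hX : ∀ l ∈ X, sz l ≤ H) (k : List Bool)
    (hp : m ≤ (desc root k).p) (hq : m ≤ (desc root k).q) (n : ℕ) :
    ∀ i, k <+: i → H < sz i + m * (n + 1) → cnt X i ≤ 2 * (2 * cnt (Bst X) i + 1) * (n + 1) := by
  classical
  induction n with
  | zero =>
    intro i hki hi
    have hpq := pq_prefix hki
    have h1 := sz_child_ge (hp.trans hpq.1) (hq.trans hpq.2) true
    have h2 := sz_child_ge (hp.trans hpq.1) (hq.trans hpq.2) false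
    have z1 := cnt_zero_of_size hX (i := i ++ [true]) (by omega)
    have z2 := cnt_zero_of_size hX (i := i ++ [false]) (by omega)
    have hrec := cnt_rec X i
    have hle1 : (if i ∈ X then 1 else 0) ≤ 1 := by split_ifs <;> omega
    omega
  | succ n ih =>
    intro i hki hi
    have hpq := pq_prefix hki
    have h1 := sz_child_ge (hp.trans hpq.1) (hq.trans hpq.2) true
    have h2 := sz_child_ge (hp.trans hpq.1) (hq.trans hpq.2) false
    have hm : m * (n + 1 + 1) = m * (n + 1) + m := by ring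
    rw [hm] at hi
    have i1 := ih (i ++ [true]) (hki.trans (List.prefix_append _ _)) (by omega)
    have i2 := ih (i ++ [false]) (hki.trans (List.prefix_append _ _)) (by omega)
    have hrec := cnt_rec X i
    have hrecB := cnt_rec (Bst X) i
    have hle1 : (if i ∈ X then 1 else 0) ≤ 1 := by split_ifs <;> omega
    set gt := cnt (Bst X) (i ++ [true])
    set gf := cnt (Bst X) (i ++ [false])
    by_cases hbr : BrF X i
    · rw [if_pos (mem_Bst hbr)] at hrecB
      have h3 : cnt X i ≤ 1 + 2 * (2 * gt + 1) * (n + 1) + 2 * (2 * gf + 1) * (n + 1) := by omega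
      refine h3.trans ?_
      rw [hrecB]
      nlinarith [Nat.zero_le (gt * n), Nat.zero_le (gf * n)]
    · obtain ⟨b, hb⟩ := nonbr X i hbr
      have h4 : ∃ g, g ≤ cnt (Bst X) i ∧ cnt X (i ++ [b]) ≤ 2 * (2 * g + 1) * (n + 1) := by
        cases b
        · exact ⟨gf, by omega, i2⟩
        · exact ⟨gt, by omega, i1⟩
      obtain ⟨g, hg1, hg2⟩ := h4
      have h5 : 2 * (2 * g + 1) * (n + 1) ≤ 2 * (2 * cnt (Bst X) i + 1) * (n + 1) := by
        apply Nat.mul_le_mul_right
        omega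
      have h6 : 2 * (2 * cnt (Bst X) i + 1) * (n + 1 + 1) = 2 * (2 * cnt (Bst X) i + 1) * (n + 1) + 2 * (2 * cnt (Bst X) i + 1) := by ring
      omega

theorem chain_card (X : Finset (List Bool)) (H m : ℕ) (hm : 1 ≤ m) (hX : ∀ l ∈ X, sz l ≤ H) (k : List Bool)
    (hk : ∀ l ∈ X, k <+: l) (hp : m ≤ (desc root k).p) (hq : m ≤ (desc root k).q) :
    X.card ≤ 2 * (2 * cnt (Bst X) k + 1) * (H / m + 1) := by
  have h1 := chain_ind X H m hX k hp hq (H / m) k (List.prefix_refl k) (by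
    have := Nat.lt_mul_div_succ H (by omega : 0 < m)
    omega)
  have h2 : cnt X k = X.card := by
    unfold cnt; rw [Finset.filter_true_of_mem hk]
  rw [h2] at h1
  exact h1

/-- bound for a pair of cones, first side -/
theorem pair_first {H : ℕ} (hH : 2 ≤ H) {Λ : ℝ} {k k' : List Bool} (X : Finset (List Bool)) (φ : List Bool → List Bool)
    (h : HypL H Λ k k' (fun l l' => l ∈ X ∧ l' = φ l)) (hne : ∀ l ∈ X, φ l ≠ l) (m : ℕ) (hm : 1 ≤ m)
    (hp : m ≤ (desc root k).p) (hq : m ≤ (desc root k).q) :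
    ∃ N : ℕ, N ≠ 0 ∧ N ≤ H ^ 4 ∧ X.card ≤ 2 * (18 * N.divisors.card + 1) * (H / m + 1) := by
  classical
  set R : List Bool → List Bool → Prop := fun l l' => l ∈ X ∧ l' = φ l with hR
  have g1 : ∀ l ∈ X, ∃ l', R l l' := fun l hl => ⟨φ l, hl, rfl⟩
  obtain ⟨N, hN0, hN1, hN2⟩ := br_card hH h (by
    rintro l l' ⟨h1, h2⟩ h3
    exact hne l h1 (by rw [← h2, ← h3])) ((Bst X).filter (fun i => k <+: i)) (by
    intro i hi
    rw [Finset.mem_filter] at hi
    exact ⟨hi.2, Br_of_BrF g1 (Bst_br hi.1)⟩)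
  refine ⟨N, hN0, hN1, ?_⟩
  have h1 := chain_card X H m hm (fun l hl => (h.rel l (φ l) ⟨hl, rfl⟩).2.2.1) k
    (fun l hl => (h.rel l (φ l) ⟨hl, rfl⟩).1) hp hq
  have h2 : cnt (Bst X) k = ((Bst X).filter (fun i => k <+: i)).card := by
    unfold cnt; rfl
  rw [← h2] at hN2
  refine h1.trans ?_
  apply Nat.mul_le_mul_right
  omega

/-- bound for a pair of cones, second side -/
theorem pair_second {H : ℕ} (hH : 2 ≤ H) {Λ : ℝ} {k k' : List Bool} (X : Finset (List Bool)) (φ : List Bool → List Bool)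
    (h : HypL H Λ k k' (fun l l' => l ∈ X ∧ l' = φ l)) (hne : ∀ l ∈ X, φ l ≠ l) (m : ℕ) (hm : 1 ≤ m)
    (hp : m ≤ (desc root k').p) (hq : m ≤ (desc root k').q) :
    ∃ N : ℕ, N ≠ 0 ∧ N ≤ H ^ 4 ∧ X.card ≤ 2 * (18 * N.divisors.card + 1) * (H / m + 1) := by
  classical
  have hinj : ∀ a ∈ X, ∀ b ∈ X, φ a = φ b → a = b := by
    intro a ha b hb hab
    exact h.inj (a := a) (b := b) (c := φ a) ⟨ha, rfl⟩ ⟨hb, hab⟩
  set Y := X.image φ with hY
  have hcard : Y.card = X.card := Finset.card_image_of_injOn (fun a ha b hb hab => hinj a ha b hb hab)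
  have hch : ∀ y ∈ Y, ∃ x, x ∈ X ∧ φ x = y := by
    intro y hy
    obtain ⟨x, hx, hxy⟩ := Finset.mem_image.mp hy
    exact ⟨x, hx, hxy⟩
  choose! ψ hψ1 hψ2 using hch
  have h' : HypL H Λ k' k (fun l l' => l ∈ Y ∧ l' = ψ l) := by
    refine ⟨h.hs, h.ha', h.hb', h.ha, h.hb, h.irr', h.irr, ?_⟩
    rintro l l' ⟨hl, rfl⟩
    obtain ⟨h1, h2, h3, h4, h5⟩ := h.rel (ψ l) l ⟨hψ1 l hl, (hψ2 l hl).symm⟩
    exact ⟨h2, h1, h4, h3, h5.symm⟩
  rw [← hcard]
  apply pair_first hH Y ψ h' _ m hm hp hq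
  intro l hl heq
  have h1 := hψ2 l hl
  have h2 := hne (ψ l) (hψ1 l hl)
  rw [heq] at h1 h2
  exact h2 h1

end

end Pool.Agent.TH880.MK
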