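import Mathlib
import Pool.Agent.TH880.MK.M10

set_option autoImplicit false

namespace Pool.Agent.TH880.MK

open Pool.Agent.H499R2

noncomputable section

/-- two rational cones on different sides of a node: the jump is small -/
lemma rat_splitL {j k1 k1' : List Bool} (h1 : j ++ [true] <+: k1) (h1' : j ++ [false] <+: k1') {D η : ℝ}
    {d d' : ℤ × ℤ} (hd : Q4 d) (hd' : Q4 d') (h0 : d ≠ 0) (h0' : d' ≠ 0)
    (nd : nm d ≤ D) (nd' : nm d' ≤ D) (e1 : |ell (desc root k1) d| ≤ η) (e1' : |ell (desc root k1') d'| ≤ η)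
    (hpar : dt d d' = 0) : jp (desc root j) ≤ 2 * D * η := by
  have hv := valid_root.desc j
  have lpos : ∀ d : ℤ × ℤ, Q4 d → d ≠ 0 → 1 ≤ len d := by
    intro d hd h0
    by_contra hcon
    apply h0
    unfold len at hcon
    have a1 := hd.1
    have a2 := hd.2
    apply Prod.ext
    · show d.1 = 0; omega
    · show d.2 = 0; omega
  have l1 := lpos d hd h0
  have l2 := lpos d' hd' h0'
  have hee : len d' • d = len d • d' := by
    unfold dt at hpar
    unfold len
    apply Prod.ext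
    · simp only [Prod.smul_fst, smul_eq_mul]; linear_combination -hpar
    · simp only [Prod.smul_snd, smul_eq_mul]; linear_combination -hpar
  set e := len d' • d with he
  have heQ : Q4 e := by
    constructor
    · rw [he]; simp only [Prod.smul_fst, smul_eq_mul]; exact mul_nonneg (by omega) hd.1
    · rw [he]; simp only [Prod.smul_snd, smul_eq_mul]; exact mul_nonpos_of_nonneg_of_nonpos (by omega) hd.2
  have he0 : e ≠ 0 := by
    intro h
    apply h0
    have e3 : len d' * d.1 = 0 := congrArg Prod.fst h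
    have e4 : len d' * d.2 = 0 := congrArg Prod.snd h
    apply Prod.ext
    · rcases mul_eq_zero.mp e3 with h | h
      · omega
      · exact h
    · rcases mul_eq_zero.mp e4 with h | h
      · omega
      · exact h
  rw [nm_Q4 hd] at nd
  rw [nm_Q4 hd'] at nd'
  have f1 : |ell (desc root k1) e| ≤ D * η := by
    rw [he, ell_smul, abs_mul]
    have : |(len d' : ℝ)| ≤ D := by
      rw [abs_of_nonneg (by exact_mod_cast (by omega : 0 ≤ len d'))]; exact nd'
    exact mul_le_mul this e1 (abs_nonneg _) ((abs_nonneg _).trans this)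
  have f2 : |ell (desc root k1') e| ≤ D * η := by
    rw [hee, ell_smul, abs_mul]
    have : |(len d : ℝ)| ≤ D := by
      rw [abs_of_nonneg (by exact_mod_cast (by omega : 0 ≤ len d))]; exact nd
    exact mul_le_mul this e1' (abs_nonneg _) ((abs_nonneg _).trans this)
  have hl : desc root (j ++ [true]) = lf (desc root j) := desc_snoc _ _ _
  have hr : desc root (j ++ [false]) = rt (desc root j) := desc_snoc _ _ _
  obtain ⟨t, rfl⟩ := h1
  obtain ⟨t', rfl⟩ := h1'
  rw [desc_append, hl] at f1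
  rw [desc_append, hr] at f2
  have s1 := (sandwich hv.lf heQ t).1
  have s2 := (sandwich hv.rt heQ t').2
  have hj := ell_jump hv e
  have c1 := cu_nonneg hv heQ
  have c2 := cv_nonpos hv heQ
  have c3 : 1 ≤ cu (desc root j) e - cv (desc root j) e := by
    by_contra hcon
    obtain ⟨g1, g2⟩ := coord hv e
    have z1 : cu (desc root j) e = 0 := by omega
    have z2 : cv (desc root j) e = 0 := by omega
    rw [z1, z2] at g1 g2
    apply he0
    apply Prod.ext
    · rw [g1]; simp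
    · rw [g2]; simp
  have c3' : (1 : ℝ) ≤ (cu (desc root j) e : ℝ) - cv (desc root j) e := by exact_mod_cast c3
  have hjp0 := jp_nonneg hv
  have h8 : jp (desc root j) ≤ ((cu (desc root j) e : ℝ) - cv (desc root j) e) * jp (desc root j) :=
    le_mul_of_one_le_left hjp0 c3'
  have f1' := (abs_le.mp f1).2
  have f2' := (abs_le.mp f2).1
  linarith

lemma big_sq {ρ : ℕ} {k : List Bool} (h : Big ρ k) :
    (4 : ℝ) ^ ρ ≤ 4 * ((desc root k).a : ℝ) ^ 2 ∧ (4 : ℝ) ^ ρ ≤ 4 * ((desc root k).b : ℝ) ^ 2 := by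
  have hv := valid_root.desc k
  have h1 : (2 : ℝ) ^ (desc root k).p ≤ 2 * (desc root k).a := by exact_mod_cast hv.la
  have h2 : (2 : ℝ) ^ (desc root k).q ≤ 2 * (desc root k).b := by exact_mod_cast hv.lb
  have h3 : (2 : ℝ) ^ ρ ≤ 2 ^ (desc root k).p := pow_le_pow_right₀ (by norm_num) h.1
  have h4 : (2 : ℝ) ^ ρ ≤ 2 ^ (desc root k).q := pow_le_pow_right₀ (by norm_num) h.2
  have e : (4 : ℝ) ^ ρ = (2 ^ ρ) ^ 2 := by rw [← pow_mul, mul_comm, pow_mul]; norm_num
  constructor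
  · calc (4 : ℝ) ^ ρ = (2 ^ ρ) ^ 2 := e
      _ ≤ (2 * ((desc root k).a : ℝ)) ^ 2 := pow_le_pow_left₀ (by positivity) (h3.trans h1) 2
      _ = _ := by ring
  · calc (4 : ℝ) ^ ρ = (2 ^ ρ) ^ 2 := e
      _ ≤ (2 * ((desc root k).b : ℝ)) ^ 2 := pow_le_pow_left₀ (by positivity) (h4.trans h2) 2
      _ = _ := by ring

/-- at most one child of a big node is rational -/
theorem one_side {H ρ : ℕ} (hH : 1 ≤ H) (hs : (10 : ℝ) ^ 20 * H ^ 20 ≤ 4 ^ ρ) {i : List Bool} (hB : Big ρ i)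
    (hi : sz i ≤ H) : IR H (i ++ [true]) ∨ IR H (i ++ [false]) := by
  by_contra hcon
  push Not at hcon
  obtain ⟨h1, h2⟩ := hcon
  have hH1 : (1 : ℝ) ≤ H := by exact_mod_cast hH
  have hv := valid_root.desc i
  obtain ⟨Λ, hΛ⟩ : ∃ Λ : ℝ, Λ = 4 ^ ρ := ⟨_, rfl⟩
  obtain ⟨ba, bb⟩ := big_sq hB
  rw [← hΛ] at hs ba bb
  have hΛ0 : 0 < Λ := lt_of_lt_of_le (by positivity) hs
  have d1 : dl (desc root (i ++ [true])) ≤ dl (desc root i) / Λ := by
    rw [desc_snoc]; exact dl_lf_leL hv hΛ0 ba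
  have d2 : dl (desc root (i ++ [false])) ≤ dl (desc root i) / Λ := by
    rw [desc_snoc]; exact dl_rt_leL hv hΛ0 bb
  have hdc := dl_c hv
  have hc1 := hv.mt.c_one
  have hd0 := dl_pos hv
  have hd1 := dl_le_one hv
  obtain ⟨η, hη⟩ : ∃ η : ℝ, η = 20 * H ^ 3 * (dl (desc root i) / Λ) := ⟨_, rfl⟩
  have hη0 : 0 < η := by rw [hη]; positivity
  have hpow : ∀ m : ℕ, m ≤ 20 → (H : ℝ) ^ m ≤ H ^ 20 := fun m hm => pow_le_pow_right₀ hH1 hm
  have small : ∀ (c : ℝ) (m : ℕ), 0 ≤ c → c ≤ 10 ^ 19 → m ≤ 20 → c * H ^ m / Λ ≤ 1 / 10 := by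
    intro c m hc0 hc hm
    rw [div_le_div_iff₀ hΛ0 (by norm_num)]
    have h1 := hpow m hm
    have h2 : c * (H : ℝ) ^ m ≤ 10 ^ 19 * H ^ 20 := mul_le_mul hc h1 (by positivity) (by positivity)
    linarith
  have hηs : η ≤ 20 * H ^ 3 / Λ := by
    rw [hη]
    calc 20 * (H : ℝ) ^ 3 * (dl (desc root i) / Λ) ≤ 20 * H ^ 3 * (1 / Λ) := by
          apply mul_le_mul_of_nonneg_left _ (by positivity)
          exact div_le_div_of_nonneg_right hd1 hΛ0.le
      _ = _ := by ring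
  have hη1 : η < 1 / 3 := by
    have := small 20 3 (by norm_num) (by norm_num) (by norm_num)
    linarith
  have w1 : ¬ Irr (3 * (H : ℝ) ^ 3) η (i ++ [true]) := by
    intro h
    apply h1
    intro d hd hn
    refine lt_of_le_of_lt ?_ (h d hd hn)
    rw [hη]; exact mul_le_mul_of_nonneg_left d1 (by positivity)
  have w2 : ¬ Irr (3 * (H : ℝ) ^ 3) η (i ++ [false]) := by
    intro h
    apply h2
    intro d hd hn
    refine lt_of_le_of_lt ?_ (h d hd hn)
    rw [hη]; exact mul_le_mul_of_nonneg_left d2 (by positivity)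
  obtain ⟨d, hd0', hdQ, hdn, hde⟩ := rat_wit hη1 w1
  obtain ⟨d', hd0'', hdQ', hdn', hde'⟩ := rat_wit hη1 w2
  have h16 : (16 : ℝ) ^ ρ = Λ * Λ := by rw [hΛ, ← mul_pow]; norm_num
  have hΛ1 : (1 : ℝ) ≤ Λ := by
    have : (1 : ℝ) ≤ H ^ 20 := one_le_pow₀ hH1
    nlinarith
  have hpar := parallel (List.prefix_append i [true]) (List.prefix_append i [false]) hB hi hdQ hdQ' hdn hdn' hde hde' (by
    rw [h16]
    have e1 : 2 * (H : ℝ) * (3 * H ^ 3) * (η + H * (3 * H ^ 3) * (16 / (Λ * Λ))) ≤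
        2 * (H : ℝ) * (3 * H ^ 3) * (20 * H ^ 3 / Λ + H * (3 * H ^ 3) * (16 / Λ)) := by
      apply mul_le_mul_of_nonneg_left _ (by positivity)
      apply add_le_add hηs
      apply mul_le_mul_of_nonneg_left _ (by positivity)
      apply div_le_div_of_nonneg_left (by norm_num) hΛ0
      nlinarith
    have e2 : 2 * (H : ℝ) * (3 * H ^ 3) * (20 * H ^ 3 / Λ + H * (3 * H ^ 3) * (16 / Λ)) = 120 * H ^ 7 / Λ + 288 * H ^ 8 / Λ := by ring
    have e3 := small 120 7 (by norm_num) (by norm_num) (by norm_num)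
    have e4 := small 288 8 (by norm_num) (by norm_num) (by norm_num)
    linarith)
  have hfin := rat_splitL (List.prefix_refl _) (List.prefix_refl _) hdQ hdQ' hd0' hd0'' hdn hdn' hde hde' hpar
  have hj : 4 / (9 * ((desc root i).c : ℝ) ^ 2) ≤ jp (desc root i) := jump_lower _ hc1
  have e5 : 2 * (3 * (H : ℝ) ^ 3) * η ≤ 1080 * H ^ 6 / Λ * (1 / ((desc root i).c : ℝ) ^ 2) := by
    rw [hη]
    calc 2 * (3 * (H : ℝ) ^ 3) * (20 * H ^ 3 * (dl (desc root i) / Λ)) = 120 * H ^ 6 / Λ * dl (desc root i) := by ring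
      _ ≤ 120 * H ^ 6 / Λ * (9 / ((desc root i).c : ℝ) ^ 2) := mul_le_mul_of_nonneg_left hdc (by positivity)
      _ = _ := by ring
  have e6 : 1080 * (H : ℝ) ^ 6 / Λ ≤ 1 / 10 := small 1080 6 (by norm_num) (by norm_num) (by norm_num)
  have hcp : 0 < 1 / ((desc root i).c : ℝ) ^ 2 := by positivity
  have e7 : 1080 * (H : ℝ) ^ 6 / Λ * (1 / ((desc root i).c : ℝ) ^ 2) ≤ 1 / 10 * (1 / ((desc root i).c : ℝ) ^ 2) :=
    mul_le_mul_of_nonneg_right e6 hcp.le
  have e8 : 4 / (9 * ((desc root i).c : ℝ) ^ 2) = 4 / 9 * (1 / ((desc root i).c : ℝ) ^ 2) := by ring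
  linarith

end

end Pool.Agent.TH880.MK
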