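import Mathlib
import Pool.Agent.TH880.MK.M11
import Pool.Agent.H499R2.Dens12

set_option autoImplicit false

namespace Pool.Agent.TH880.MK

open Pool.Agent.H499R2

noncomputable section

/-- good cones -/
def GI (H ρ : ℕ) (k : List Bool) : Prop := Big ρ k ∧ IR H k

/-- minimal good cones -/
def MnG (H ρ : ℕ) (k : List Bool) : Prop := GI H ρ k ∧ ∀ j, j <+: k → GI H ρ j → j = k

lemma MnG_exists {H ρ : ℕ} (n : ℕ) : ∀ k : List Bool, k.length ≤ n → GI H ρ k → ∃ k', k' <+: k ∧ MnG H ρ k' := by
  induction n with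
  | zero =>
    intro k hk hG
    have : k = [] := List.length_eq_zero_iff.mp (by omega)
    refine ⟨k, List.prefix_refl _, hG, ?_⟩
    intro j hj _
    rw [this] at hj ⊢
    exact List.prefix_nil.mp hj
  | succ n ih =>
    intro k hk hG
    by_cases h : ∃ j, j <+: k ∧ j ≠ k ∧ GI H ρ j
    · obtain ⟨j, h1, h2, h3⟩ := h
      have hlt : j.length < k.length := by
        rcases lt_or_eq_of_le h1.length_le with h4 | h4
        · exact h4
        · exact absurd (h1.eq_of_length h4) h2
      obtain ⟨k', h5, h6⟩ := ih j (by omega) h3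
      exact ⟨k', h5.trans h1, h6⟩
    · push Not at h
      refine ⟨k, List.prefix_refl _, hG, ?_⟩
      intro j hj hGj
      by_contra hne
      exact h j hj hne hGj

open scoped Classical in
/-- the pieces -/
def PP (H ρ S : ℕ) : Finset (List Bool) := (SW (2 * S)).filter (MnG H ρ)

lemma mem_PP {H ρ S : ℕ} {k : List Bool} : k ∈ PP H ρ S ↔ sz k ≤ 2 * S ∧ MnG H ρ k := by
  classical
  unfold PP; rw [Finset.mem_filter, mem_SW]

/-- smaller of the two sizes -/
def mm (k : List Bool) : ℕ := min (desc root k).p (desc root k).q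

/-- weight of a cone -/
def wt (k : List Bool) : ℝ := 1 / Real.sqrt (mm k)

lemma mm_pos (k : List Bool) : 1 ≤ mm k := by
  have hv := valid_root.desc k
  have := hv.p1
  have := hv.q1
  unfold mm; omega

lemma wt_nonneg (k : List Bool) : 0 ≤ wt k := by unfold wt; positivity

/-- total weight below a node -/
def Wt (P : Finset (List Bool)) (i : List Bool) : ℝ := ∑ k ∈ P, if i <+: k then wt k else 0

lemma Wt_rec (P : Finset (List Bool)) (i : List Bool) :
    Wt P i = (if i ∈ P then wt i else 0) + Wt P (i ++ [true]) + Wt P (i ++ [false]) := by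
  unfold Wt
  have h1 : ∀ l : List Bool, (if i <+: l then wt l else 0) =
      (if l = i then wt l else 0) + (if i ++ [true] <+: l then wt l else 0) + (if i ++ [false] <+: l then wt l else 0) := by
    intro l
    have h := prefix_cases i l
    have hc := congrArg (fun n : ℕ => (n : ℝ) * wt l) h
    simp only [Nat.cast_add, Nat.cast_ite, Nat.cast_one, Nat.cast_zero, add_mul, ite_mul, one_mul, zero_mul] at hc
    exact hc
  rw [Finset.sum_congr rfl (fun l _ => h1 l), Finset.sum_add_distrib, Finset.sum_add_distrib]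
  congr 2
  rw [Finset.sum_ite_eq']

lemma Wt_zero {P : Finset (List Bool)} {B : ℕ} (hP : ∀ k ∈ P, sz k ≤ B) {i : List Bool} (hi : B < sz i) : Wt P i = 0 := by
  unfold Wt
  apply Finset.sum_eq_zero
  intro k hk
  rw [if_neg]
  intro h
  have := sz_prefix h
  have := hP k hk
  omega

lemma Wt_good {H ρ S : ℕ} {i : List Bool} (h : GI H ρ i) : Wt (PP H ρ S) i ≤ wt i := by
  unfold Wt
  have h1 : ∀ k ∈ PP H ρ S, (if i <+: k then wt k else 0) = if k = i then wt k else 0 := by
    intro k hk
    obtain ⟨-, hm⟩ := mem_PP.mp hk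
    by_cases hik : i <+: k
    · have := hm.2 i hik h
      rw [if_pos hik, if_pos this.symm]
    · have : k ≠ i := by rintro rfl; exact hik (List.prefix_refl _)
      rw [if_neg hik, if_neg this]
  rw [Finset.sum_congr rfl h1, Finset.sum_ite_eq']
  split_ifs
  · exact le_rfl
  · exact wt_nonneg i

lemma num_pot {p q m : ℝ} (hm : 1 ≤ m) (hp : m ≤ p) (hq : m ≤ q) :
    1 / Real.sqrt q ≤ 3 / m * (Real.sqrt (p + q) - Real.sqrt q) := by
  have hp0 : 0 < p := by linarith
  have hq0 : 0 < q := by linarith
  have hm0 : 0 < m := by linarith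
  have ea : Real.sqrt p ^ 2 = p := Real.sq_sqrt hp0.le
  have eb : Real.sqrt q ^ 2 = q := Real.sq_sqrt hq0.le
  have ec : Real.sqrt (p + q) ^ 2 = p + q := Real.sq_sqrt (by linarith)
  have a0 : 0 < Real.sqrt p := Real.sqrt_pos.mpr hp0
  have b0 : 0 < Real.sqrt q := Real.sqrt_pos.mpr hq0
  have c0 : 0 < Real.sqrt (p + q) := Real.sqrt_pos.mpr (by linarith)
  set a := Real.sqrt p
  set b := Real.sqrt q
  set c := Real.sqrt (p + q)
  have hc : c ≤ a + b := by
    have : c ^ 2 ≤ (a + b) ^ 2 := by nlinarith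
    exact le_of_sq_le_sq this (by linarith)
  have hmab : m ≤ a * b := by
    have : m ^ 2 ≤ (a * b) ^ 2 := by
      calc m ^ 2 = m * m := sq m
        _ ≤ p * q := mul_le_mul hp hq hm0.le hp0.le
        _ = (a * b) ^ 2 := by rw [mul_pow, ea, eb]
    exact le_of_sq_le_sq this (by positivity)
  have h1 : m * (c + b) ≤ 3 * p * b := by
    have e1 : m * (c + b) ≤ m * (a + 2 * b) := mul_le_mul_of_nonneg_left (by linarith) hm0.le
    have e2 : m * a ≤ (a * b) * a := mul_le_mul_of_nonneg_right hmab a0.le
    have e3 : m * b ≤ p * b := mul_le_mul_of_nonneg_right hp b0.le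
    have e4 : (a * b) * a = p * b := by rw [← ea]; ring
    linarith
  have h2 : (c - b) * (c + b) = p := by nlinarith
  rw [div_mul_eq_mul_div, div_le_div_iff₀ b0 hm0, one_mul]
  have h3 : m * (c + b) ≤ (3 * (c - b) * b) * (c + b) := by
    calc m * (c + b) ≤ 3 * p * b := h1
      _ = (3 * (c - b) * b) * (c + b) := by rw [← h2]; ring
  exact le_of_mul_le_mul_right h3 (by linarith)

lemma pot_nonneg {p q S m : ℝ} (hm : 1 ≤ m) (hS : 0 ≤ S) (hp : p ≤ 4 * S) (hq : q ≤ 4 * S) :
    0 ≤ 3 / m * (4 * Real.sqrt S - Real.sqrt p - Real.sqrt q) := by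
  have h4 : Real.sqrt (4 * S) = 2 * Real.sqrt S := by
    rw [Real.sqrt_mul (by norm_num), show (4 : ℝ) = 2 ^ 2 by norm_num, Real.sqrt_sq (by norm_num)]
  have h1 : Real.sqrt p ≤ 2 * Real.sqrt S := by rw [← h4]; exact Real.sqrt_le_sqrt hp
  have h2 : Real.sqrt q ≤ 2 * Real.sqrt S := by rw [← h4]; exact Real.sqrt_le_sqrt hq
  apply mul_nonneg (by positivity)
  linarith

lemma pot_ind {H ρ S : ℕ} (hH : 1 ≤ H) (hs : (10 : ℝ) ^ 20 * H ^ 20 ≤ 4 ^ ρ) (hS : 2 * S ≤ H) (m0 : ℕ) (hm0 : 1 ≤ m0)
    (n : ℕ) : ∀ i, Big ρ i → m0 ≤ (desc root i).p → m0 ≤ (desc root i).q → 2 * S < sz i + n → sz i ≤ 4 * S →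
      Wt (PP H ρ S) i ≤ 3 / m0 * (4 * Real.sqrt S - Real.sqrt (desc root i).p - Real.sqrt (desc root i).q) +
        2 / Real.sqrt m0 := by
  have hm1 : (1 : ℝ) ≤ m0 := by exact_mod_cast hm0
  have hsm : 0 < Real.sqrt m0 := Real.sqrt_pos.mpr (by linarith)
  have hPP : ∀ k ∈ PP H ρ S, sz k ≤ 2 * S := fun k hk => (mem_PP.mp hk).1
  have nonneg : ∀ i, sz i ≤ 4 * S →
      0 ≤ 3 / (m0 : ℝ) * (4 * Real.sqrt S - Real.sqrt (desc root i).p - Real.sqrt (desc root i).q) := by
    intro i hi
    have hsz := sz_pq i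
    apply pot_nonneg hm1 (by positivity)
    · exact_mod_cast (show (desc root i).p ≤ 4 * S by omega)
    · exact_mod_cast (show (desc root i).q ≤ 4 * S by omega)
  induction n with
  | zero =>
    intro i _ _ _ h1 h2
    rw [Wt_zero hPP (by omega)]
    have := nonneg i h2
    positivity
  | succ n ih =>
    intro i hB hp hq h1 h2
    have hnn := nonneg i h2
    by_cases h3 : 2 * S < sz i
    · rw [Wt_zero hPP h3]
      positivity
    by_cases hG : GI H ρ i
    · have h4 := Wt_good (S := S) hG
      have h5 : wt i ≤ 1 / Real.sqrt m0 := by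
        unfold wt
        apply one_div_le_one_div_of_le hsm
        apply Real.sqrt_le_sqrt
        have : m0 ≤ mm i := by unfold mm; omega
        exact_mod_cast this
      have h6 : 1 / Real.sqrt (m0 : ℝ) ≤ 2 / Real.sqrt m0 := div_le_div_of_nonneg_right (by norm_num) hsm.le
      linarith
    · have hnot : i ∉ PP H ρ S := fun h => hG (mem_PP.mp h).2.1
      have hrec := Wt_rec (PP H ρ S) i
      rw [if_neg hnot, zero_add] at hrec
      have hpr : (m0 : ℝ) ≤ (desc root i).p := by exact_mod_cast hp
      have hqr : (m0 : ℝ) ≤ (desc root i).q := by exact_mod_cast hq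
      have st := sz_child i true
      have sf := sz_child i false
      have pt' := pq_prefix (List.prefix_append i [true])
      have pf' := pq_prefix (List.prefix_append i [false])
      have Bt : Big ρ (i ++ [true]) := ⟨hB.1.trans pt'.1, hB.2.trans pt'.2⟩
      have Bf : Big ρ (i ++ [false]) := ⟨hB.1.trans pf'.1, hB.2.trans pf'.2⟩
      have it := ih (i ++ [true]) Bt (hp.trans pt'.1) (hq.trans pt'.2) (by omega) (by omega)
      have jf := ih (i ++ [false]) Bf (hp.trans pf'.1) (hq.trans pf'.2) (by omega) (by omega)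
      have et : (desc root (i ++ [true])).p = (desc root i).p ∧ (desc root (i ++ [true])).q = (desc root i).p + (desc root i).q := by
        rw [desc_snoc]; exact ⟨rfl, rfl⟩
      have ef : (desc root (i ++ [false])).p = (desc root i).p + (desc root i).q ∧ (desc root (i ++ [false])).q = (desc root i).q := by
        rw [desc_snoc]; exact ⟨rfl, rfl⟩
      rw [et.1, et.2] at it
      rw [ef.1, ef.2] at jf
      push_cast at it jf
      rcases one_side hH hs hB (by omega) with hI | hI
      · have h4 := Wt_good (S := S) (show GI H ρ (i ++ [true]) from ⟨Bt, hI⟩)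
        have h5 : wt (i ++ [true]) = 1 / Real.sqrt (desc root i).p := by
          unfold wt mm; rw [et.1, et.2, min_eq_left (by omega)]
        have h6 := num_pot (p := (desc root i).q) (q := (desc root i).p) hm1 hqr hpr
        rw [add_comm ((desc root i).q : ℝ)] at h6
        rw [hrec]
        rw [h5] at h4
        have e : 3 / (m0 : ℝ) * (4 * Real.sqrt S - Real.sqrt (desc root i).p - Real.sqrt (desc root i).q) =
          3 / (m0 : ℝ) * (4 * Real.sqrt S - Real.sqrt ((desc root i).p + (desc root i).q) - Real.sqrt (desc root i).q) +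
          3 / (m0 : ℝ) * (Real.sqrt ((desc root i).p + (desc root i).q) - Real.sqrt (desc root i).p) := by ring
        rw [e]
        linarith
      · have h4 := Wt_good (S := S) (show GI H ρ (i ++ [false]) from ⟨Bf, hI⟩)
        have h5 : wt (i ++ [false]) = 1 / Real.sqrt (desc root i).q := by
          unfold wt mm; rw [ef.1, ef.2, min_eq_right (by omega)]
        have h6 := num_pot (p := (desc root i).p) (q := (desc root i).q) hm1 hpr hqr
        rw [hrec]
        rw [h5] at h4
        have e : 3 / (m0 : ℝ) * (4 * Real.sqrt S - Real.sqrt (desc root i).p - Real.sqrt (desc root i).q) =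
          3 / (m0 : ℝ) * (4 * Real.sqrt S - Real.sqrt (desc root i).p - Real.sqrt ((desc root i).p + (desc root i).q)) +
          3 / (m0 : ℝ) * (Real.sqrt ((desc root i).p + (desc root i).q) - Real.sqrt (desc root i).q) := by ring
        rw [e]
        linarith

end

end Pool.Agent.TH880.MK
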