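import Mathlib
import Pool.Agent.TH880.MK.M12

set_option autoImplicit false

namespace Pool.Agent.TH880.MK

open Pool.Agent.H499R2

noncomputable section

open scoped Classical in
/-- minimal cones of bounded size -/
def K0 (ρ B : ℕ) : Finset (List Bool) := (SW B).filter (Mn ρ)

lemma mem_K0 {ρ B : ℕ} {k : List Bool} : k ∈ K0 ρ B ↔ sz k ≤ B ∧ Mn ρ k := by
  classical
  unfold K0; rw [Finset.mem_filter, mem_SW]

/-- shape of a minimal cone -/
lemma Mn_shape {ρ : ℕ} (hρ : 2 ≤ ρ) {k : List Bool} (h : Mn ρ k) :
    ((desc root k).q < (desc root k).p ∧ (desc root k).vx ≤ (desc root k).ux ∧ (desc root k).vy ≤ (desc root k).uy ∧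
      (desc root k).p < (desc root k).q + ρ) ∨
    ((desc root k).p < (desc root k).q ∧ (desc root k).ux ≤ (desc root k).vx ∧ (desc root k).uy ≤ (desc root k).vy ∧
      (desc root k).q < (desc root k).p + ρ) := by
  have hk0 : k ≠ [] := by
    rintro rfl
    have := h.1.1
    have e : (desc root []).p = 1 := rfl
    omega
  obtain ⟨j, b, rfl⟩ : ∃ j b, k = j ++ [b] := by
    rcases List.eq_nil_or_concat k with h | ⟨j, b, h⟩
    · exact absurd h hk0
    · exact ⟨j, b, by simpa using h⟩
  have hnj : ¬ Big ρ j := by
    intro h'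
    have := h.2 j (List.prefix_append _ _) h'
    have := congrArg List.length this
    simp at this
  have hB := h.1
  have hv := valid_root.desc j
  have hp := hv.p1
  have hq := hv.q1
  have a1 := hv.ux0
  have a2 := hv.uy0
  have a3 := hv.vx0
  have a4 := hv.vy0
  unfold Big at hB hnj
  rw [desc_snoc] at *
  cases b
  · left
    have e1 : (step (desc root j) false).p = (desc root j).p + (desc root j).q := rfl
    have e2 : (step (desc root j) false).q = (desc root j).q := rfl
    have e3 : (step (desc root j) false).ux = (desc root j).ux + (desc root j).vx := rfl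
    have e4 : (step (desc root j) false).uy = (desc root j).uy + (desc root j).vy := rfl
    have e5 : (step (desc root j) false).vx = (desc root j).vx := rfl
    have e6 : (step (desc root j) false).vy = (desc root j).vy := rfl
    rw [e1, e2] at hB
    rw [e1, e2, e3, e4, e5, e6]
    have hpj : (desc root j).p < ρ := by
      by_contra h4; exact hnj ⟨not_lt.mp h4, hB.2⟩
    refine ⟨by omega, by omega, by omega, by omega⟩
  · right
    have e1 : (step (desc root j) true).p = (desc root j).p := rfl
    have e2 : (step (desc root j) true).q = (desc root j).p + (desc root j).q := rfl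
    have e3 : (step (desc root j) true).ux = (desc root j).ux := rfl
    have e4 : (step (desc root j) true).uy = (desc root j).uy := rfl
    have e5 : (step (desc root j) true).vx = (desc root j).ux + (desc root j).vx := rfl
    have e6 : (step (desc root j) true).vy = (desc root j).uy + (desc root j).vy := rfl
    rw [e1, e2] at hB
    rw [e1, e2, e3, e4, e5, e6]
    have hqj : (desc root j).q < ρ := by
      by_contra h4; exact hnj ⟨hB.1, not_lt.mp h4⟩
    refine ⟨by omega, by omega, by omega, by omega⟩

open scoped Classical in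
/-- code of a minimal cone -/
def code (k : List Bool) : ((ℕ × ℕ) × ℕ) × ℕ :=
  (((if (desc root k).q < (desc root k).p then 1 else 0, ((desc root k).ux - (desc root k).vx).natAbs),
    ((desc root k).uy - (desc root k).vy).natAbs), mm k)

lemma code_inj {ρ : ℕ} (hρ : 2 ≤ ρ) {k k' : List Bool} (h : Mn ρ k) (h' : Mn ρ k') (he : code k = code k') : k = k' := by
  classical
  have hs := Mn_shape hρ h
  have hs' := Mn_shape hρ h'
  have hv := valid_root.desc k
  have hv' := valid_root.desc k'
  have hp := hv.hp
  have hq := hv.hq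
  have hp' := hv'.hp
  have hq' := hv'.hq
  have hd := hv.det
  have hd' := hv'.det
  unfold code mm at he
  simp only [Prod.mk.injEq] at he
  obtain ⟨⟨⟨e1, e2⟩, e3⟩, e4⟩ := he
  apply zz_inj
  show vec (desc root k) = vec (desc root k')
  rcases hs with ⟨s1, s2, s3, s4⟩ | ⟨s1, s2, s3, s4⟩
  · have s1' : (desc root k').q < (desc root k').p := by
      by_contra hc
      rw [if_pos s1, if_neg hc] at e1
      omega
    rcases hs' with ⟨-, t2, t3, t4⟩ | ⟨t1, -⟩
    · rw [min_eq_right s1.le, min_eq_right s1'.le] at e4
      have g1 : (desc root k).ux - (desc root k).vx = (desc root k').ux - (desc root k').vx := by omega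
      have g2 : (desc root k).uy - (desc root k).vy = (desc root k').uy - (desc root k').vy := by omega
      have key : vv (desc root k) = vv (desc root k') := by
        apply det_unique (w := ((desc root k).ux - (desc root k).vx, (desc root k).uy - (desc root k).vy))
        · show 1 ≤ (desc root k).ux - (desc root k).vx + ((desc root k).uy - (desc root k).vy)
          omega
        · unfold dt vv
          show ((desc root k).ux - (desc root k).vx) * (desc root k).vy - ((desc root k).uy - (desc root k).vy) * (desc root k).vx =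
            ((desc root k).ux - (desc root k).vx) * (desc root k').vy - ((desc root k).uy - (desc root k).vy) * (desc root k').vx
          have l1 : ((desc root k).ux - (desc root k).vx) * (desc root k).vy - ((desc root k).uy - (desc root k).vy) * (desc root k).vx = 1 := by
            linear_combination hd
          have l2 : ((desc root k).ux - (desc root k).vx) * (desc root k').vy - ((desc root k).uy - (desc root k).vy) * (desc root k').vx = 1 := by
            rw [g1, g2]; linear_combination hd'
          rw [l1, l2]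
        · show (desc root k).vx + (desc root k).vy = (desc root k').vx + (desc root k').vy
          omega
      unfold vv at key
      rw [Prod.mk.injEq] at key
      unfold vec
      apply Prod.ext
      · show (desc root k).ux + (desc root k).vx = (desc root k').ux + (desc root k').vx; omega
      · show (desc root k).uy + (desc root k).vy = (desc root k').uy + (desc root k').vy; omega
    · omega
  · have s1' : ¬ (desc root k').q < (desc root k').p := by
      intro hc
      rw [if_pos hc, if_neg (by omega)] at e1
      omega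
    rcases hs' with ⟨t1, -⟩ | ⟨t1, t2, t3, t4⟩
    · omega
    · rw [min_eq_left s1.le, min_eq_left t1.le] at e4
      have g1 : (desc root k).vx - (desc root k).ux = (desc root k').vx - (desc root k').ux := by omega
      have g2 : (desc root k).vy - (desc root k).uy = (desc root k').vy - (desc root k').uy := by omega
      have key : uu (desc root k) = uu (desc root k') := by
        apply det_unique (w := ((desc root k).vx - (desc root k).ux, (desc root k).vy - (desc root k).uy))
        · show 1 ≤ (desc root k).vx - (desc root k).ux + ((desc root k).vy - (desc root k).uy)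
          omega
        · unfold dt uu
          show ((desc root k).vx - (desc root k).ux) * (desc root k).uy - ((desc root k).vy - (desc root k).uy) * (desc root k).ux =
            ((desc root k).vx - (desc root k).ux) * (desc root k').uy - ((desc root k).vy - (desc root k).uy) * (desc root k').ux
          have l1 : ((desc root k).vx - (desc root k).ux) * (desc root k).uy - ((desc root k).vy - (desc root k).uy) * (desc root k).ux = -1 := by
            linear_combination -hd
          have l2 : ((desc root k).vx - (desc root k).ux) * (desc root k').uy - ((desc root k).vy - (desc root k).uy) * (desc root k').ux = -1 := by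
            rw [g1, g2]; linear_combination -hd'
          rw [l1, l2]
        · show (desc root k).ux + (desc root k).uy = (desc root k').ux + (desc root k').uy
          omega
      unfold uu at key
      rw [Prod.mk.injEq] at key
      unfold vec
      apply Prod.ext
      · show (desc root k).ux + (desc root k).vx = (desc root k').ux + (desc root k').vx; omega
      · show (desc root k).uy + (desc root k).vy = (desc root k').uy + (desc root k').vy; omega

lemma mm_sz (k : List Bool) : 2 * mm k ≤ sz k := by
  have := sz_pq k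
  unfold mm; omega

/-- sums over minimal cones -/
lemma K0_sum {ρ : ℕ} (hρ : 2 ≤ ρ) (B : ℕ) (f : ℕ → ℝ) (hf : ∀ m, 0 ≤ f m) :
    ∑ k ∈ K0 ρ B, f (mm k) ≤ 2 * ρ ^ 2 * ∑ m ∈ Finset.Icc 1 B, f m := by
  classical
  have h1 : ∑ x ∈ (K0 ρ B).image code, f x.2 = ∑ k ∈ K0 ρ B, f (mm k) := by
    rw [Finset.sum_image]
    · rfl
    · intro k hk k' hk' he
      exact code_inj hρ (mem_K0.mp hk).2 (mem_K0.mp hk').2 he
  have h2 : (K0 ρ B).image code ⊆ ((Finset.range 2 ×ˢ Finset.range ρ) ×ˢ Finset.range ρ) ×ˢ Finset.Icc 1 B := by
    intro x hx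
    obtain ⟨k, hk, rfl⟩ := Finset.mem_image.mp hx
    obtain ⟨hk1, hk2⟩ := mem_K0.mp hk
    have hs := Mn_shape hρ hk2
    have hv := valid_root.desc k
    have hp := hv.hp
    have hq := hv.hq
    have := mm_sz k
    have := mm_pos k
    unfold code
    simp only [Finset.mem_product, Finset.mem_range, Finset.mem_Icc]
    refine ⟨⟨⟨?_, ?_⟩, ?_⟩, ?_, ?_⟩
    · split_ifs <;> omega
    · omega
    · omega
    · omega
    · omega
  rw [← h1]
  refine (Finset.sum_le_sum_of_subset_of_nonneg h2 (fun x _ _ => hf _)).trans ?_
  rw [Finset.sum_product]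
  simp only [Finset.sum_const, Finset.card_product, Finset.card_range, nsmul_eq_mul]
  apply le_of_eq
  push_cast
  ring

lemma harm (B : ℕ) : ∑ m ∈ Finset.Icc 1 B, (1 : ℝ) / m ≤ 1 + Real.log B := by
  have h := harmonic_le_one_add_log B
  have e : ((harmonic B : ℚ) : ℝ) = ∑ m ∈ Finset.Icc 1 B, (1 : ℝ) / m := by
    rw [harmonic_eq_sum_Icc]
    push_cast
    apply Finset.sum_congr rfl
    intro m _
    rw [one_div]
  rw [e] at h
  exact h

lemma K0_card {ρ : ℕ} (hρ : 2 ≤ ρ) (B : ℕ) : ((K0 ρ B).card : ℝ) ≤ 2 * ρ ^ 2 * B := by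
  have h := K0_sum hρ B (fun _ => 1) (fun _ => by norm_num)
  simp only [Finset.sum_const, Nat.card_Icc, Nat.add_sub_cancel, nsmul_eq_mul, mul_one] at h
  exact h

lemma K0_inv {ρ : ℕ} (hρ : 2 ≤ ρ) (B : ℕ) : ∑ k ∈ K0 ρ B, (1 : ℝ) / mm k ≤ 2 * ρ ^ 2 * (1 + Real.log B) := by
  have h := K0_sum hρ B (fun m => (1 : ℝ) / m) (fun m => by positivity)
  exact h.trans (mul_le_mul_of_nonneg_left (harm B) (by positivity))

/-- total weight of the pieces -/
theorem W_bound {H ρ S : ℕ} (hρ : 2 ≤ ρ) (hH : 1 ≤ H) (hs : (10 : ℝ) ^ 20 * H ^ 20 ≤ 4 ^ ρ) (hS : 2 * S ≤ H) :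
    ∑ k ∈ PP H ρ S, wt k ≤ 28 * ρ ^ 2 * Real.sqrt S * (1 + Real.log ((2 * S : ℕ) : ℝ)) := by
  classical
  have h1 : ∀ k ∈ PP H ρ S, wt k ≤ ∑ k0 ∈ K0 ρ (2 * S), if k0 <+: k then wt k else 0 := by
    intro k hk
    obtain ⟨hk1, hk2⟩ := mem_PP.mp hk
    obtain ⟨k0, hk0, hm0⟩ := Mn_exists ρ k hk2.1.1
    have hmem : k0 ∈ K0 ρ (2 * S) := mem_K0.mpr ⟨(sz_prefix hk0).trans hk1, hm0⟩
    calc wt k = if k0 <+: k then wt k else 0 := by rw [if_pos hk0]
      _ ≤ _ := Finset.single_le_sum (f := fun k0 => if k0 <+: k then wt k else 0)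
          (fun i _ => by
            show 0 ≤ if i <+: k then wt k else 0
            split_ifs
            · exact wt_nonneg k
            · exact le_rfl) hmem
  have h2 : ∑ k ∈ PP H ρ S, wt k ≤ ∑ k0 ∈ K0 ρ (2 * S), Wt (PP H ρ S) k0 := by
    refine (Finset.sum_le_sum h1).trans ?_
    rw [Finset.sum_comm]
    rfl
  have h3 : ∀ k0 ∈ K0 ρ (2 * S), Wt (PP H ρ S) k0 ≤ 14 * Real.sqrt S * (1 / mm k0) := by
    intro k0 hk0
    obtain ⟨g1, g2⟩ := mem_K0.mp hk0
    have hmm := mm_pos k0
    have hsz := mm_sz k0
    have g3 := pot_ind hH hs hS (mm k0) hmm (2 * S + 1) k0 g2.1 (by unfold mm; omega) (by unfold mm; omega) (by omega) (by omega)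
    refine g3.trans ?_
    have hm0 : (0 : ℝ) < mm k0 := by exact_mod_cast hmm
    have hS0 : (mm k0 : ℝ) ≤ S := by exact_mod_cast (by omega : mm k0 ≤ S)
    have e1 : 0 ≤ Real.sqrt (desc root k0).p := Real.sqrt_nonneg _
    have e2 : 0 ≤ Real.sqrt (desc root k0).q := Real.sqrt_nonneg _
    have e3 : 3 / (mm k0 : ℝ) * (4 * Real.sqrt S - Real.sqrt (desc root k0).p - Real.sqrt (desc root k0).q) ≤
        3 / (mm k0 : ℝ) * (4 * Real.sqrt S) := mul_le_mul_of_nonneg_left (by linarith) (by positivity)
    have e4 : 2 / Real.sqrt (mm k0) ≤ 2 * Real.sqrt S * (1 / mm k0) := by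
      have hsq : 0 < Real.sqrt (mm k0) := Real.sqrt_pos.mpr hm0
      have hle : Real.sqrt (mm k0) ≤ Real.sqrt S := Real.sqrt_le_sqrt hS0
      have hss : Real.sqrt (mm k0) * Real.sqrt (mm k0) = mm k0 := Real.mul_self_sqrt hm0.le
      rw [mul_one_div, div_le_div_iff₀ hsq hm0]
      nlinarith
    have e5 : 3 / (mm k0 : ℝ) * (4 * Real.sqrt S) = 12 * Real.sqrt S * (1 / mm k0) := by ring
    linarith
  refine h2.trans ((Finset.sum_le_sum h3).trans ?_)
  rw [← Finset.mul_sum]
  have h4 := K0_inv hρ (2 * S)
  calc 14 * Real.sqrt S * ∑ k ∈ K0 ρ (2 * S), (1 : ℝ) / mm k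
      ≤ 14 * Real.sqrt S * (2 * ρ ^ 2 * (1 + Real.log ((2 * S : ℕ) : ℝ))) :=
        mul_le_mul_of_nonneg_left h4 (by positivity)
    _ = _ := by ring

end

end Pool.Agent.TH880.MK
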