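import Mathlib
import Pool.Agent.TH880.MK.M13

set_option autoImplicit false

namespace Pool.Agent.TH880.MK

open Pool.Agent.H499R2

noncomputable section

open scoped Classical in
/-- words outside all pieces -/
def BadL (H ρ S : ℕ) : Finset (List Bool) := (SW H).filter (fun l => ¬ ∃ k, k ∈ PP H ρ S ∧ k <+: l)

lemma mem_BadL {H ρ S : ℕ} {l : List Bool} :
    l ∈ BadL H ρ S ↔ sz l ≤ H ∧ ¬ ∃ k, k ∈ PP H ρ S ∧ k <+: l := by
  classical
  unfold BadL; rw [Finset.mem_filter, mem_SW]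

lemma bad_zero {H ρ S : ℕ} {i : List Bool} (h : GI H ρ i) (hi : sz i ≤ 2 * S) : cnt (BadL H ρ S) i = 0 := by
  unfold cnt
  rw [Finset.card_eq_zero, Finset.filter_eq_empty_iff]
  intro l hl hp
  obtain ⟨k', hk', hm⟩ := MnG_exists i.length i le_rfl h
  exact (mem_BadL.mp hl).2 ⟨k', mem_PP.mpr ⟨(sz_prefix hk').trans hi, hm⟩, hk'.trans hp⟩

lemma sz_two (i : List Bool) (b : Bool) : sz (i ++ [b]) ≤ 2 * sz i := by
  have hv := valid_root.desc i
  have hp := hv.p1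
  have hq := hv.q1
  rw [← sz_pq, ← sz_pq, desc_snoc]
  cases b
  · show ((desc root i).p + (desc root i).q) + (desc root i).q ≤ 2 * ((desc root i).p + (desc root i).q)
    omega
  · show (desc root i).p + ((desc root i).p + (desc root i).q) ≤ 2 * ((desc root i).p + (desc root i).q)
    omega

lemma bad_leaf {H ρ S : ℕ} (hS1 : 1 ≤ S) {m0 : ℕ} (hm0 : 1 ≤ m0) {i : List Bool}
    (hp : m0 ≤ (desc root i).p) (hq : m0 ≤ (desc root i).q) (hi : S < sz i) :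
    (cnt (BadL H ρ S) i : ℝ) ≤ 2 * (H : ℝ) ^ 2 / (m0 * S) := by
  have h1 := cnt_leaf (BadL H ρ S) H (fun l hl => (mem_BadL.mp hl).1) i
  have hsz := sz_pq i
  have h2 : m0 * S ≤ 2 * ((desc root i).p * (desc root i).q) := by
    rcases le_total (desc root i).p (desc root i).q with h | h
    · calc m0 * S ≤ (desc root i).p * (2 * (desc root i).q) := Nat.mul_le_mul hp (by omega)
        _ = _ := by ring
    · calc m0 * S ≤ (desc root i).q * (2 * (desc root i).p) := Nat.mul_le_mul hq (by omega)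
        _ = _ := by ring
  have h3 : cnt (BadL H ρ S) i * (m0 * S) ≤ 2 * H ^ 2 := by
    calc cnt (BadL H ρ S) i * (m0 * S) ≤ cnt (BadL H ρ S) i * (2 * ((desc root i).p * (desc root i).q)) :=
          Nat.mul_le_mul_left _ h2
      _ = 2 * (cnt (BadL H ρ S) i * ((desc root i).p * (desc root i).q)) := by ring
      _ ≤ 2 * H ^ 2 := Nat.mul_le_mul_left _ h1
  have hm0' : (0 : ℝ) < m0 := by exact_mod_cast hm0
  have hS' : (0 : ℝ) < S := by exact_mod_cast hS1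
  rw [le_div_iff₀ (by positivity)]
  exact_mod_cast h3

lemma bad_ind {H ρ S : ℕ} (hH : 1 ≤ H) (hs : (10 : ℝ) ^ 20 * H ^ 20 ≤ 4 ^ ρ) (hS1 : 1 ≤ S) (hS : S ≤ H)
    {m0 : ℕ} (hm0 : 1 ≤ m0) (n : ℕ) :
    ∀ i, Big ρ i → m0 ≤ (desc root i).p → m0 ≤ (desc root i).q → S < sz i + n →
      (cnt (BadL H ρ S) i : ℝ) ≤ n + 2 * (H : ℝ) ^ 2 / (m0 * S) := by
  have hm0' : (0 : ℝ) < m0 := by exact_mod_cast hm0
  have hS' : (0 : ℝ) < S := by exact_mod_cast hS1
  induction n with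
  | zero =>
    intro i hB hp hq hi
    have := bad_leaf (H := H) (ρ := ρ) hS1 hm0 hp hq (by omega : S < sz i)
    push_cast
    linarith
  | succ n ih =>
    intro i hB hp hq hi
    by_cases hlt : S < sz i
    · have := bad_leaf (H := H) (ρ := ρ) hS1 hm0 hp hq hlt
      have hn : (0 : ℝ) ≤ ((n + 1 : ℕ) : ℝ) := by positivity
      linarith
    · have hrec := cnt_rec (BadL H ρ S) i
      have hle1 : (if i ∈ BadL H ρ S then 1 else 0) ≤ 1 := by split_ifs <;> omega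
      have pt' := pq_prefix (List.prefix_append i [true])
      have pf' := pq_prefix (List.prefix_append i [false])
      have Bt : Big ρ (i ++ [true]) := ⟨hB.1.trans pt'.1, hB.2.trans pt'.2⟩
      have Bf : Big ρ (i ++ [false]) := ⟨hB.1.trans pf'.1, hB.2.trans pf'.2⟩
      have st := (sz_child i true).1
      have sf := (sz_child i false).1
      have dt' := sz_two i true
      have df' := sz_two i false
      rcases one_side hH hs hB (by omega) with hI | hI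
      · have z := bad_zero (S := S) (show GI H ρ (i ++ [true]) from ⟨Bt, hI⟩) (by omega)
        have g := ih (i ++ [false]) Bf (hp.trans pf'.1) (hq.trans pf'.2) (by omega)
        have h2 : cnt (BadL H ρ S) i ≤ 1 + cnt (BadL H ρ S) (i ++ [false]) := by omega
        have h3 : (cnt (BadL H ρ S) i : ℝ) ≤ 1 + cnt (BadL H ρ S) (i ++ [false]) := by exact_mod_cast h2
        push_cast
        linarith
      · have z := bad_zero (S := S) (show GI H ρ (i ++ [false]) from ⟨Bf, hI⟩) (by omega)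
        have g := ih (i ++ [true]) Bt (hp.trans pt'.1) (hq.trans pt'.2) (by omega)
        have h2 : cnt (BadL H ρ S) i ≤ 1 + cnt (BadL H ρ S) (i ++ [true]) := by omega
        have h3 : (cnt (BadL H ρ S) i : ℝ) ≤ 1 + cnt (BadL H ρ S) (i ++ [true]) := by exact_mod_cast h2
        push_cast
        linarith

/-- number of words outside the pieces -/
theorem BadL_card {H ρ S : ℕ} (hρ : 2 ≤ ρ) (hρS : 2 * ρ ≤ S) (hH : 1 ≤ H) (hs : (10 : ℝ) ^ 20 * H ^ 20 ≤ 4 ^ ρ)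
    (hS : S ≤ H) :
    ((BadL H ρ S).card : ℝ) ≤ 3 * ρ ^ 2 * (H + 1) + ρ ^ 2 * (8 * H / S + 1) * (H + 1) +
      2 * ρ ^ 2 * S * (S + 1) + 4 * ρ ^ 2 * (1 + Real.log S) * H ^ 2 / S := by
  classical
  have hS1 : 1 ≤ S := by omega
  have hS' : (0 : ℝ) < S := by exact_mod_cast hS1
  have hcover : BadL H ρ S ⊆ (Bad1 H ρ ∪ Bad2 H ρ S) ∪
      (K0 ρ S).biUnion (fun k => (BadL H ρ S).filter (fun l => k <+: l)) := by
    intro l hl
    obtain ⟨hl1, hl2⟩ := mem_BadL.mp hl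
    rw [Finset.mem_union, Finset.mem_union]
    by_cases hB : Big ρ l
    · obtain ⟨k0, hk0, hm⟩ := Mn_exists ρ l hB
      by_cases hsz : S ≤ sz k0
      · exact Or.inl (Or.inr (mem_Bad2.mpr ⟨hl1, k0, hk0, hm, hsz⟩))
      · right
        rw [Finset.mem_biUnion]
        exact ⟨k0, mem_K0.mpr ⟨by omega, hm⟩, Finset.mem_filter.mpr ⟨hl, hk0⟩⟩
    · exact Or.inl (Or.inl (mem_Bad1.mpr ⟨hl1, hB⟩))
  have h1 := Finset.card_le_card hcover
  have h2 := Finset.card_union_le (Bad1 H ρ ∪ Bad2 H ρ S)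
    ((K0 ρ S).biUnion (fun k => (BadL H ρ S).filter (fun l => k <+: l)))
  have h3 := Finset.card_union_le (Bad1 H ρ) (Bad2 H ρ S)
  have h4 : ((K0 ρ S).biUnion (fun k => (BadL H ρ S).filter (fun l => k <+: l))).card ≤
      ∑ k ∈ K0 ρ S, cnt (BadL H ρ S) k := Finset.card_biUnion_le
  have h5 := Bad1_card H ρ
  have h6 := Bad2_card H ρ S hρ hρS
  have h7 : (BadL H ρ S).card ≤ 3 * ρ ^ 2 * (H + 1) + ρ ^ 2 * (2 * (4 * H / S) + 1) * (H + 1) +
      ∑ k ∈ K0 ρ S, cnt (BadL H ρ S) k := by omega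
  have h8 : ((BadL H ρ S).card : ℝ) ≤ 3 * ρ ^ 2 * (H + 1) + ρ ^ 2 * (2 * ((4 * H / S : ℕ) : ℝ) + 1) * (H + 1) +
      ∑ k ∈ K0 ρ S, (cnt (BadL H ρ S) k : ℝ) := by exact_mod_cast h7
  have h9 : ((4 * H / S : ℕ) : ℝ) ≤ 4 * H / S := by
    have := @Nat.cast_div_le ℝ _ _ _ (4 * H) S
    push_cast at this
    exact this
  have h10 : ∀ k ∈ K0 ρ S, (cnt (BadL H ρ S) k : ℝ) ≤ ((S : ℝ) + 1) + 2 * (H : ℝ) ^ 2 / S * (1 / mm k) := by
    intro k hk
    obtain ⟨g1, g2⟩ := mem_K0.mp hk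
    have hmm := mm_pos k
    have g3 := bad_ind hH hs hS1 hS hmm (S + 1) k g2.1 (by unfold mm; omega) (by unfold mm; omega) (by omega)
    have hm0 : (0 : ℝ) < mm k := by exact_mod_cast hmm
    have e1 : 2 * (H : ℝ) ^ 2 / ((mm k : ℝ) * S) = 2 * (H : ℝ) ^ 2 / S * (1 / mm k) := by
      rw [mul_comm (mm k : ℝ), ← div_div, div_eq_mul_one_div (2 * (H : ℝ) ^ 2 / S)]
    rw [e1] at g3
    push_cast at g3
    exact g3
  have h11 : ∑ k ∈ K0 ρ S, (cnt (BadL H ρ S) k : ℝ) ≤ 2 * ρ ^ 2 * S * (S + 1) + 4 * ρ ^ 2 * (1 + Real.log S) * H ^ 2 / S := by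
    refine (Finset.sum_le_sum h10).trans ?_
    rw [Finset.sum_add_distrib, ← Finset.mul_sum, Finset.sum_const, nsmul_eq_mul]
    have e1 := K0_card hρ S
    have e2 := K0_inv hρ S
    have e3 : ((K0 ρ S).card : ℝ) * ((S : ℝ) + 1) ≤ 2 * ρ ^ 2 * S * (S + 1) :=
      mul_le_mul_of_nonneg_right e1 (by positivity)
    have e4 : 2 * (H : ℝ) ^ 2 / S * ∑ k ∈ K0 ρ S, (1 : ℝ) / mm k ≤ 2 * (H : ℝ) ^ 2 / S * (2 * ρ ^ 2 * (1 + Real.log S)) :=
      mul_le_mul_of_nonneg_left e2 (by positivity)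
    have e5 : 2 * (H : ℝ) ^ 2 / S * (2 * ρ ^ 2 * (1 + Real.log S)) = 4 * ρ ^ 2 * (1 + Real.log S) * H ^ 2 / S := by ring
    linarith
  have h12 : (ρ : ℝ) ^ 2 * (2 * ((4 * H / S : ℕ) : ℝ) + 1) * (H + 1) ≤ ρ ^ 2 * (8 * H / S + 1) * (H + 1) := by
    apply mul_le_mul_of_nonneg_right _ (by positivity)
    apply mul_le_mul_of_nonneg_left _ (by positivity)
    have : 8 * (H : ℝ) / S = 2 * (4 * H / S) := by ring
    linarith
  linarith

/-- a bound for the size of a set from two sides -/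
lemma wt_two {k k' : List Bool} {x Q : ℝ} (hQ : 0 ≤ Q) (h1 : x ≤ Q / mm k) (h2 : x ≤ Q / mm k') (hx : 0 ≤ x) :
    x ≤ Q * (wt k * wt k') := by
  have hm : (0 : ℝ) < mm k := by exact_mod_cast mm_pos k
  have hm' : (0 : ℝ) < mm k' := by exact_mod_cast mm_pos k'
  have hw := wt_nonneg k
  have hw' := wt_nonneg k'
  have e1 : wt k ^ 2 = 1 / mm k := by
    unfold wt; rw [div_pow, Real.sq_sqrt hm.le, one_pow]
  have e2 : wt k' ^ 2 = 1 / mm k' := by
    unfold wt; rw [div_pow, Real.sq_sqrt hm'.le, one_pow]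
  have h3 : x ^ 2 ≤ (Q * (wt k * wt k')) ^ 2 := by
    calc x ^ 2 = x * x := sq x
      _ ≤ (Q / mm k) * (Q / mm k') := mul_le_mul h1 h2 hx (by positivity)
      _ = Q ^ 2 * (1 / mm k * (1 / mm k')) := by ring
      _ = (Q * (wt k * wt k')) ^ 2 := by rw [← e1, ← e2]; ring
  exact le_of_sq_le_sq h3 (by positivity)

theorem NU_bound {H ρ S : ℕ} (hH : 2 ≤ H) (hρ : 1 ≤ ρ) (hs : (10 : ℝ) ^ 20 * H ^ 20 ≤ 4 ^ ρ) (hS : 2 * S ≤ H)
    (D : ℝ) (hD : ∀ N : ℕ, N ≠ 0 → N ≤ H ^ 4 → (N.divisors.card : ℝ) ≤ D) (hD0 : 0 ≤ D) :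
    ((NU H).card : ℝ) ≤ 2 * (BadL H ρ S).card + 4 * (18 * D + 1) * H * (∑ k ∈ PP H ρ S, wt k) ^ 2 := by
  classical
  set Bd := BadL H ρ S with hBd
  set S1 := (SW H).filter (fun l => l ∉ Bd ∧ ∃ l', sz l' ≤ H ∧ l' ∉ Bd ∧ l' ≠ l ∧ FF l' = FF l) with hS1
  set S2 := (SW H).filter (fun l => l ∉ Bd ∧ (∃ l', l' ∈ Bd ∧ FF l' = FF l) ∧
    ¬ ∃ l', sz l' ≤ H ∧ l' ∉ Bd ∧ l' ≠ l ∧ FF l' = FF l) with hS2
  have hcover : NU H ⊆ (Bd ∪ S2) ∪ S1 := by
    intro l hl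
    obtain ⟨hl1, l', h1, h2, h3⟩ := mem_NU.mp hl
    rw [Finset.mem_union, Finset.mem_union]
    by_cases hb : l ∈ Bd
    · exact Or.inl (Or.inl hb)
    · by_cases hex : ∃ l', sz l' ≤ H ∧ l' ∉ Bd ∧ l' ≠ l ∧ FF l' = FF l
      · right
        rw [hS1, Finset.mem_filter, mem_SW]
        exact ⟨hl1, hb, hex⟩
      · left; right
        rw [hS2, Finset.mem_filter, mem_SW]
        refine ⟨hl1, hb, ⟨l', ?_, h3⟩, hex⟩
        by_contra hb'
        exact hex ⟨l', h1, hb', h2, h3⟩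
  have c2 : S2.card ≤ Bd.card := by
    have hch : ∀ l ∈ S2, ∃ l', l' ∈ Bd ∧ FF l' = FF l := by
      intro l hl
      rw [hS2, Finset.mem_filter] at hl
      exact hl.2.2.1
    choose! ψ hψ1 hψ2 using hch
    apply Finset.card_le_card_of_injOn ψ (fun l hl => hψ1 l hl)
    intro a ha b hb hab
    by_contra hne
    have hfa := hψ2 a ha
    have hfb := hψ2 b hb
    have ha' := ha
    have hb' := hb
    simp only [hS2, Finset.coe_filter, Set.mem_ofPred_eq, mem_SW] at ha' hb'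
    apply ha'.2.2.2
    exact ⟨b, hb'.1, hb'.2.1, Ne.symm hne, by rw [← hfb, ← hab, hfa]⟩
  -- the main part
  have hch : ∀ l ∈ S1, ∃ l', sz l' ≤ H ∧ l' ∉ Bd ∧ l' ≠ l ∧ FF l' = FF l := by
    intro l hl
    rw [hS1, Finset.mem_filter] at hl
    exact hl.2.2
  choose! φ hφ1 hφ2 hφ3 hφ4 using hch
  have hK : ∀ l, sz l ≤ H → l ∉ Bd → ∃ k, k ∈ PP H ρ S ∧ k <+: l := by
    intro l h1 h2
    by_contra hno
    exact h2 (mem_BadL.mpr ⟨h1, hno⟩)
  choose! K hK1 hK2 using hK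
  have hS1m : ∀ l ∈ S1, sz l ≤ H ∧ l ∉ Bd := by
    intro l hl
    rw [hS1, Finset.mem_filter, mem_SW] at hl
    exact ⟨hl.1, hl.2.1⟩
  have hmaps : ∀ l ∈ S1, (K l, K (φ l)) ∈ PP H ρ S ×ˢ PP H ρ S := by
    intro l hl
    obtain ⟨g1, g2⟩ := hS1m l hl
    rw [Finset.mem_product]
    exact ⟨hK1 l g1 g2, hK1 (φ l) (hφ1 l hl) (hφ2 l hl)⟩
  obtain ⟨Q, hQ⟩ : ∃ Q : ℝ, Q = 4 * (18 * D + 1) * H := ⟨_, rfl⟩
  have hQ0 : 0 ≤ Q := by rw [hQ]; positivity
  have hH0 : (0 : ℝ) < H := by exact_mod_cast (by omega : 0 < H)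
  have fromN : ∀ (x : ℕ) (k : List Bool), k ∈ PP H ρ S →
      (∃ N : ℕ, N ≠ 0 ∧ N ≤ H ^ 4 ∧ x ≤ 2 * (18 * N.divisors.card + 1) * (H / mm k + 1)) → (x : ℝ) ≤ Q / mm k := by
    rintro x k hk ⟨N, hN0, hN1, hN2⟩
    obtain ⟨g1, -⟩ := mem_PP.mp hk
    have hmm := mm_pos k
    have hsz := mm_sz k
    have hm0 : (0 : ℝ) < mm k := by exact_mod_cast hmm
    have hmH : (mm k : ℝ) ≤ H := by exact_mod_cast (by omega : mm k ≤ H)
    have h1 : (x : ℝ) ≤ 2 * (18 * N.divisors.card + 1) * (((H / mm k : ℕ) : ℝ) + 1) := by exact_mod_cast hN2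
    have h2 : ((H / mm k : ℕ) : ℝ) ≤ H / mm k := Nat.cast_div_le
    have h3 : (1 : ℝ) ≤ H / mm k := by rw [one_le_div hm0]; exact hmH
    have h4 := hD N hN0 hN1
    calc (x : ℝ) ≤ 2 * (18 * N.divisors.card + 1) * (((H / mm k : ℕ) : ℝ) + 1) := h1
      _ ≤ 2 * (18 * D + 1) * (2 * (H / mm k)) := by
          apply mul_le_mul _ (by linarith) (by positivity) (by positivity)
          apply mul_le_mul_of_nonneg_left _ (by norm_num)
          linarith
      _ = Q / mm k := by rw [hQ]; ring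
  have c1 : (S1.card : ℝ) ≤ Q * (∑ k ∈ PP H ρ S, wt k) ^ 2 := by
    have e1 := Finset.card_eq_sum_card_fiberwise (f := fun l => (K l, K (φ l))) (s := S1) (t := PP H ρ S ×ˢ PP H ρ S)
      (fun l hl => hmaps l hl)
    have e2 : (S1.card : ℝ) = ∑ b ∈ PP H ρ S ×ˢ PP H ρ S, ((S1.filter (fun l => (K l, K (φ l)) = b)).card : ℝ) := by
      exact_mod_cast e1
    rw [e2]
    have e3 : ∀ b ∈ PP H ρ S ×ˢ PP H ρ S, ((S1.filter (fun l => (K l, K (φ l)) = b)).card : ℝ) ≤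
        Q * (wt b.1 * wt b.2) := by
      rintro ⟨k, k'⟩ hkk
      rw [Finset.mem_product] at hkk
      obtain ⟨hk, hk'⟩ := hkk
      simp only at hk hk'
      set X := S1.filter (fun l => (K l, K (φ l)) = (k, k')) with hX
      obtain ⟨g1, g2⟩ := mem_PP.mp hk
      obtain ⟨g1', g2'⟩ := mem_PP.mp hk'
      have hb := big_sq g2.1.1
      have hb' := big_sq g2'.1.1
      have hyp : HypL H (4 ^ ρ) k k' (fun l l' => l ∈ X ∧ l' = φ l) := by
        refine ⟨hs, hb.1, hb.2, hb'.1, hb'.2, g2.1.2, g2'.1.2, ?_⟩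
        rintro l l' ⟨hl, rfl⟩
        rw [hX, Finset.mem_filter] at hl
        obtain ⟨w1, w2⟩ := hS1m l hl.1
        have ek1 : K l = k := congrArg Prod.fst hl.2
        have ek1' : K (φ l) = k' := congrArg Prod.snd hl.2
        refine ⟨?_, ?_, w1, hφ1 l hl.1, hφ4 l hl.1⟩
        · rw [← ek1]; exact hK2 l w1 w2
        · rw [← ek1']; exact hK2 (φ l) (hφ1 l hl.1) (hφ2 l hl.1)
      have hne : ∀ l ∈ X, φ l ≠ l := by
        intro l hl
        rw [hX, Finset.mem_filter] at hl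
        exact hφ3 l hl.1
      have f1 := pair_first hH X φ hyp hne (mm k) (mm_pos k) (by unfold mm; omega) (by unfold mm; omega)
      have f2 := pair_second hH X φ hyp hne (mm k') (mm_pos k') (by unfold mm; omega) (by unfold mm; omega)
      exact wt_two hQ0 (fromN _ k hk f1) (fromN _ k' hk' f2) (by positivity)
    refine (Finset.sum_le_sum e3).trans ?_
    rw [← Finset.mul_sum, Finset.sum_product, sq, Finset.sum_mul_sum]
  have h6 := Finset.card_le_card hcover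
  have h7 := Finset.card_union_le (Bd ∪ S2) S1
  have h8 := Finset.card_union_le Bd S2
  have h9 : (NU H).card ≤ 2 * Bd.card + S1.card := by omega
  have h10 : ((NU H).card : ℝ) ≤ 2 * Bd.card + S1.card := by exact_mod_cast h9
  rw [hQ] at c1
  linarith

end

end Pool.Agent.TH880.MK
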