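import Mathlib
import Pool.Agent.TH880.MK.M14
import Pool.Agent.H499R2.Dens15

set_option autoImplicit false

namespace Pool.Agent.TH880.MK

open Pool.Agent.H499R2

noncomputable section

/-- The divisor bound `d(n) ≤ C n^δ`. -/
lemma div_bound (δ : ℝ) (hδ : 0 < δ) :
    ∃ C : ℝ, 0 < C ∧ ∀ n : ℕ, n ≠ 0 → ((n.divisors.card : ℕ) : ℝ) ≤ C * (n : ℝ) ^ δ := by
  have hlog : 0 < Real.log 2 := Real.log_pos (by norm_num)
  have hδl : 0 < δ * Real.log 2 := mul_pos hδ hlog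
  set M : ℝ := max 1 (1 / (δ * Real.log 2)) with hM
  have hM1 : 1 ≤ M := le_max_left _ _
  have hM2 : 1 ≤ M * (δ * Real.log 2) := by
    have : 1 / (δ * Real.log 2) ≤ M := le_max_right _ _
    calc (1 : ℝ) = 1 / (δ * Real.log 2) * (δ * Real.log 2) := by
          field_simp
      _ ≤ M * (δ * Real.log 2) := mul_le_mul_of_nonneg_right this hδl.le
  set K : ℕ := ⌈(2 : ℝ) ^ (1 / δ)⌉₊ with hK
  have hKle : (2 : ℝ) ^ (1 / δ) ≤ (K : ℝ) := Nat.le_ceil _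
  refine ⟨M ^ K, by positivity, ?_⟩
  intro n hn
  have hbase : ∀ p ∈ n.primeFactors, (((n.factorization p + 1 : ℕ)) : ℝ) ≤
      (if p < K then M else 1) * (((p : ℝ) ^ (n.factorization p)) ^ δ) := by
    intro p hp
    have hpp : p.Prime := Nat.prime_of_mem_primeFactors hp
    set a := n.factorization p with ha
    have hp2 : (2 : ℝ) ≤ (p : ℝ) := by exact_mod_cast hpp.two_le
    have hp0 : (0 : ℝ) ≤ (p : ℝ) := by positivity
    have hpow : (((p : ℝ) ^ a) ^ δ) = ((p : ℝ) ^ δ) ^ a := by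
      rw [← Real.rpow_natCast (p : ℝ) a, ← Real.rpow_mul hp0, ← Real.rpow_natCast ((p : ℝ) ^ δ) a,
        ← Real.rpow_mul hp0, mul_comm]
    rw [hpow]
    split_ifs with hlt
    · have h1 : (2 : ℝ) ^ δ ≤ (p : ℝ) ^ δ := Real.rpow_le_rpow (by norm_num) hp2 hδ.le
      have h2 : ((2 : ℝ) ^ δ) ^ a ≤ ((p : ℝ) ^ δ) ^ a :=
        pow_le_pow_left₀ (by positivity) h1 a
      have h3 : 1 + (a : ℝ) * (δ * Real.log 2) ≤ ((2 : ℝ) ^ δ) ^ a := by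
        have : ((2 : ℝ) ^ δ) ^ a = Real.exp ((a : ℝ) * (δ * Real.log 2)) := by
          rw [← Real.rpow_natCast, ← Real.rpow_mul (by norm_num), Real.rpow_def_of_pos (by norm_num)]
          congr 1; ring
        rw [this]
        have := Real.add_one_le_exp ((a : ℝ) * (δ * Real.log 2))
        linarith
      have h4 : (((a + 1 : ℕ)) : ℝ) ≤ M * (1 + (a : ℝ) * (δ * Real.log 2)) := by
        push_cast
        have ha0 : (0 : ℝ) ≤ (a : ℝ) := by positivity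
        nlinarith [mul_le_mul_of_nonneg_left hM2 ha0]
      calc (((a + 1 : ℕ)) : ℝ) ≤ M * (1 + (a : ℝ) * (δ * Real.log 2)) := h4
        _ ≤ M * (((p : ℝ) ^ δ) ^ a) :=
          mul_le_mul_of_nonneg_left (h3.trans h2) (by linarith)
    · have hKp : (K : ℝ) ≤ (p : ℝ) := by exact_mod_cast not_lt.mp hlt
      have h1 : (2 : ℝ) ≤ (p : ℝ) ^ δ := by
        have h5 : ((2 : ℝ) ^ (1 / δ)) ^ δ ≤ (p : ℝ) ^ δ :=
          Real.rpow_le_rpow (by positivity) (hKle.trans hKp) hδ.le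
        have h6 : ((2 : ℝ) ^ (1 / δ)) ^ δ = 2 := by
          rw [← Real.rpow_mul (by norm_num)]
          rw [one_div, inv_mul_cancel₀ hδ.ne', Real.rpow_one]
        rwa [h6] at h5
      have h2 : (2 : ℝ) ^ a ≤ ((p : ℝ) ^ δ) ^ a := pow_le_pow_left₀ (by norm_num) h1 a
      have h3 : (((a + 1 : ℕ)) : ℝ) ≤ (2 : ℝ) ^ a := by
        have : a + 1 ≤ 2 ^ a := Nat.lt_two_pow_self
        exact_mod_cast this
      rw [one_mul]
      exact h3.trans h2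
  have hn' : (n : ℝ) ^ δ = ∏ p ∈ n.primeFactors, (((p : ℝ) ^ (n.factorization p)) ^ δ) := by
    rw [Real.finsetProd_rpow _ _ (fun i _ => by positivity)]
    congr 1
    have := Nat.prod_factorization_pow_eq_self hn
    conv_lhs => rw [← this]
    rw [Finsupp.prod]
    push_cast
    rfl
  rw [Nat.card_divisors hn]
  push_cast
  calc (∏ p ∈ n.primeFactors, ((n.factorization p : ℝ) + 1))
      ≤ ∏ p ∈ n.primeFactors, ((if p < K then M else 1) * (((p : ℝ) ^ (n.factorization p)) ^ δ)) := by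
        apply Finset.prod_le_prod
        · intro i _; positivity
        · intro i hi
          have := hbase i hi
          push_cast at this
          exact this
    _ = (∏ p ∈ n.primeFactors, (if p < K then M else 1)) * (n : ℝ) ^ δ := by
        rw [Finset.prod_mul_distrib, hn']
    _ ≤ M ^ K * (n : ℝ) ^ δ := by
        apply mul_le_mul_of_nonneg_right _ (by positivity)
        rw [Finset.prod_ite, Finset.prod_const, Finset.prod_const_one, mul_one]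
        apply pow_le_pow_right₀ hM1
        calc (n.primeFactors.filter (fun p => p < K)).card ≤ (Finset.range K).card := by
              apply Finset.card_le_card
              intro x hx
              simp only [Finset.mem_filter] at hx
              exact Finset.mem_range.mpr hx.2
          _ = K := Finset.card_range K

lemma NU_mono {H H' : ℕ} (h : H ≤ H') : NU H ⊆ NU H' := by
  intro l hl
  obtain ⟨h1, l', h2, h3, h4⟩ := mem_NU.mp hl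
  exact mem_NU.mpr ⟨h1.trans h, l', h2.trans h, h3, h4⟩

lemma NU_triv (H : ℕ) : ((NU H).card : ℝ) ≤ (H : ℝ) ^ 2 := by
  classical
  have h7 : (NU H).card ≤ (SW H).card := by
    unfold NU; exact Finset.card_filter_le _ _
  have h8 := card_SW H
  exact_mod_cast (show (NU H).card ≤ H ^ 2 by omega)

lemma exp80 : (10 : ℝ) ^ 20 ≤ Real.exp 80 := by
  have h1 : (2.7 : ℝ) ≤ Real.exp 1 := by have := Real.exp_one_gt_d9; linarith
  have h2 : Real.exp 80 = (Real.exp 1) ^ 80 := by rw [← Real.exp_nat_mul]; norm_num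
  rw [h2]
  calc (10 : ℝ) ^ 20 ≤ 2.7 ^ 80 := by norm_num
    _ ≤ _ := pow_le_pow_left₀ (by norm_num) h1 _

/-- the size of the parameter -/
lemma rho_ok {S : ℕ} (hS : 40000 ≤ S) {L : ℝ} (hL : L = 2 + Real.log S) :
    (10 : ℝ) ^ 20 * ((S ^ 2 : ℕ) : ℝ) ^ 20 ≤ 4 ^ ⌈40 * L⌉₊ ∧ (⌈40 * L⌉₊ : ℝ) ≤ 41 * L ∧ 2 ≤ ⌈40 * L⌉₊ ∧
      2 * ⌈40 * L⌉₊ ≤ S ∧ 2 ≤ L := by
  have hSr : (40000 : ℝ) ≤ S := by exact_mod_cast hS
  have hS0 : (0 : ℝ) < S := by linarith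
  have hlog : 0 ≤ Real.log S := Real.log_nonneg (by linarith)
  have hL2 : 2 ≤ L := by rw [hL]; linarith
  have hle : 40 * L ≤ ⌈40 * L⌉₊ := Nat.le_ceil _
  have hge : (⌈40 * L⌉₊ : ℝ) < 40 * L + 1 := Nat.ceil_lt_add_one (by linarith)
  have hup : (⌈40 * L⌉₊ : ℝ) ≤ 41 * L := by linarith
  refine ⟨?_, hup, ?_, ?_, hL2⟩
  · have h4 : (4 : ℝ) ^ ⌈40 * L⌉₊ = Real.exp ((⌈40 * L⌉₊ : ℝ) * Real.log 4) := by
      rw [Real.exp_nat_mul, Real.exp_log (by norm_num)]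
    have hl4 : 1 ≤ Real.log 4 := by
      rw [Real.le_log_iff_exp_le (by norm_num)]
      have := Real.exp_one_lt_d9; linarith
    have h5 : 80 + 40 * Real.log S ≤ (⌈40 * L⌉₊ : ℝ) * Real.log 4 := by
      have : 40 * L * 1 ≤ (⌈40 * L⌉₊ : ℝ) * Real.log 4 := mul_le_mul hle hl4 (by norm_num) (by positivity)
      have e : 40 * L * 1 = 80 + 40 * Real.log S := by rw [hL]; ring
      linarith
    have h6 : Real.exp (40 * Real.log S) = (S : ℝ) ^ 40 := by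
      have : (40 : ℝ) * Real.log S = ((40 : ℕ) : ℝ) * Real.log S := by norm_num
      rw [this, Real.exp_nat_mul, Real.exp_log hS0]
    have h7 : ((S ^ 2 : ℕ) : ℝ) ^ 20 = (S : ℝ) ^ 40 := by push_cast; rw [← pow_mul]
    rw [h4, h7]
    calc (10 : ℝ) ^ 20 * (S : ℝ) ^ 40 ≤ Real.exp 80 * (S : ℝ) ^ 40 := mul_le_mul_of_nonneg_right exp80 (by positivity)
      _ = Real.exp (80 + 40 * Real.log S) := by rw [Real.exp_add, h6]
      _ ≤ _ := Real.exp_le_exp.mpr h5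
  · have : (2 : ℝ) ≤ ⌈40 * L⌉₊ := by linarith
    exact_mod_cast this
  · have hsq0 : 0 < Real.sqrt S := Real.sqrt_pos.mpr hS0
    have hsq : Real.sqrt S * Real.sqrt S = S := Real.mul_self_sqrt hS0.le
    have hl : Real.log S = 2 * Real.log (Real.sqrt S) := by
      conv_lhs => rw [← hsq]
      rw [Real.log_mul hsq0.ne' hsq0.ne']; ring
    have hl2 : Real.log (Real.sqrt S) ≤ Real.sqrt S - 1 := Real.log_le_sub_one_of_pos hsq0
    have h200 : 200 ≤ Real.sqrt S := by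
      rw [show (200 : ℝ) = Real.sqrt (200 ^ 2) by rw [Real.sqrt_sq (by norm_num)]]
      apply Real.sqrt_le_sqrt
      norm_num; linarith
    have h9 : 2 * (⌈40 * L⌉₊ : ℝ) ≤ S := by
      have : 2 * (⌈40 * L⌉₊ : ℝ) ≤ 82 * (2 + 2 * (Real.sqrt S - 1)) := by
        have e : 41 * L = 41 * (2 + Real.log S) := by rw [hL]
        linarith
      nlinarith
    exact_mod_cast h9

/-- the numerical part -/
lemma num_total {S L ρ D W Bd nu lS l2S : ℝ} (hS : 1 ≤ S) (hL : 2 ≤ L) (hρ : 0 ≤ ρ) (hρL : ρ ≤ 41 * L) (hD : 0 ≤ D)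
    (hW0 : 0 ≤ W) (hlS : 1 + lS ≤ L) (hl2S : 1 + l2S ≤ L) (hl2S0 : 0 ≤ l2S) (hlS0 : 0 ≤ lS)
    (hBd : Bd ≤ 3 * ρ ^ 2 * (S ^ 2 + 1) + ρ ^ 2 * (8 * S ^ 2 / S + 1) * (S ^ 2 + 1) +
      2 * ρ ^ 2 * S * (S + 1) + 4 * ρ ^ 2 * (1 + lS) * (S ^ 2) ^ 2 / S)
    (hW : W ≤ 28 * ρ ^ 2 * Real.sqrt S * (1 + l2S))
    (hnu : nu ≤ 2 * Bd + 4 * (18 * D + 1) * S ^ 2 * W ^ 2) :
    nu ≤ 8861647012 * (18 * D + 1) * L ^ 6 * S ^ 3 := by
  have hS0 : 0 < S := by linarith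
  have hL0 : 0 < L := by linarith
  have hρ2 : ρ ^ 2 ≤ 1681 * L ^ 2 := by
    calc ρ ^ 2 ≤ (41 * L) ^ 2 := pow_le_pow_left₀ hρ hρL 2
      _ = _ := by ring
  have hS2 : 1 ≤ S ^ 2 := one_le_pow₀ hS
  have hS23 : S ^ 2 ≤ S ^ 3 := pow_le_pow_right₀ hS (by norm_num)
  have hS12 : S ≤ S ^ 2 := by nlinarith
  have e1 : 8 * S ^ 2 / S = 8 * S := by field_simp
  have e2 : 4 * ρ ^ 2 * (1 + lS) * (S ^ 2) ^ 2 / S = 4 * ρ ^ 2 * (1 + lS) * S ^ 3 := by field_simp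
  rw [e1, e2] at hBd
  have hr0 : 0 ≤ ρ ^ 2 := by positivity
  have b1 : 3 * ρ ^ 2 * (S ^ 2 + 1) ≤ ρ ^ 2 * (6 * S ^ 3) := by
    calc 3 * ρ ^ 2 * (S ^ 2 + 1) = ρ ^ 2 * (3 * (S ^ 2 + 1)) := by ring
      _ ≤ _ := mul_le_mul_of_nonneg_left (by linarith) hr0
  have b2 : ρ ^ 2 * (8 * S + 1) * (S ^ 2 + 1) ≤ ρ ^ 2 * (18 * S ^ 3) := by
    calc ρ ^ 2 * (8 * S + 1) * (S ^ 2 + 1) = ρ ^ 2 * ((8 * S + 1) * (S ^ 2 + 1)) := by ring
      _ ≤ ρ ^ 2 * ((9 * S) * (2 * S ^ 2)) := by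
        apply mul_le_mul_of_nonneg_left _ hr0
        exact mul_le_mul (by linarith) (by linarith) (by positivity) (by positivity)
      _ = _ := by ring
  have b3 : 2 * ρ ^ 2 * S * (S + 1) ≤ ρ ^ 2 * (4 * S ^ 3) := by
    calc 2 * ρ ^ 2 * S * (S + 1) = ρ ^ 2 * (2 * (S * (S + 1))) := by ring
      _ ≤ _ := mul_le_mul_of_nonneg_left (by nlinarith) hr0
  have b4 : 4 * ρ ^ 2 * (1 + lS) * S ^ 3 ≤ ρ ^ 2 * (4 * L * S ^ 3) := by
    calc 4 * ρ ^ 2 * (1 + lS) * S ^ 3 = ρ ^ 2 * (4 * (1 + lS) * S ^ 3) := by ring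
      _ ≤ _ := by
        apply mul_le_mul_of_nonneg_left _ hr0
        apply mul_le_mul_of_nonneg_right _ (by positivity)
        linarith
  have hS3 : 0 < S ^ 3 := by positivity
  have b5 : Bd ≤ ρ ^ 2 * (18 * L * S ^ 3) := by
    have : ρ ^ 2 * (6 * S ^ 3) + ρ ^ 2 * (18 * S ^ 3) + ρ ^ 2 * (4 * S ^ 3) + ρ ^ 2 * (4 * L * S ^ 3) =
      ρ ^ 2 * (28 * S ^ 3 + 4 * L * S ^ 3) := by ring
    have h14 : 28 * S ^ 3 ≤ 14 * L * S ^ 3 := mul_le_mul_of_nonneg_right (by linarith) hS3.le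
    have : ρ ^ 2 * (28 * S ^ 3 + 4 * L * S ^ 3) ≤ ρ ^ 2 * (18 * L * S ^ 3) :=
      mul_le_mul_of_nonneg_left (by linarith) hr0
    linarith
  have hL36 : L ^ 3 ≤ L ^ 6 := pow_le_pow_right₀ (by linarith) (by norm_num)
  have b6 : Bd ≤ 30258 * (L ^ 6 * S ^ 3) := by
    calc Bd ≤ ρ ^ 2 * (18 * L * S ^ 3) := b5
      _ ≤ (1681 * L ^ 2) * (18 * L * S ^ 3) := mul_le_mul_of_nonneg_right hρ2 (by positivity)
      _ = 30258 * (L ^ 3 * S ^ 3) := by ring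
      _ ≤ 30258 * (L ^ 6 * S ^ 3) := by
        apply mul_le_mul_of_nonneg_left _ (by norm_num)
        exact mul_le_mul_of_nonneg_right hL36 hS3.le
  have hsq : Real.sqrt S ^ 2 = S := Real.sq_sqrt hS0.le
  have w1 : W ≤ 47068 * L ^ 3 * Real.sqrt S := by
    calc W ≤ 28 * ρ ^ 2 * Real.sqrt S * (1 + l2S) := hW
      _ ≤ 28 * (1681 * L ^ 2) * Real.sqrt S * L := by
        apply mul_le_mul _ hl2S (by linarith) (by positivity)
        apply mul_le_mul_of_nonneg_right _ (Real.sqrt_nonneg _)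
        linarith
      _ = _ := by ring
  have w2 : W ^ 2 ≤ 2215396624 * (L ^ 6 * S) := by
    calc W ^ 2 ≤ (47068 * L ^ 3 * Real.sqrt S) ^ 2 := pow_le_pow_left₀ hW0 w1 2
      _ = 2215396624 * (L ^ 6 * Real.sqrt S ^ 2) := by ring
      _ = _ := by rw [hsq]
  have w3 : 4 * (18 * D + 1) * S ^ 2 * W ^ 2 ≤ 8861586496 * (18 * D + 1) * (L ^ 6 * S ^ 3) := by
    calc 4 * (18 * D + 1) * S ^ 2 * W ^ 2 ≤ 4 * (18 * D + 1) * S ^ 2 * (2215396624 * (L ^ 6 * S)) :=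
          mul_le_mul_of_nonneg_left w2 (by positivity)
      _ = _ := by ring
  have w4 : 60516 * (L ^ 6 * S ^ 3) ≤ 60516 * (18 * D + 1) * (L ^ 6 * S ^ 3) := by
    apply mul_le_mul_of_nonneg_right _ (by positivity)
    linarith
  calc nu ≤ 60516 * (L ^ 6 * S ^ 3) + 8861586496 * (18 * D + 1) * (L ^ 6 * S ^ 3) := by linarith
    _ ≤ 60516 * (18 * D + 1) * (L ^ 6 * S ^ 3) + 8861586496 * (18 * D + 1) * (L ^ 6 * S ^ 3) := by linarith
    _ ≤ 8861647012 * (18 * D + 1) * (L ^ 6 * S ^ 3) := by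
        have : 0 ≤ (18 * D + 1) * (L ^ 6 * S ^ 3) := by positivity
        nlinarith
    _ = _ := by ring

theorem NU_sq (ε : ℝ) (hε : 0 < ε) : ∃ C : ℝ, 0 < C ∧ ∀ S : ℕ, 1 ≤ S →
    ((NU (S ^ 2)).card : ℝ) ≤ C * (S : ℝ) ^ (3 + ε) := by
  obtain ⟨δ, hδ⟩ : ∃ δ : ℝ, δ = ε / 14 := ⟨_, rfl⟩
  have hδ0 : 0 < δ := by rw [hδ]; positivity
  obtain ⟨Cd, hCd, hdiv⟩ := div_bound δ hδ0
  refine ⟨8861647012 * (18 * Cd + 1) * (2 + 1 / δ) ^ 6 + 40000, by positivity, ?_⟩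
  intro S hS1
  have hSr : (1 : ℝ) ≤ S := by exact_mod_cast hS1
  have hS0 : (0 : ℝ) < S := by linarith
  have hC0 : 0 ≤ 8861647012 * (18 * Cd + 1) * (2 + 1 / δ) ^ 6 := by positivity
  have hpow0 : 0 ≤ (S : ℝ) ^ (3 + ε) := Real.rpow_nonneg hS0.le _
  by_cases hS : 40000 ≤ S
  · obtain ⟨L, hL⟩ : ∃ L : ℝ, L = 2 + Real.log S := ⟨_, rfl⟩
    obtain ⟨r1, r2, r3, r4, r5⟩ := rho_ok hS hL
    obtain ⟨ρ, hρ⟩ : ∃ ρ : ℕ, ρ = ⌈40 * L⌉₊ := ⟨_, rfl⟩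
    rw [← hρ] at r1 r2 r3 r4
    have hSS : S ≤ S ^ 2 := by nlinarith
    have h2S : 2 * S ≤ S ^ 2 := by nlinarith
    have hSS1 : 1 ≤ S ^ 2 := by omega
    have hlog0 : 0 ≤ Real.log S := Real.log_nonneg hSr
    have hln2 : Real.log 2 ≤ 1 := by
      have := Real.log_two_lt_d9; linarith
    have hln20 : 0 ≤ Real.log 2 := Real.log_nonneg (by norm_num)
    have hl2 : Real.log ((2 * S : ℕ) : ℝ) = Real.log 2 + Real.log S := by
      push_cast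
      rw [Real.log_mul (by norm_num) hS0.ne']
    have hD : ∀ N : ℕ, N ≠ 0 → N ≤ (S ^ 2) ^ 4 → (N.divisors.card : ℝ) ≤ Cd * (S : ℝ) ^ (8 * δ) := by
      intro N hN hN4
      refine (hdiv N hN).trans ?_
      apply mul_le_mul_of_nonneg_left _ hCd.le
      have h1 : (N : ℝ) ≤ (S : ℝ) ^ (8 : ℕ) := by
        have : N ≤ S ^ 8 := by
          calc N ≤ (S ^ 2) ^ 4 := hN4
            _ = S ^ 8 := by rw [← pow_mul]
        exact_mod_cast this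
      calc (N : ℝ) ^ δ ≤ ((S : ℝ) ^ (8 : ℕ)) ^ δ := Real.rpow_le_rpow (by positivity) h1 hδ0.le
        _ = (S : ℝ) ^ (8 * δ) := by
          rw [← Real.rpow_natCast, ← Real.rpow_mul hS0.le]; norm_num
    have hnu := NU_bound (H := S ^ 2) (ρ := ρ) (S := S) (by omega) (by omega) r1 h2S (Cd * (S : ℝ) ^ (8 * δ)) hD (by positivity)
    have hbd := BadL_card (H := S ^ 2) (ρ := ρ) (S := S) r3 r4 hSS1 r1 hSS
    have hw := W_bound (H := S ^ 2) (ρ := ρ) (S := S) r3 hSS1 r1 h2S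
    have hw0 : 0 ≤ ∑ k ∈ PP (S ^ 2) ρ S, wt k := Finset.sum_nonneg (fun k _ => wt_nonneg k)
    have hn := num_total (S := (S : ℝ)) (L := L) (ρ := (ρ : ℝ)) (D := Cd * (S : ℝ) ^ (8 * δ))
      (W := ∑ k ∈ PP (S ^ 2) ρ S, wt k) (Bd := ((BadL (S ^ 2) ρ S).card : ℝ)) (nu := ((NU (S ^ 2)).card : ℝ))
      (lS := Real.log S) (l2S := Real.log ((2 * S : ℕ) : ℝ)) hSr r5 (by positivity) r2 (by positivity) hw0
      (by rw [hL]; linarith) (by rw [hL, hl2]; linarith) (by rw [hl2]; linarith) hlog0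
      (by push_cast at hbd; exact hbd) hw (by push_cast at hnu; exact hnu)
    have hLd : L ≤ (2 + 1 / δ) * (S : ℝ) ^ δ := by
      have h1 := Real.log_le_rpow_div hS0.le hδ0
      have h2 : 1 ≤ (S : ℝ) ^ δ := Real.one_le_rpow hSr hδ0.le
      have h3 : (S : ℝ) ^ δ / δ = 1 / δ * (S : ℝ) ^ δ := by ring
      rw [hL]
      rw [h3] at h1
      linarith
    have hL6 : L ^ 6 ≤ (2 + 1 / δ) ^ 6 * (S : ℝ) ^ (6 * δ) := by
      calc L ^ 6 ≤ ((2 + 1 / δ) * (S : ℝ) ^ δ) ^ 6 := pow_le_pow_left₀ (by linarith) hLd 6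
        _ = (2 + 1 / δ) ^ 6 * ((S : ℝ) ^ δ) ^ 6 := mul_pow _ _ _
        _ = _ := by
          congr 1
          rw [← Real.rpow_natCast ((S : ℝ) ^ δ), ← Real.rpow_mul hS0.le]
          congr 1
          push_cast
          ring
    have hD1 : 18 * (Cd * (S : ℝ) ^ (8 * δ)) + 1 ≤ (18 * Cd + 1) * (S : ℝ) ^ (8 * δ) := by
      have h2 : 1 ≤ (S : ℝ) ^ (8 * δ) := Real.one_le_rpow hSr (by positivity)
      linarith
    have hcomb : (S : ℝ) ^ (8 * δ) * (S : ℝ) ^ (6 * δ) * (S : ℝ) ^ 3 = (S : ℝ) ^ (3 + ε) := by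
      rw [← Real.rpow_natCast (S : ℝ) 3, ← Real.rpow_add hS0, ← Real.rpow_add hS0]
      congr 1
      rw [hδ]
      push_cast
      ring
    calc ((NU (S ^ 2)).card : ℝ) ≤ 8861647012 * (18 * (Cd * (S : ℝ) ^ (8 * δ)) + 1) * L ^ 6 * (S : ℝ) ^ 3 := hn
      _ ≤ 8861647012 * ((18 * Cd + 1) * (S : ℝ) ^ (8 * δ)) * ((2 + 1 / δ) ^ 6 * (S : ℝ) ^ (6 * δ)) * (S : ℝ) ^ 3 := by
        apply mul_le_mul_of_nonneg_right _ (by positivity)
        apply mul_le_mul _ hL6 (by positivity) (by positivity)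
        exact mul_le_mul_of_nonneg_left hD1 (by norm_num)
      _ = 8861647012 * (18 * Cd + 1) * (2 + 1 / δ) ^ 6 * ((S : ℝ) ^ (8 * δ) * (S : ℝ) ^ (6 * δ) * (S : ℝ) ^ 3) := by ring
      _ = 8861647012 * (18 * Cd + 1) * (2 + 1 / δ) ^ 6 * (S : ℝ) ^ (3 + ε) := by rw [hcomb]
      _ ≤ _ := by
        apply mul_le_mul_of_nonneg_right _ hpow0
        linarith
  · push Not at hS
    have h1 := NU_triv (S ^ 2)
    have h2 : (S : ℝ) ≤ 40000 := by exact_mod_cast hS.le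
    have h3 : (S : ℝ) ^ 3 ≤ (S : ℝ) ^ (3 + ε) := by
      rw [← Real.rpow_natCast]
      apply Real.rpow_le_rpow_of_exponent_le hSr
      push_cast; linarith
    have h4 : (((S ^ 2 : ℕ)) : ℝ) ^ 2 = (S : ℝ) * (S : ℝ) ^ 3 := by push_cast; ring
    calc ((NU (S ^ 2)).card : ℝ) ≤ (S : ℝ) * (S : ℝ) ^ 3 := by rw [← h4]; exact h1
      _ ≤ 40000 * (S : ℝ) ^ (3 + ε) := mul_le_mul h2 h3 (by positivity) (by norm_num)
      _ ≤ _ := by
        apply mul_le_mul_of_nonneg_right _ hpow0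
        linarith

theorem NU_main3 (ε : ℝ) (hε : 0 < ε) : ∃ C : ℝ, 0 < C ∧ ∀ H : ℕ, 1 ≤ H →
    ((NU H).card : ℝ) ≤ C * (H : ℝ) ^ (3 / 2 + ε) := by
  obtain ⟨C, hC, h⟩ := NU_sq (2 * ε) (by positivity)
  refine ⟨C * 2 ^ (3 + 2 * ε), by positivity, ?_⟩
  intro H hH
  have hHr : (1 : ℝ) ≤ H := by exact_mod_cast hH
  have hH0 : (0 : ℝ) < H := by linarith
  have hsq1 : 1 ≤ Real.sqrt H := by
    rw [show (1 : ℝ) = Real.sqrt 1 by rw [Real.sqrt_one]]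
    exact Real.sqrt_le_sqrt hHr
  obtain ⟨S, hS⟩ : ∃ S : ℕ, S = ⌈Real.sqrt H⌉₊ := ⟨_, rfl⟩
  have f1 : Real.sqrt H ≤ S := by rw [hS]; exact Nat.le_ceil _
  have f2 : (S : ℝ) < Real.sqrt H + 1 := by rw [hS]; exact Nat.ceil_lt_add_one (by positivity)
  have hS1 : 1 ≤ S := by
    have : (1 : ℝ) ≤ S := by linarith
    exact_mod_cast this
  have hHS : H ≤ S ^ 2 := by
    have h1 : (Real.sqrt H) ^ 2 ≤ (S : ℝ) ^ 2 := pow_le_pow_left₀ (by positivity) f1 2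
    rw [Real.sq_sqrt hH0.le] at h1
    exact_mod_cast h1
  have h1 := Finset.card_le_card (NU_mono hHS)
  have h2 := h S hS1
  have h3 : (S : ℝ) ≤ 2 * Real.sqrt H := by linarith
  have h4 : (S : ℝ) ^ (3 + 2 * ε) ≤ 2 ^ (3 + 2 * ε) * (H : ℝ) ^ (3 / 2 + ε) := by
    calc (S : ℝ) ^ (3 + 2 * ε) ≤ (2 * Real.sqrt H) ^ (3 + 2 * ε) := Real.rpow_le_rpow (by positivity) h3 (by positivity)
      _ = 2 ^ (3 + 2 * ε) * (Real.sqrt H) ^ (3 + 2 * ε) := Real.mul_rpow (by norm_num) (Real.sqrt_nonneg _)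
      _ = _ := by
        congr 1
        rw [Real.sqrt_eq_rpow, ← Real.rpow_mul hH0.le]
        congr 1
        ring
  calc ((NU H).card : ℝ) ≤ (NU (S ^ 2)).card := by exact_mod_cast h1
    _ ≤ C * (S : ℝ) ^ (3 + 2 * ε) := h2
    _ ≤ C * (2 ^ (3 + 2 * ε) * (H : ℝ) ^ (3 / 2 + ε)) := mul_le_mul_of_nonneg_left h4 hC.le
    _ = _ := by ring

theorem exN_upper3 (ε : ℝ) (hε : 0 < ε) : ∃ C : ℝ, 0 < C ∧ ∀ N : ℕ, 3 ≤ N →
    (exN N : ℝ) ≤ C * (Real.log N) ^ (3 / 2 + ε) := by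
  obtain ⟨C, hC, hmain⟩ := NU_main3 ε hε
  refine ⟨C * 4 ^ (3 / 2 + ε), by positivity, ?_⟩
  intro N hN
  have hNr : (3 : ℝ) ≤ N := by exact_mod_cast hN
  have hlog : 1 ≤ Real.log N := by
    rw [Real.le_log_iff_exp_le (by linarith)]
    have := Real.exp_one_lt_d9
    linarith
  set y := Real.log N with hy
  have hy0 : 0 < y := by linarith
  have h3N : Real.log (3 * N) ≤ 2 * y := by
    rw [Real.log_mul (by norm_num) (by linarith)]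
    have : Real.log 3 ≤ Real.log N := Real.log_le_log (by norm_num) hNr
    linarith
  have h3N' : y ≤ Real.log (3 * N) := Real.log_le_log (by linarith) (by linarith)
  set H := ⌊2 * Real.log (3 * N)⌋₊ with hH
  have f1 : (H : ℝ) ≤ 2 * Real.log (3 * N) := Nat.floor_le (by linarith)
  have f2 : 2 * Real.log (3 * N) < H + 1 := Nat.lt_floor_add_one _
  have hH1 : 1 ≤ H := by
    have : (0 : ℝ) < H := by linarith
    exact_mod_cast this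
  have g1 : exN N ≤ (NU H).card := Ex_card N H (by omega) f2
  have g2 := hmain H hH1
  have g3 : (H : ℝ) ^ (3 / 2 + ε) ≤ 4 ^ (3 / 2 + ε) * y ^ (3 / 2 + ε) := by
    calc (H : ℝ) ^ (3 / 2 + ε) ≤ (4 * y) ^ (3 / 2 + ε) :=
          Real.rpow_le_rpow (by positivity) (by linarith) (by positivity)
      _ = _ := Real.mul_rpow (by norm_num) hy0.le
  calc (exN N : ℝ) ≤ (NU H).card := by exact_mod_cast g1
    _ ≤ C * (H : ℝ) ^ (3 / 2 + ε) := g2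
    _ ≤ C * (4 ^ (3 / 2 + ε) * y ^ (3 / 2 + ε)) := mul_le_mul_of_nonneg_left g3 hC.le
    _ = _ := by ring

theorem almost_all3 (ε : ℝ) (hε : 0 < ε) : ∃ C : ℝ, 0 < C ∧ ∀ N : ℕ, 3 ≤ N →
    (exN N : ℝ) ≤ C * (Real.log N) ^ (-(1 / 2) + ε) * mkN N := by
  obtain ⟨C, hC, h1⟩ := exN_upper3 ε hε
  obtain ⟨c, hc, h2⟩ := mkN_lower
  refine ⟨C / c, by positivity, ?_⟩
  intro N hN
  have g1 := h1 N hN
  have g2 := h2 N hN
  have hNr : (3 : ℝ) ≤ N := by exact_mod_cast hN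
  have hlog : 0 < Real.log N := Real.log_pos (by linarith)
  have hp : 0 < (Real.log N) ^ (-(1 / 2) + ε) := Real.rpow_pos_of_pos hlog _
  have e : (Real.log N) ^ (3 / 2 + ε) = (Real.log N) ^ (-(1 / 2) + ε) * (Real.log N) ^ 2 := by
    rw [← Real.rpow_natCast, ← Real.rpow_add hlog]
    congr 1
    push_cast
    ring
  rw [e] at g1
  calc (exN N : ℝ) ≤ C * ((Real.log N) ^ (-(1 / 2) + ε) * (Real.log N) ^ 2) := g1
    _ = C / c * (Real.log N) ^ (-(1 / 2) + ε) * (c * (Real.log N) ^ 2) := by field_simp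
    _ ≤ C / c * (Real.log N) ^ (-(1 / 2) + ε) * mkN N := mul_le_mul_of_nonneg_left g2 (by positivity)

theorem almost_all_set3 (ε : ℝ) (hε : 0 < ε) : ∃ C : ℝ, 0 < C ∧ ∀ N : ℕ, 3 ≤ N →
    ({m : ℕ | 1 ≤ m ∧ m ≤ N ∧ ∃ p q : ℕ × ℕ, p ≠ q ∧
        (1 ≤ p.1 ∧ p.1 ≤ p.2 ∧ p.2 ≤ m ∧ p.1 ^ 2 + p.2 ^ 2 + m ^ 2 = 3 * p.1 * p.2 * m) ∧
        (1 ≤ q.1 ∧ q.1 ≤ q.2 ∧ q.2 ≤ m ∧ q.1 ^ 2 + q.2 ^ 2 + m ^ 2 = 3 * q.1 * q.2 * m)}.ncard : ℝ) ≤
      C * (Real.log N) ^ (-(1 / 2) + ε) *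
        ({m : ℕ | 1 ≤ m ∧ m ≤ N ∧ ∃ x y : ℕ, 0 < x ∧ 0 < y ∧ x ^ 2 + y ^ 2 + m ^ 2 = 3 * x * y * m}.ncard : ℝ) := by
  classical
  obtain ⟨C, hC, h⟩ := almost_all3 ε hε
  refine ⟨C, hC, fun N hN => ?_⟩
  have h1 := h N hN
  have e1 : {m : ℕ | 1 ≤ m ∧ m ≤ N ∧ ∃ p q : ℕ × ℕ, p ≠ q ∧
        (1 ≤ p.1 ∧ p.1 ≤ p.2 ∧ p.2 ≤ m ∧ p.1 ^ 2 + p.2 ^ 2 + m ^ 2 = 3 * p.1 * p.2 * m) ∧
        (1 ≤ q.1 ∧ q.1 ≤ q.2 ∧ q.2 ≤ m ∧ q.1 ^ 2 + q.2 ^ 2 + m ^ 2 = 3 * q.1 * q.2 * m)}.ncard = exN N := by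
    unfold exN
    rw [← Set.ncard_coe_finset]
    congr 1
    ext m
    simp only [Set.mem_ofPred_eq, Finset.coe_filter, Finset.mem_Icc, Ex, and_assoc]
  have e2 : {m : ℕ | 1 ≤ m ∧ m ≤ N ∧ ∃ x y : ℕ, 0 < x ∧ 0 < y ∧ x ^ 2 + y ^ 2 + m ^ 2 = 3 * x * y * m}.ncard = mkN N := by
    unfold mkN
    rw [← Set.ncard_coe_finset]
    congr 1
    ext m
    simp only [Set.mem_ofPred_eq, Finset.coe_filter, Finset.mem_Icc, Mk, and_assoc]
  rw [e1, e2]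
  exact h1

end

end Pool.Agent.TH880.MK
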